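import Mathlib

set_option autoImplicit false

/-!
The infinite product of single parity check codes.
-/

namespace Pool.Agent.H.MP_2f0ae6_an

open Finset

/-- radices -/
def M (k : ℕ) : ℕ := 2 ^ (k + 2)

/-- block lengths -/
def L : ℕ → ℕ
  | 0 => 1
  | k + 1 => M k * L k

lemma M_pos (k : ℕ) : 0 < M k := by unfold M; positivity

lemma four_le_M (k : ℕ) : 4 ≤ M k := by
  unfold M
  calc 4 = 2 ^ 2 := by norm_num
    _ ≤ 2 ^ (k + 2) := Nat.pow_le_pow_right (by norm_num) (by omega)

lemma L_pos (k : ℕ) : 0 < L k := by
  induction k with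
  | zero => simp [L]
  | succ k ih => simp only [L]; exact Nat.mul_pos (M_pos k) ih

lemma L_succ (k : ℕ) : L (k + 1) = M k * L k := rfl

lemma L_dvd {j k : ℕ} (h : j ≤ k) : L j ∣ L k := by
  induction k, h using Nat.le_induction with
  | base => exact dvd_rfl
  | succ k _ ih => exact Dvd.dvd.mul_left ih (M k)

lemma L_lt_succ (k : ℕ) : L k < L (k + 1) := by
  rw [L_succ]
  have := four_le_M k
  have := L_pos k
  nlinarith

lemma L_strictMono : StrictMono L := strictMono_nat_of_lt_succ L_lt_succ

lemma L_mono {j k : ℕ} (h : j ≤ k) : L j ≤ L k := L_strictMono.monotone h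

lemma lt_L (k : ℕ) : k < L k := by
  induction k with
  | zero => simp [L]
  | succ k ih =>
    have := L_lt_succ k
    omega

/-- the `s`-th digit in the mixed radix system -/
def dig (s n : ℕ) : ℕ := n / L s % M s

lemma dig_lt (s n : ℕ) : dig s n < M s := Nat.mod_lt _ (M_pos s)

/-- higher digits do not see the lower part -/
lemma div_L_of_lt {t s a e : ℕ} (hts : t ≤ s) (he : e < L t) :
    (a * L t + e) / L s = (a * L t) / L s := by
  obtain ⟨q, hq⟩ := L_dvd hts
  rw [hq, ← Nat.div_div_eq_div_mul, ← Nat.div_div_eq_div_mul, Nat.mul_div_cancel _ (L_pos t)]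
  congr 1
  rw [add_comm, Nat.add_mul_div_right _ _ (L_pos t), Nat.div_eq_of_lt he, zero_add]

lemma block_lt {t j r : ℕ} (hj : j < M t) (hr : r < L t) : j * L t + r < L (t + 1) := by
  rw [L_succ]
  calc j * L t + r < j * L t + L t := by omega
    _ = (j + 1) * L t := by ring
    _ ≤ M t * L t := Nat.mul_le_mul_right _ hj

/-- digits above level `t` do not depend on `j` -/
lemma div_const {t s a j r : ℕ} (hts : t < s) (hj : j < M t) (hr : r < L t) :
    (a * L (t + 1) + j * L t + r) / L s = (a * L (t + 1)) / L s := by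
  rw [add_assoc]
  exact div_L_of_lt hts (block_lt hj hr)

lemma dig_above {t s a j r : ℕ} (hts : t < s) (hj : j < M t) (hr : r < L t) :
    dig s (a * L (t + 1) + j * L t + r) = dig s (a * L (t + 1)) := by
  unfold dig
  rw [div_const hts hj hr]

lemma dig_at {t a j r : ℕ} (hj : j < M t) (hr : r < L t) :
    dig t (a * L (t + 1) + j * L t + r) = j := by
  unfold dig
  have h1 : a * L (t + 1) + j * L t + r = r + (a * M t + j) * L t := by rw [L_succ]; ring
  rw [h1, Nat.add_mul_div_right _ _ (L_pos t), Nat.div_eq_of_lt hr, zero_add,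
    Nat.add_comm, Nat.add_mul_mod_self_right, Nat.mod_eq_of_lt hj]

lemma dig_below {t s a j r : ℕ} (hst : s < t) :
    dig s (a * L (t + 1) + j * L t + r) = dig s r := by
  unfold dig
  obtain ⟨q, hq⟩ := L_dvd (Nat.succ_le_of_lt hst)
  have h1 : a * L (t + 1) + j * L t + r = r + (M s * ((a * M t + j) * q)) * L s := by
    rw [L_succ t, hq, L_succ]; ring
  rw [h1, Nat.add_mul_div_right _ _ (L_pos s), Nat.add_mul_mod_self_left]

/-- the parity constraint at level `t` -/
def ParityAt (t : ℕ) (u : ℕ → ZMod 2) : Prop :=
  ∀ a r, r < L t → ∑ j ∈ range (M t), u (a * L (t + 1) + j * L t + r) = 0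

/-- Extension of a word of length `L k` to a codeword. -/
noncomputable def ext (k : ℕ) (y : ℕ → ZMod 2) (A : ℕ → Finset ℕ) (n : ℕ) : ZMod 2 := by
  classical
  exact if ∀ s, k ≤ s → dig s n ∈ A s then y (n % L k) else 0

lemma mod_L_low {t k a j r : ℕ} (htk : t < k) (hj : j < M t) (hr : r < L t) :
    (a * L (t + 1) + j * L t + r) % L k
      = (a % (L k / L (t + 1))) * L (t + 1) + j * L t + r := by
  obtain ⟨q, hq⟩ := L_dvd (Nat.succ_le_of_lt htk)
  have hqpos : 0 < q := by
    rcases Nat.eq_zero_or_pos q with h | h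
    · subst h
      have := L_pos k
      omega
    · exact h
  rw [hq, Nat.mul_div_cancel_left _ (L_pos (t + 1))]
  have hlt := block_lt hj hr
  rw [add_assoc, add_assoc]
  set e := j * L t + r with he
  have h1 : a * L (t + 1) + e = (a / q) * (L (t + 1) * q) + ((a % q) * L (t + 1) + e) := by
    have := Nat.div_add_mod a q
    calc a * L (t + 1) + e = (q * (a / q) + a % q) * L (t + 1) + e := by rw [this]
      _ = _ := by ring
  rw [h1]
  rw [Nat.mul_comm (a / q), Nat.mul_add_mod]
  apply Nat.mod_eq_of_lt
  have h2 : a % q < q := Nat.mod_lt _ hqpos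
  calc (a % q) * L (t + 1) + e < (a % q) * L (t + 1) + L (t + 1) := by omega
    _ = (a % q + 1) * L (t + 1) := by ring
    _ ≤ q * L (t + 1) := Nat.mul_le_mul_right _ h2
    _ = L (t + 1) * q := by ring

lemma mod_L_high {t k a j r : ℕ} (hkt : k ≤ t) :
    (a * L (t + 1) + j * L t + r) % L k = r % L k := by
  obtain ⟨q, hq⟩ := L_dvd hkt
  have h1 : a * L (t + 1) + j * L t + r = r + L k * ((a * M t + j) * q) := by
    rw [L_succ t, hq]; ring
  rw [h1, Nat.add_mul_mod_self_left]

/-- The extension of a word satisfying the lower constraints is a codeword. -/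
lemma parity_ext (k : ℕ) (y : ℕ → ZMod 2) (A : ℕ → Finset ℕ)
    (hy : ∀ t < k, ParityAt t y)
    (hA : ∀ s, k ≤ s → (A s ⊆ range (M s) ∧ Even (A s).card)) (t : ℕ) :
    ParityAt t (ext k y A) := by
  classical
  intro a r hr
  unfold ext
  rcases lt_or_ge t k with htk | hkt
  · -- lower level
    have h1 : ∀ j ∈ range (M t),
        (if ∀ s, k ≤ s → dig s (a * L (t + 1) + j * L t + r) ∈ A s then
          y ((a * L (t + 1) + j * L t + r) % L k) else 0)
        = if ∀ s, k ≤ s → dig s (a * L (t + 1)) ∈ A s then
            y ((a % (L k / L (t + 1))) * L (t + 1) + j * L t + r) else 0 := by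
      intro j hj
      have hj' : j < M t := mem_range.1 hj
      rw [mod_L_low htk hj' hr]
      have : (∀ s, k ≤ s → dig s (a * L (t + 1) + j * L t + r) ∈ A s) ↔
          (∀ s, k ≤ s → dig s (a * L (t + 1)) ∈ A s) := by
        refine forall_congr' (fun s => ?_)
        refine imp_congr_right (fun hs => ?_)
        rw [dig_above (lt_of_lt_of_le htk hs) hj' hr]
      simp only [this]
    rw [sum_congr rfl h1]
    split_ifs with hc
    · exact hy t htk _ r hr
    · simp
  · -- higher level
    have h1 : ∀ j ∈ range (M t),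
        (if ∀ s, k ≤ s → dig s (a * L (t + 1) + j * L t + r) ∈ A s then
          y ((a * L (t + 1) + j * L t + r) % L k) else 0)
        = if j ∈ A t then
            (if ∀ s, k ≤ s → s ≠ t → dig s (a * L (t + 1) + 0 * L t + r) ∈ A s then
              y (r % L k) else 0) else 0 := by
      intro j hj
      have hj' : j < M t := mem_range.1 hj
      rw [mod_L_high hkt]
      have hiff : (∀ s, k ≤ s → dig s (a * L (t + 1) + j * L t + r) ∈ A s) ↔
          (j ∈ A t ∧ ∀ s, k ≤ s → s ≠ t → dig s (a * L (t + 1) + 0 * L t + r) ∈ A s) := by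
        constructor
        · intro h
          refine ⟨?_, ?_⟩
          · have := h t hkt
            rwa [dig_at hj' hr] at this
          · intro s hs hst
            have h2 := h s hs
            rcases lt_or_gt_of_ne hst with h3 | h3
            · rw [dig_below h3] at h2 ⊢
              exact h2
            · rw [dig_above h3 hj' hr] at h2
              rw [dig_above h3 (M_pos t) hr]
              exact h2
        · rintro ⟨h0, h⟩ s hs
          rcases lt_trichotomy s t with h3 | h3 | h3
          · have h2 := h s hs h3.ne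
            rw [dig_below h3] at h2 ⊢
            exact h2
          · subst h3
            rw [dig_at hj' hr]
            exact h0
          · have h2 := h s hs h3.ne'
            rw [dig_above h3 (M_pos t) hr] at h2
            rw [dig_above h3 hj' hr]
            exact h2
      by_cases hc : j ∈ A t
      · simp only [hiff, hc, true_and, if_true]
      · simp only [hiff, hc, false_and, if_false]
    rw [sum_congr rfl h1, ← sum_filter, sum_const]
    have hA' := hA t hkt
    have h2 : (range (M t)).filter (fun j => j ∈ A t) = A t := by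
      ext j
      simp only [mem_filter, mem_range]
      exact ⟨fun h => h.2, fun h => ⟨mem_range.1 (hA'.1 h), h⟩⟩
    rw [h2]
    obtain ⟨c, hc⟩ := hA'.2
    rw [hc, nsmul_eq_mul]
    have : ((c + c : ℕ) : ZMod 2) = 0 := by
      push_cast
      exact CharTwo.add_self_eq_zero _
    rw [this, zero_mul]

end Pool.Agent.H.MP_2f0ae6_an
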