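import Pool.Agent.H.MP_2f0ae6_an.Rigid

set_option autoImplicit false

/-!
Consequences: every normal number is uniformly normal and distribution normal.
-/

namespace Pool.Agent.H.MP_2f0ae6_an

open Finset Filter Topology MeasureTheory

lemma orbitPt_nonneg (q : ℕ → ℕ) (x : ℝ) (n : ℕ) : 0 ≤ orbitPt q x n := Int.fract_nonneg _

lemma orbitPt_lt_one (q : ℕ → ℕ) (x : ℝ) (n : ℕ) : orbitPt q x n < 1 := Int.fract_lt_one _

lemma prodTo_succ (q : ℕ → ℕ) (n : ℕ) : prodTo q (n + 1) = prodTo q n * q (n + 1) := by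
  unfold prodTo
  rw [Finset.prod_Icc_succ_top (by omega)]

/-- `q_{n+1} r_n = d_{n+1} + r_{n+1}` -/
lemma orbit_step (q : ℕ → ℕ) (x : ℝ) (n : ℕ) :
    (q (n + 1) : ℝ) * orbitPt q x n = digit q x (n + 1) + orbitPt q x (n + 1) := by
  have h1 : orbitPt q x (n + 1) = Int.fract ((q (n + 1) : ℝ) * orbitPt q x n) := by
    unfold orbitPt
    rw [prodTo_succ]
    push_cast
    have : (prodTo q n : ℝ) * q (n + 1) * x =
        q (n + 1) * Int.fract ((prodTo q n : ℝ) * x) +
          (((q (n + 1) : ℤ) * ⌊(prodTo q n : ℝ) * x⌋ : ℤ) : ℝ) := by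
      push_cast
      have := Int.floor_add_fract ((prodTo q n : ℝ) * x)
      calc (prodTo q n : ℝ) * q (n + 1) * x = q (n + 1) * ((prodTo q n : ℝ) * x) := by ring
        _ = q (n + 1) * ((⌊(prodTo q n : ℝ) * x⌋ : ℝ) + Int.fract ((prodTo q n : ℝ) * x)) := by
            rw [this]
        _ = _ := by ring
    rw [this, Int.fract_add_intCast]
  have hnn : 0 ≤ (q (n + 1) : ℝ) * orbitPt q x n :=
    mul_nonneg (Nat.cast_nonneg _) (orbitPt_nonneg q x n)
  have h2 : (digit q x (n + 1) : ℝ) = (⌊(q (n + 1) : ℝ) * orbitPt q x n⌋ : ℝ) := by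
    unfold digit
    rw [Nat.add_sub_cancel]
    exact natCast_floor_eq_intCast_floor hnn
  rw [h1, h2, Int.floor_add_fract]

lemma digit_lt {q : ℕ → ℕ} (x : ℝ) {n : ℕ} (hn : 1 ≤ n) (h : 0 < q n) : digit q x n < q n := by
  obtain ⟨m, rfl⟩ : ∃ m, n = m + 1 := ⟨n - 1, by omega⟩
  unfold digit
  rw [Nat.add_sub_cancel]
  have hq : (0 : ℝ) < q (m + 1) := by exact_mod_cast h
  rw [Nat.floor_lt (mul_nonneg hq.le (orbitPt_nonneg q x m))]
  calc (q (m + 1) : ℝ) * orbitPt q x m < q (m + 1) * 1 :=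
        mul_lt_mul_of_pos_left (orbitPt_lt_one q x m) hq
    _ = q (m + 1) := mul_one _

/-- mixed radix value -/
def valN (d b : ℕ → ℕ) : ℕ → ℕ
  | 0 => 0
  | l + 1 => valN d b l * b l + d l

lemma valN_congr {d d' b b' : ℕ → ℕ} {l : ℕ} (hd : ∀ i < l, d i = d' i) (hb : ∀ i < l, b i = b' i) :
    valN d b l = valN d' b' l := by
  induction l with
  | zero => rfl
  | succ l ih =>
    simp only [valN]
    rw [ih (fun i hi => hd i (by omega)) (fun i hi => hb i (by omega)), hd l (by omega),
      hb l (by omega)]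

lemma valN_lt {d b : ℕ → ℕ} {l : ℕ} (h : ∀ i < l, d i < b i) : valN d b l < ∏ i ∈ range l, b i := by
  induction l with
  | zero => simp [valN]
  | succ l ih =>
    rw [prod_range_succ]
    simp only [valN]
    have h1 := ih (fun i hi => h i (by omega))
    have h2 := h l (by omega)
    calc valN d b l * b l + d l < valN d b l * b l + b l := by omega
      _ = (valN d b l + 1) * b l := by ring
      _ ≤ _ := Nat.mul_le_mul_right _ h1

lemma valN_inj {d d' b : ℕ → ℕ} {l : ℕ} (h : ∀ i < l, d i < b i) (h' : ∀ i < l, d' i < b i)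
    (heq : valN d b l = valN d' b l) : ∀ i < l, d i = d' i := by
  induction l with
  | zero => intro i hi; omega
  | succ l ih =>
    simp only [valN] at heq
    have h1 := h l (by omega)
    have h2 := h' l (by omega)
    have e1 : d l = d' l := by
      have := congrArg (· % b l) heq
      simp only [Nat.mul_add_mod_of_lt h1, Nat.mul_add_mod_of_lt h2] at this
      exact this
    have e2 : valN d b l = valN d' b l := by
      rw [e1] at heq
      have h3 : valN d b l * b l = valN d' b l * b l := by omega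
      exact Nat.eq_of_mul_eq_mul_right (by omega) h3
    intro i hi
    rcases Nat.lt_succ_iff_lt_or_eq.1 hi with h3 | rfl
    · exact ih (fun i hi => h i (by omega)) (fun i hi => h' i (by omega)) e2 i h3
    · exact e1

/-- `r_n q_{n+1} ⋯ q_{n+l} = value of the digits + r_{n+l}` -/
lemma orbit_iter (q : ℕ → ℕ) (x : ℝ) (n l : ℕ) :
    orbitPt q x n * ((∏ i ∈ range l, q (n + 1 + i) : ℕ) : ℝ) =
      (valN (fun i => digit q x (n + 1 + i)) (fun i => q (n + 1 + i)) l : ℝ) +
        orbitPt q x (n + l) := by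
  induction l with
  | zero => simp [valN]
  | succ l ih =>
    rw [prod_range_succ, Nat.cast_mul, ← mul_assoc, ih]
    simp only [valN]
    push_cast
    have := orbit_step q x (n + l)
    rw [show n + l + 1 = n + 1 + l by omega] at this
    rw [add_mul, mul_comm (orbitPt q x (n + l)), this, show n + (l + 1) = n + 1 + l by omega]
    ring

section main

variable {q : ℕ → ℕ} {A : ℕ} {fr : (l : ℕ) → (Fin l → ℕ) → ℝ}

/-- every normal number is uniformly normal -/
theorem normal_subset_uniform (hA : ∀ n, q n < A) (h2 : ∀ n, 2 ≤ q n)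
    (hfr : ∀ l B, HasDens (At q B) (fr l B))
    (hpos : ∀ l j, 0 < fr l (fun i => q (j + i)))
    (hdec : Decodable q A) : normalSet q ⊆ uniformNormalSet q := by
  classical
  rintro x ⟨hx01, hxN⟩
  refine ⟨hx01, ?_⟩
  intro l D B hexp
  set d := digit q x with hd
  have hdq : ∀ n, 1 ≤ n → d n < q n := fun n hn => digit_lt x hn (by have := h2 n; omega)
  have hND : NormalDigits q d := hxN
  -- formula for `expectedB`
  have hform : ∀ n, expectedB q D B n = (cnt (fun j => At q B (j + 1)) n : ℝ) *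
      (if ∀ i, D i < B i then (∏ i, (B i : ℝ))⁻¹ else 0) := by
    intro n
    unfold expectedB
    rw [sum_congr rfl (fun j hj => by
      have h3 := (mem_filter.1 hj).2
      simp only [h3] : ∀ j ∈ (Finset.Icc 1 n).filter (fun j => ∀ i : Fin l, q (j + i) = B i),
      (if ∀ i : Fin l, D i < q (j + i) then (∏ i : Fin l, (B i : ℝ))⁻¹ else 0) =
      if ∀ i, D i < B i then (∏ i, (B i : ℝ))⁻¹ else 0), sum_const, nsmul_eq_mul,
      card_Icc_filter]
    rfl
  have hDB : ∀ i, D i < B i := by
    by_contra hc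
    have : ∀ n, expectedB q D B n = 0 := fun n => by rw [hform, if_neg hc, mul_zero]
    simp only [this] at hexp
    exact absurd (hexp.eventually_gt_atTop 0).exists (by simp)
  have hocc : ∃ j, At q B (j + 1) := by
    by_contra hc
    push Not at hc
    have : ∀ n, expectedB q D B n = 0 := fun n => by
      rw [hform]
      have : cnt (fun j => At q B (j + 1)) n = 0 := by
        unfold cnt
        rw [card_eq_zero, filter_eq_empty_iff]
        intro j _
        exact hc j
      rw [this]; simp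
    simp only [this] at hexp
    exact absurd (hexp.eventually_gt_atTop 0).exists (by simp)
  obtain ⟨j0, hj0⟩ := hocc
  have hBeq : (fun i : Fin l => q (j0 + 1 + i)) = B := funext hj0
  have hfrpos : 0 < fr l B := by rw [← hBeq]; exact hpos l (j0 + 1)
  have hBA : ∀ i, B i < A := fun i => by rw [← hBeq]; exact hA _
  have hDA : ∀ i, D i < A := fun i => (hDB i).trans (hBA i)
  have hB0 : ∀ i, 0 < B i := fun i => by have := hDB i; omega
  have hPpos : 0 < (∏ i, (B i : ℝ))⁻¹ := by
    apply inv_pos.2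
    apply prod_pos
    intro i _
    exact_mod_cast hB0 i
  have hj := joint_dens hA h2 hfr hdec hdq hND
    ((fun i => ⟨D i, hDA i⟩, fun i => ⟨B i, hBA i⟩) : (Fin l → Fin A) × (Fin l → Fin A))
  simp only [Fin.mk_lt_mk] at hj
  rw [if_pos hDB] at hj
  have hden := ((hfr l B).shift 1).mul_const ((∏ i, (B i : ℝ))⁻¹)
  have hratio := hj.div hden (mul_pos hfrpos hPpos).ne'
  rw [div_self (mul_pos hfrpos hPpos).ne'] at hratio
  refine hratio.congr' ?_
  filter_upwards [eventually_gt_atTop 0] with n hn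
  have hn' : (n : ℝ) ≠ 0 := by exact_mod_cast hn.ne'
  have e1 : occB q d D B n = cnt (fun j => At d D (j + 1) ∧ At q B (j + 1)) n := by
    unfold occB
    rw [filter_filter, card_Icc_filter]
    apply cnt_congr
    intro j _
    exact and_comm
  rw [hform, if_pos hDB, e1]
  simp only [Pi.div_apply]
  rw [div_mul_eq_mul_div, div_div_div_cancel_right₀ hn']

lemma card_floor_le {P : ℕ} {s : ℝ} (hs0 : 0 ≤ s) (hsP : s ≤ P) :
    s - 1 ≤ (((range P).filter (fun c : ℕ => (c : ℝ) + 1 ≤ s)).card : ℝ) := by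
  have h1 : range ⌊s⌋₊ ⊆ (range P).filter (fun c : ℕ => (c : ℝ) + 1 ≤ s) := by
    intro c hc
    rw [mem_range] at hc
    rw [mem_filter, mem_range]
    have h2 : ((c + 1 : ℕ) : ℝ) ≤ s := (Nat.le_floor_iff hs0).1 hc
    push_cast at h2
    refine ⟨?_, h2⟩
    have : (c : ℝ) < P := by linarith
    exact_mod_cast this
  have h3 := card_le_card h1
  rw [card_range] at h3
  have h4 : s - 1 ≤ ⌊s⌋₊ := by have := Nat.lt_floor_add_one s; linarith
  have h5 : (⌊s⌋₊ : ℝ) ≤ ((range P).filter (fun c : ℕ => (c : ℝ) + 1 ≤ s)).card := by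
    exact_mod_cast h3
  linarith

lemma card_ceil_le {P : ℕ} {s : ℝ} (hs0 : 0 ≤ s) :
    (((range P).filter (fun c : ℕ => (c : ℝ) < s)).card : ℝ) ≤ s + 1 := by
  have h1 : (range P).filter (fun c : ℕ => (c : ℝ) < s) ⊆ range ⌈s⌉₊ := by
    intro c hc
    rw [mem_filter] at hc
    rw [mem_range]
    exact Nat.lt_ceil.2 hc.2
  have h3 := card_le_card h1
  rw [card_range] at h3
  have h4 := Nat.ceil_lt_add_one hs0
  have h5 : (((range P).filter (fun c : ℕ => (c : ℝ) < s)).card : ℝ) ≤ ⌈s⌉₊ := by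
    exact_mod_cast h3
  linarith

/-- extension of a block by zero -/
def extF {l : ℕ} (w : Fin l → Fin A) (n : ℕ) : ℕ := if h : n < l then (w ⟨n, h⟩ : ℕ) else 0

lemma extF_apply {l : ℕ} (w : Fin l → Fin A) (i : Fin l) : extF w i = w i := by
  unfold extF; rw [dif_pos i.2]

/-- counting digit blocks by their value -/
lemma card_val {l : ℕ} (V : Fin l → Fin A) (R : ℕ → Prop) [DecidablePred R] :
    ((univ : Finset (Fin l → Fin A)).filter
      (fun D => (∀ i, D i < V i) ∧ R (valN (extF D) (extF V) l))).card =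
      ((range (∏ i, (V i : ℕ))).filter R).card := by
  classical
  set S := (univ : Finset (Fin l → Fin A)).filter (fun D => ∀ i, D i < V i) with hS
  have hprod : ∏ i ∈ range l, extF V i = ∏ i, (V i : ℕ) := by
    rw [← Fin.prod_univ_eq_prod_range]
    exact prod_congr rfl (fun i _ => extF_apply V i)
  have hlt : ∀ D ∈ S, ∀ i < l, extF D i < extF V i := by
    intro D hD i hi
    have := (mem_filter.1 hD).2 ⟨i, hi⟩
    unfold extF
    rw [dif_pos hi, dif_pos hi]
    exact this
  have hinj : Set.InjOn (fun D : Fin l → Fin A => valN (extF D) (extF V) l) S := by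
    intro D hD D' hD' h
    have := valN_inj (hlt D hD) (hlt D' hD') h
    funext i
    have := this i i.2
    rw [extF_apply, extF_apply] at this
    exact Fin.ext this
  have hcardS : S.card = ∏ i, (V i : ℕ) := by
    have : S = Fintype.piFinset (fun i => Finset.Iio (V i)) := by
      ext D
      simp [hS, Fintype.mem_piFinset]
    rw [this, Fintype.card_piFinset]
    refine prod_congr rfl (fun i _ => ?_)
    simp
  have himage : S.image (fun D => valN (extF D) (extF V) l) = range (∏ i, (V i : ℕ)) := by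
    apply eq_of_subset_of_card_le
    · intro c hc
      rw [mem_image] at hc
      obtain ⟨D, hD, rfl⟩ := hc
      rw [mem_range, ← hprod]
      exact valN_lt (hlt D hD)
    · rw [card_range, card_image_of_injOn hinj, hcardS]
  rw [← himage, filter_image, card_image_of_injOn]
  · rw [hS, filter_filter]
  · exact hinj.mono (fun D hD => (mem_filter.1 hD).1)

/-- the distribution function of the orbit -/
lemma hasDens_orbit_lt (hA : ∀ n, q n < A) (h2 : ∀ n, 2 ≤ q n)
    (hfr : ∀ l B, HasDens (At q B) (fr l B))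
    (hdec : Decodable q A) {x : ℝ} (hND : NormalDigits q (digit q x)) {t : ℝ} (ht0 : 0 ≤ t)
    (ht1 : t ≤ 1) : HasDens (fun j => orbitPt q x j < t) t := by
  classical
  set d := digit q x with hd
  have hdq : ∀ n, 1 ≤ n → d n < q n := fun n hn => digit_lt x hn (by have := h2 n; omega)
  have hdA : ∀ n, 1 ≤ n → d n < A := fun n hn => (hdq n hn).trans (hA n)
  -- for every `l` we have approximations
  have key : ∀ l : ℕ, ∃ (p1 p2 : ℕ → Prop) (a b : ℝ), HasDens p1 a ∧ HasDens p2 b ∧
      (∀ j, p1 j → orbitPt q x j < t) ∧ (∀ j, orbitPt q x j < t → p2 j) ∧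
      t - (1 / 2) ^ l ≤ a ∧ b ≤ t + (1 / 2) ^ l := by
    intro l
    -- the pair sequence
    let f : ℕ → (Fin l → Fin A) × (Fin l → Fin A) := fun j =>
      (fun i => ⟨d (j + 1 + i), hdA _ (by omega)⟩, fun i => ⟨q (j + 1 + i), hA _⟩)
    let wt : (Fin l → Fin A) × (Fin l → Fin A) → ℝ := fun w => if ∀ i, w.1 i < w.2 i then
        fr l (fun i => (w.2 i : ℕ)) * (∏ i, (((w.2 i : ℕ)) : ℝ))⁻¹ else 0
    have hf : ∀ w, HasDens (fun j => f j = w) (wt w) := by
      intro w
      refine (joint_dens hA h2 hfr hdec hdq hND w).congr (fun j => ?_)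
      simp only [f, Prod.ext_iff, At, funext_iff, Fin.ext_iff]
    have hval : ∀ j, valN (extF (f j).1) (extF (f j).2) l =
        valN (fun i => d (j + 1 + i)) (fun i => q (j + 1 + i)) l := by
      intro j
      apply valN_congr
      · intro i hi
        unfold extF
        rw [dif_pos hi]
      · intro i hi
        unfold extF
        rw [dif_pos hi]
    have hprodf : ∀ j, (∏ i, ((f j).2 i : ℕ)) = ∏ i ∈ range l, q (j + 1 + i) := by
      intro j
      rw [← Fin.prod_univ_eq_prod_range (fun i => q (j + 1 + i))]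
    have hsumgen : ∀ (R : ℕ → ℕ → Prop),
        (∑ w, if R (valN (extF w.1) (extF w.2) l) (∏ i, (w.2 i : ℕ)) then wt w else 0) =
        ∑ V : Fin l → Fin A, fr l (fun i => (V i : ℕ)) * (∏ i, ((V i : ℕ) : ℝ))⁻¹ *
          (((range (∏ i, (V i : ℕ))).filter (fun c => R c (∏ i, (V i : ℕ)))).card : ℝ) := by
      intro R
      rw [Fintype.sum_prod_type_right]
      refine sum_congr rfl (fun V _ => ?_)
      simp only [wt]
      have h3 : ∀ D : Fin l → Fin A, (if R (valN (extF D) (extF V) l) (∏ i, (V i : ℕ)) then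
          (if ∀ i, D i < V i then fr l (fun i => (V i : ℕ)) * (∏ i, (((V i : ℕ)) : ℝ))⁻¹ else 0)
          else 0) = if ((∀ i, D i < V i) ∧ R (valN (extF D) (extF V) l) (∏ i, (V i : ℕ))) then
          fr l (fun i => (V i : ℕ)) * (∏ i, (((V i : ℕ)) : ℝ))⁻¹ else 0 := by
        intro D
        by_cases h4 : R (valN (extF D) (extF V) l) (∏ i, (V i : ℕ)) <;>
          by_cases h5 : ∀ i, D i < V i <;> simp [h4, h5]
      rw [sum_congr rfl (fun D _ => h3 D), ← sum_filter, sum_const, nsmul_eq_mul,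
        card_val V (fun c => R c (∏ i, (V i : ℕ)))]
      ring
    have hVcase : ∀ V : Fin l → Fin A, fr l (fun i => (V i : ℕ)) = 0 ∨
        (0 ≤ fr l (fun i => (V i : ℕ)) ∧ (2 : ℝ) ^ l ≤ ∏ i, ((V i : ℕ) : ℝ)) := by
      intro V
      by_cases hV : ∃ j, At q (fun i => (V i : ℕ)) j
      · right
        refine ⟨(hfr _ _).nonneg, ?_⟩
        obtain ⟨j, hj⟩ := hV
        have : ∀ i ∈ (univ : Finset (Fin l)), (2 : ℝ) ≤ ((V i : ℕ) : ℝ) := by
          intro i _
          have h3 : q (j + i) = (V i : ℕ) := hj i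
          rw [← h3]
          exact_mod_cast h2 _
        calc (2 : ℝ) ^ l = ∏ i : Fin l, (2 : ℝ) := by simp
          _ ≤ _ := prod_le_prod (fun i _ => by norm_num) this
      · left
        push Not at hV
        exact (hfr _ _).unique (HasDens.const_false.congr (fun j => by
          simp only [false_iff]; exact hV j))
    refine ⟨fun j => (valN (extF (f j).1) (extF (f j).2) l : ℝ) + 1 ≤
        t * ((∏ i, ((f j).2 i : ℕ) : ℕ) : ℝ),
      fun j => (valN (extF (f j).1) (extF (f j).2) l : ℝ) < t * ((∏ i, ((f j).2 i : ℕ) : ℕ) : ℝ),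
      _, _, HasDens.of_finite hf (fun w => (valN (extF w.1) (extF w.2) l : ℝ) + 1 ≤
        t * ((∏ i, (w.2 i : ℕ) : ℕ) : ℝ)),
      HasDens.of_finite hf (fun w => (valN (extF w.1) (extF w.2) l : ℝ) <
        t * ((∏ i, (w.2 i : ℕ) : ℕ) : ℝ)), ?_, ?_, ?_, ?_⟩
    · intro j hj
      rw [hval, hprodf] at hj
      have h3 := orbit_iter q x j l
      have h4 := orbitPt_lt_one q x (j + l)
      have h5 : (0 : ℝ) < ((∏ i ∈ range l, q (j + 1 + i) : ℕ) : ℝ) := by
        exact_mod_cast prod_pos (fun i _ => by have := h2 (j + 1 + i); omega)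
      have h6 : orbitPt q x j * ((∏ i ∈ range l, q (j + 1 + i) : ℕ) : ℝ) <
          t * ((∏ i ∈ range l, q (j + 1 + i) : ℕ) : ℝ) := by
        rw [h3]
        linarith
      exact lt_of_mul_lt_mul_right h6 h5.le
    · intro j hj
      rw [hval, hprodf]
      have h3 := orbit_iter q x j l
      have h4 := orbitPt_nonneg q x (j + l)
      have h5 : (0 : ℝ) < ((∏ i ∈ range l, q (j + 1 + i) : ℕ) : ℝ) := by
        exact_mod_cast prod_pos (fun i _ => by have := h2 (j + 1 + i); omega)
      have h6 := mul_lt_mul_of_pos_right hj h5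
      rw [h3] at h6
      linarith
    · rw [hsumgen (fun c P => (c : ℝ) + 1 ≤ t * (P : ℝ))]
      have h7 : ∀ V ∈ (univ : Finset (Fin l → Fin A)),
          fr l (fun i => (V i : ℕ)) * t - fr l (fun i => (V i : ℕ)) * (1 / 2) ^ l ≤
          fr l (fun i => (V i : ℕ)) * (∏ i, ((V i : ℕ) : ℝ))⁻¹ *
          (((range (∏ i, (V i : ℕ))).filter
            (fun c : ℕ => (c : ℝ) + 1 ≤ t * ((∏ i, (V i : ℕ) : ℕ) : ℝ))).card : ℝ) := by
        intro V _
        rcases hVcase V with h0 | ⟨h0, h8⟩
        · rw [h0]; simp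
        · have hP : (0 : ℝ) < ∏ i, ((V i : ℕ) : ℝ) := lt_of_lt_of_le (by positivity) h8
          have hcast : ((∏ i, (V i : ℕ) : ℕ) : ℝ) = ∏ i, ((V i : ℕ) : ℝ) := by push_cast; rfl
          have h9 := card_floor_le (P := ∏ i, (V i : ℕ)) (s := t * ((∏ i, (V i : ℕ) : ℕ) : ℝ))
            (by positivity) (by
              rw [hcast]
              calc t * _ ≤ 1 * _ := mul_le_mul_of_nonneg_right ht1 hP.le
                _ = _ := one_mul _)
          rw [mul_assoc, ← mul_sub]
          apply mul_le_mul_of_nonneg_left _ h0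
          have h10 : (∏ i, ((V i : ℕ) : ℝ))⁻¹ ≤ (1 / 2) ^ l := by
            rw [one_div, inv_pow]
            exact inv_anti₀ (by positivity) h8
          calc t - (1 / 2) ^ l ≤ t - (∏ i, ((V i : ℕ) : ℝ))⁻¹ := by linarith
            _ = (∏ i, ((V i : ℕ) : ℝ))⁻¹ * (t * ((∏ i, (V i : ℕ) : ℕ) : ℝ) - 1) := by
                rw [hcast]; field_simp
            _ ≤ _ := mul_le_mul_of_nonneg_left h9 (inv_pos.2 hP).le
      refine le_trans (le_of_eq ?_) (sum_le_sum h7)
      rw [sum_sub_distrib, ← sum_mul, ← sum_mul, sum_fr hA hfr l]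
      ring
    · rw [hsumgen (fun c P => (c : ℝ) < t * (P : ℝ))]
      have h7 : ∀ V ∈ (univ : Finset (Fin l → Fin A)),
          fr l (fun i => (V i : ℕ)) * (∏ i, ((V i : ℕ) : ℝ))⁻¹ *
          (((range (∏ i, (V i : ℕ))).filter
            (fun c : ℕ => (c : ℝ) < t * ((∏ i, (V i : ℕ) : ℕ) : ℝ))).card : ℝ) ≤
          fr l (fun i => (V i : ℕ)) * t + fr l (fun i => (V i : ℕ)) * (1 / 2) ^ l := by
        intro V _
        rcases hVcase V with h0 | ⟨h0, h8⟩
        · rw [h0]; simp
        · have hP : (0 : ℝ) < ∏ i, ((V i : ℕ) : ℝ) := lt_of_lt_of_le (by positivity) h8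
          have hcast : ((∏ i, (V i : ℕ) : ℕ) : ℝ) = ∏ i, ((V i : ℕ) : ℝ) := by push_cast; rfl
          have h9 := card_ceil_le (P := ∏ i, (V i : ℕ)) (s := t * ((∏ i, (V i : ℕ) : ℕ) : ℝ))
            (by positivity)
          rw [mul_assoc, ← mul_add]
          apply mul_le_mul_of_nonneg_left _ h0
          have h10 : (∏ i, ((V i : ℕ) : ℝ))⁻¹ ≤ (1 / 2) ^ l := by
            rw [one_div, inv_pow]
            exact inv_anti₀ (by positivity) h8
          calc (∏ i, ((V i : ℕ) : ℝ))⁻¹ * _ ≤
                (∏ i, ((V i : ℕ) : ℝ))⁻¹ * (t * ((∏ i, (V i : ℕ) : ℕ) : ℝ) + 1) :=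
                mul_le_mul_of_nonneg_left h9 (inv_pos.2 hP).le
            _ = t + (∏ i, ((V i : ℕ) : ℝ))⁻¹ := by rw [hcast]; field_simp
            _ ≤ _ := by linarith
      refine le_trans (sum_le_sum h7) (le_of_eq ?_)
      rw [sum_add_distrib, ← sum_mul, ← sum_mul, sum_fr hA hfr l]
      ring
  -- conclusion
  have hpow : Tendsto (fun l : ℕ => (1 / 2 : ℝ) ^ l) atTop (𝓝 0) :=
    tendsto_pow_atTop_nhds_zero_of_lt_one (by norm_num) (by norm_num)
  unfold HasDens
  rw [tendsto_order]
  constructor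
  · intro b hb
    obtain ⟨l, hl⟩ := ((tendsto_order.1 hpow).2 (t - b) (by linarith)).exists
    obtain ⟨p1, p2, a, b', h3, h4, h5, h6, h7, h8⟩ := key l
    filter_upwards [(tendsto_order.1 h3).1 b (by linarith)] with N hN
    have : (cnt p1 N : ℝ) ≤ cnt (fun j => orbitPt q x j < t) N := by
      exact_mod_cast cnt_mono h5 N
    calc b < (cnt p1 N : ℝ) / N := hN
      _ ≤ _ := by gcongr
  · intro b hb
    obtain ⟨l, hl⟩ := ((tendsto_order.1 hpow).2 (b - t) (by linarith)).exists
    obtain ⟨p1, p2, a, b', h3, h4, h5, h6, h7, h8⟩ := key l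
    filter_upwards [(tendsto_order.1 h4).2 b (by linarith)] with N hN
    have : (cnt (fun j => orbitPt q x j < t) N : ℝ) ≤ cnt p2 N := by
      exact_mod_cast cnt_mono h6 N
    calc (cnt (fun j => orbitPt q x j < t) N : ℝ) / N ≤ (cnt p2 N : ℝ) / N := by gcongr
      _ < b := hN

/-- every normal number is distribution normal -/
theorem normal_subset_dist (hA : ∀ n, q n < A) (h2 : ∀ n, 2 ≤ q n)
    (hfr : ∀ l B, HasDens (At q B) (fr l B))
    (hdec : Decodable q A) : normalSet q ⊆ distNormalSet q := by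
  classical
  rintro x ⟨hx01, hxN⟩
  refine ⟨hx01, ?_⟩
  intro a b ha hab hb
  have h1 := (hasDens_orbit_lt hA h2 hfr hdec hxN (ha.trans hab.le) hb).shift 1
  have h3 := (hasDens_orbit_lt hA h2 hfr hdec hxN ha (hab.le.trans hb)).shift 1
  refine (h1.sub h3).congr (fun n => ?_)
  rw [← sub_div]
  congr 1
  rw [card_Icc_filter]
  have : cnt (fun j => orbitPt q x (j + 1) < b) n =
      cnt (fun j => orbitPt q x (j + 1) ∈ Set.Ico a b) n +
      cnt (fun j => orbitPt q x (j + 1) < a) n := by
    unfold cnt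
    rw [← card_union_of_disjoint]
    · congr 1
      ext j
      simp only [mem_filter, mem_union, Set.mem_Ico]
      constructor
      · rintro ⟨h4, h5⟩
        rcases lt_or_ge (orbitPt q x (j + 1)) a with h6 | h6
        · exact Or.inr ⟨h4, h6⟩
        · exact Or.inl ⟨h4, h6, h5⟩
      · rintro (⟨h4, h5, h6⟩ | ⟨h4, h5⟩)
        · exact ⟨h4, h6⟩
        · exact ⟨h4, h5.trans hab⟩
    · rw [Finset.disjoint_left]
      intro j h4 h5
      simp only [mem_filter, Set.mem_Ico] at h4 h5
      linarith [h4.2.1, h5.2]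
  rw [this]
  push_cast
  ring

end main

end Pool.Agent.H.MP_2f0ae6_an
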