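import Mathlib

set_option autoImplicit false

/-!
The measure of independent uniform digits.
-/

namespace Pool.Agent.H.MP_2f0ae6_an

open Finset Filter Topology MeasureTheory ProbabilityTheory

/-- independent uniform digits `x n < b n` -/
noncomputable def digMeasure (b : ℕ → ℕ) : Measure (ℕ → ℕ) :=
  Measure.infinitePi (fun n => uniformOn (↑(range (b n)) : Set ℕ))

variable {b : ℕ → ℕ} (hb : ∀ n, 0 < b n)

include hb in
lemma isProb_uniform (n : ℕ) :
    IsProbabilityMeasure (uniformOn (↑(range (b n)) : Set ℕ)) := by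
  apply isProbabilityMeasure_uniformOn (Finset.finite_toSet _)
  exact ⟨0, by simpa using hb n⟩

/-- an event is determined by the coordinates in `S` -/
def DetBy (A : (ℕ → ℕ) → Prop) (S : Finset ℕ) : Prop :=
  ∀ x y : ℕ → ℕ, (∀ n ∈ S, x n = y n) → (A x ↔ A y)

lemma DetBy.exists_eq {A : (ℕ → ℕ) → Prop} {S : Finset ℕ} (h : DetBy A S) :
    {x | A x} = (fun (x : ℕ → ℕ) (i : S) => x i) ⁻¹'
      {z | A (fun n => if hn : n ∈ S then z ⟨n, hn⟩ else 0)} := by
  ext x
  simp only [Set.mem_ofPred_eq, Set.mem_preimage]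
  apply h
  intro n hn
  simp [hn]

lemma DetBy.measurableSet {A : (ℕ → ℕ) → Prop} {S : Finset ℕ} (h : DetBy A S) :
    MeasurableSet {x | A x} := by
  rw [h.exists_eq]
  exact (measurable_pi_lambda _ fun i => measurable_pi_apply _) (MeasurableSet.of_discrete)

lemma DetBy.mono {A : (ℕ → ℕ) → Prop} {S T : Finset ℕ} (h : DetBy A S) (hST : S ⊆ T) :
    DetBy A T := fun x y hxy => h x y (fun n hn => hxy n (hST hn))

lemma DetBy.and {A B : (ℕ → ℕ) → Prop} {S : Finset ℕ} (h : DetBy A S) (h' : DetBy B S) :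
    DetBy (fun x => A x ∧ B x) S := fun x y hxy => and_congr (h x y hxy) (h' x y hxy)

lemma DetBy.not {A : (ℕ → ℕ) → Prop} {S : Finset ℕ} (h : DetBy A S) :
    DetBy (fun x => ¬ A x) S := fun x y hxy => not_congr (h x y hxy)

lemma DetBy.exists {ι : Sort*} {A : ι → (ℕ → ℕ) → Prop} {S : Finset ℕ}
    (h : ∀ i, DetBy (A i) S) : DetBy (fun x => ∃ i, A i x) S :=
  fun x y hxy => exists_congr (fun i => h i x y hxy)

lemma DetBy.forall {ι : Sort*} {A : ι → (ℕ → ℕ) → Prop} {S : Finset ℕ}
    (h : ∀ i, DetBy (A i) S) : DetBy (fun x => ∀ i, A i x) S :=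
  fun x y hxy => forall_congr' (fun i => h i x y hxy)

include hb in
/-- independence of events determined by disjoint sets of coordinates -/
lemma measure_inter_of_detBy {A B : (ℕ → ℕ) → Prop} {S T : Finset ℕ} (hA : DetBy A S)
    (hB : DetBy B T) (hST : Disjoint S T) :
    digMeasure b {x | A x ∧ B x} = digMeasure b {x | A x} * digMeasure b {x | B x} := by
  have := isProb_uniform hb
  have hind : iIndepFun (fun n (x : ℕ → ℕ) => x n) (digMeasure b) :=
    iIndepFun_infinitePi (X := fun n ω => ω) (by fun_prop)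
  have h2 := hind.indepFun_finset S T hST (fun n => measurable_pi_apply n)
  have h3 := h2.measure_inter_preimage_eq_mul
    {z | A (fun n => if hn : n ∈ S then z ⟨n, hn⟩ else 0)}
    {z | B (fun n => if hn : n ∈ T then z ⟨n, hn⟩ else 0)}
    MeasurableSet.of_discrete MeasurableSet.of_discrete
  rw [← hA.exists_eq, ← hB.exists_eq] at h3
  rw [← h3]
  rfl

include hb in
lemma isProb_digMeasure : IsProbabilityMeasure (digMeasure b) := by
  have := isProb_uniform hb
  unfold digMeasure
  infer_instance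

include hb in
/-- probability of a cylinder -/
lemma digMeasure_cyl (S : Finset ℕ) (t : ℕ → Set ℕ) :
    digMeasure b {x | ∀ n ∈ S, x n ∈ t n} = ∏ n ∈ S, uniformOn (↑(range (b n)) : Set ℕ) (t n) := by
  have := isProb_uniform hb
  have := Measure.infinitePi_pi (fun n => uniformOn (↑(range (b n)) : Set ℕ)) (s := S) (t := t)
    (fun _ _ => MeasurableSet.of_discrete)
  rw [← this]
  rfl

include hb in
lemma digMeasure_lt (n c : ℕ) (hc : c ≤ b n) :
    digMeasure b {x | x n < c} = (c : ENNReal) / b n := by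
  have h := digMeasure_cyl hb {n} (fun _ => ↑(range c))
  simp only [mem_singleton, forall_eq, prod_singleton, coe_range, Set.mem_Iio] at h
  rw [h, ← coe_range, ← coe_range, uniformOn_apply_finset]
  rw [card_range]
  congr 2
  rw [inter_eq_right.2 (range_subset_range.2 hc), card_range]

include hb in
lemma digMeasure_block {W : ℕ} (J : ℕ) (D : Fin W → ℕ) :
    digMeasure b {x | ∀ i : Fin W, x (J + i) = D i} =
      if ∀ i : Fin W, D i < b (J + i) then (∏ i : Fin W, (b (J + i) : ENNReal))⁻¹ else 0 := by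
  classical
  let t : ℕ → Set ℕ := fun n => if h : J ≤ n ∧ n - J < W then {D ⟨n - J, h.2⟩} else Set.univ
  have hS : {x : ℕ → ℕ | ∀ i : Fin W, x (J + i) = D i} =
      {x | ∀ n ∈ (univ : Finset (Fin W)).image (fun i : Fin W => J + (i : ℕ)), x n ∈ t n} := by
    ext x
    simp only [Set.mem_ofPred_eq, mem_image, mem_univ, true_and, forall_exists_index,
      forall_apply_eq_imp_iff]
    refine forall_congr' (fun i => ?_)
    have h : J ≤ J + (i : ℕ) ∧ J + (i : ℕ) - J < W := ⟨by omega, by have := i.2; omega⟩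
    have h2 : (⟨J + (i : ℕ) - J, h.2⟩ : Fin W) = i := Fin.ext (by simp)
    simp only [t]
    rw [dif_pos h, h2, Set.mem_singleton_iff]
  rw [hS, digMeasure_cyl hb, prod_image (by intro i _ i' _ h; exact Fin.ext (by simpa using h))]
  have hterm : ∀ i : Fin W, uniformOn (↑(range (b (J + i))) : Set ℕ) (t (J + i)) =
      if D i < b (J + i) then ((b (J + i) : ENNReal))⁻¹ else 0 := by
    intro i
    have h : J ≤ J + (i : ℕ) ∧ J + (i : ℕ) - J < W := ⟨by omega, by have := i.2; omega⟩
    have h2 : (⟨J + (i : ℕ) - J, h.2⟩ : Fin W) = i := Fin.ext (by simp)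
    simp only [t]
    rw [dif_pos h, h2, ← coe_singleton, uniformOn_apply_finset, card_range]
    by_cases hD : D i < b (J + i)
    · rw [if_pos hD, inter_eq_right.2 (by simpa using hD), card_singleton]
      simp
    · rw [if_neg hD]
      have : range (b (J + i)) ∩ {D i} = ∅ := by
        ext n
        simp only [mem_inter, mem_range, mem_singleton, notMem_empty, iff_false]
        rintro ⟨h1, rfl⟩
        exact hD h1
      rw [this]
      simp
  rw [prod_congr rfl (fun i _ => hterm i)]
  by_cases hD : ∀ i : Fin W, D i < b (J + i)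
  · rw [if_pos hD]
    rw [prod_congr rfl (fun i _ => if_pos (hD i))]
    rw [ENNReal.prod_inv_distrib]
    intro i _ j _ _
    right
    exact ENNReal.natCast_ne_top _
  · rw [if_neg hD]
    push Not at hD
    obtain ⟨i, hi⟩ := hD
    apply prod_eq_zero (mem_univ i)
    rw [if_neg (by omega)]

end Pool.Agent.H.MP_2f0ae6_an
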