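import Pool.Agent.H.MP_2f0ae6_an.Seq
import Pool.Agent.H.MP_2f0ae6_an.DigitMeasure

set_option autoImplicit false

/-!
Decoding: the digits reveal the base sequence with probability tending to one.
-/

namespace Pool.Agent.H.MP_2f0ae6_an

open Finset Filter Topology MeasureTheory

/-- decoding failure for the block of level `k` starting at label `m`, given the set `C` of clear
labels -/
def FailP (C : ℕ → Prop) : ℕ → ℕ → Prop
  | 0, m => ¬ C m
  | k + 1, m => ∃ i j, i < j ∧ j < M k ∧ FailP C k (m + i * L k) ∧ FailP C k (m + j * L k)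

lemma decode {u : ℕ → ZMod 2} (hu : ∀ t, ParityAt t u) (C : ℕ → Prop) :
    ∀ (k m m' : ℕ), L k ∣ m → L k ∣ m' →
      (∀ r < L k, C (m + r) → u (m + r) = u (m' + r)) → ¬ FailP C k m →
      ∀ r < L k, u (m + r) = u (m' + r) := by
  intro k
  induction k with
  | zero =>
    intro m m' _ _ h hF r hr
    have hr0 : r = 0 := by
      have : L 0 = 1 := rfl
      omega
    subst hr0
    apply h 0 hr
    simpa [FailP] using hF
  | succ k ih =>
    intro m m' hm hm' h hF
    have hsub : ∀ i, i < M k → ¬ FailP C k (m + i * L k) →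
        ∀ r < L k, u (m + i * L k + r) = u (m' + i * L k + r) := by
      intro i hi hFi
      apply ih (m + i * L k) (m' + i * L k)
      · exact dvd_add (dvd_trans (L_dvd (Nat.le_succ k)) hm) (Dvd.intro_left i rfl)
      · exact dvd_add (dvd_trans (L_dvd (Nat.le_succ k)) hm') (Dvd.intro_left i rfl)
      · intro r hr hC
        have := h (i * L k + r) (block_lt hi hr)
        rw [← add_assoc, ← add_assoc] at this
        exact this hC
      · exact hFi
    intro x hx
    obtain ⟨i, r, hi, hr, rfl⟩ : ∃ i r, i < M k ∧ r < L k ∧ x = i * L k + r := by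
      refine ⟨x / L k, x % L k, ?_, Nat.mod_lt _ (L_pos k), ?_⟩
      · rw [Nat.div_lt_iff_lt_mul (L_pos k)]; exact hx
      · rw [mul_comm]; exact (Nat.div_add_mod x (L k)).symm
    rw [← add_assoc, ← add_assoc]
    by_cases hFi : FailP C k (m + i * L k)
    · -- all the other sub-blocks are decoded, use parity
      have hother : ∀ j, j < M k → j ≠ i → ¬ FailP C k (m + j * L k) := by
        intro j hj hji hFj
        apply hF
        rcases lt_or_gt_of_ne hji with h1 | h1
        · exact ⟨j, i, h1, hi, hFj, hFi⟩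
        · exact ⟨i, j, h1, hj, hFi, hFj⟩
      obtain ⟨a, rfl⟩ := hm
      obtain ⟨a', rfl⟩ := hm'
      have p1 := hu k a r hr
      have p2 := hu k a' r hr
      rw [mul_comm a] at p1
      rw [mul_comm a'] at p2
      rw [← add_sum_erase _ _ (mem_range.2 hi)] at p1 p2
      have h3 : ∑ j ∈ (range (M k)).erase i, u (L (k + 1) * a + j * L k + r) =
          ∑ j ∈ (range (M k)).erase i, u (L (k + 1) * a' + j * L k + r) := by
        refine sum_congr rfl (fun j hj => ?_)
        rw [mem_erase, mem_range] at hj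
        exact hsub j hj.2 (hother j hj.2 hj.1) r hr
      rw [h3] at p1
      have := p1.trans p2.symm
      exact add_right_cancel this
    · exact hsub i hi hFi r hr

/-- synchronisation -/
lemma sync {c c' K : ℕ}
    (h : ∀ k, 1 ≤ k → k ≤ K → ∃ r, c + r ≠ 0 ∧ c' + r ≠ 0 ∧ lev (c + r) = k ∧
      lev (c + r) % 2 = lev (c' + r) % 2) :
    ∀ k ≤ K, c ≡ c' [MOD L k] := by
  intro k
  induction k with
  | zero => intro _; exact Nat.modEq_one
  | succ k ih =>
    intro hk
    obtain ⟨r, h1, h2, h3, h4⟩ := h (k + 1) (by omega) hk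
    have h5 : L (k + 1) ∣ c + r := (le_lev_iff h1).1 h3.ge
    have h6 : L k ∣ c + r := dvd_trans (L_dvd (Nat.le_succ k)) h5
    have h7 : c + r ≡ c' + r [MOD L k] := (ih (by omega)).add_right r
    have h8 : L k ∣ c' + r := (h7.dvd_iff dvd_rfl).1 h6
    have h9 : k ≤ lev (c' + r) := (le_lev_iff h2).2 h8
    have h10 : k + 1 ≤ lev (c' + r) := by omega
    have h11 : L (k + 1) ∣ c' + r := (le_lev_iff h2).1 h10
    have h12 : c + r ≡ c' + r [MOD L (k + 1)] :=
      ((Nat.modEq_zero_iff_dvd).2 h5).trans ((Nat.modEq_zero_iff_dvd).2 h11).symm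
    exact Nat.ModEq.add_right_cancel' r h12

/-- label `m` is clear for the digit sequence `x` -/
def Clear (u : ℕ → ZMod 2) (x : ℕ → ℕ) (m : ℕ) : Prop :=
  256 ≤ x (5 * m) ∧ 2 ≤ x (5 * m + (1 + sy u m))

/-- The digit window `D` reveals that the block at distance `a` from its start is `B`, among all
positions `≥ 6` of `gseq u`. -/
def RevG (u : ℕ → ZMod 2) {W l : ℕ} (a : ℕ) (D : Fin W → ℕ) (B : Fin l → ℕ) : Prop :=
  ∀ J, 6 ≤ J → (∀ i : Fin W, D i < gseq u (J + i)) → ∀ i : Fin l, gseq u (J + a + i) = B i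

/-- deterministic decoding statement -/
lemma reveal {u : ℕ → ZMod 2} (hu : ∀ t, ParityAt t u) {x : ℕ → ℕ} {J W K I a l : ℕ}
    (hK : 1 ≤ K) (hJ : 5 ≤ J)
    (hI1 : J ≤ 5 * (I * L K)) (hI2 : 5 * ((I + 1) * L K) ≤ J + W)
    (ha1 : 5 * (I * L K) + 5 ≤ J + a) (ha2 : J + a + l ≤ 5 * ((I + 1) * L K))
    (hclear : ∀ k, 1 ≤ k → k ≤ K → ∃ m, J ≤ 5 * m ∧ 5 * m + 5 ≤ J + W ∧ lev m = k ∧ Clear u x m)
    (hF : ¬ FailP (Clear u x) K (I * L K)) :
    RevG u a (fun i : Fin W => x (J + i)) (fun i : Fin l => gseq u (J + a + i)) := by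
  intro J' hJ' hD
  have hx : ∀ n, J ≤ n → n < J + W → x n < gseq u (J' + (n - J)) := by
    intro n h1 h2
    have := hD ⟨n - J, by omega⟩
    simp only at this
    rwa [Nat.add_sub_cancel' h1] at this
  -- alignment of the groups
  obtain ⟨m1, hm1, hm1', -, hc1⟩ := hclear 1 le_rfl hK
  have hmod : (J' + (5 * m1 - J)) % 5 = 0 := by
    apply header_of_gt (u := u)
    exact lt_of_le_of_lt hc1.1 (hx _ hm1 (by omega))
  obtain ⟨c, hc⟩ : ∃ c, c = (J + 4) / 5 := ⟨_, rfl⟩
  obtain ⟨c', hc'⟩ : ∃ c', c' = (J' + 4) / 5 := ⟨_, rfl⟩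
  have hcJ : J ≤ 5 * c ∧ 5 * c - J = 5 * c' - J' ∧ J' ≤ 5 * c' ∧ 2 ≤ c' ∧ 1 ≤ c ∧ c ≤ m1 := by
    omega
  obtain ⟨q1, q2, q3, q4, q5, -⟩ := hcJ
  -- transfer of clear labels
  have htrans : ∀ r, 5 * (c + r) + 5 ≤ J + W → Clear u x (c + r) →
      sy u (c + r) = sy u (c' + r) := by
    intro r hr hcl
    have hs := sy_lt u (c + r)
    have h1 := hx (5 * (c + r) + (1 + sy u (c + r))) (by omega) (by omega)
    have h2 : J' + (5 * (c + r) + (1 + sy u (c + r)) - J) = 5 * (c' + r) + (1 + sy u (c + r)) := by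
      omega
    rw [h2] at h1
    have h3 := one_hot_of_gt (lt_of_le_of_lt hcl.2 h1) (by omega)
    have h4 : (5 * (c' + r) + (1 + sy u (c + r))) / 5 = c' + r := by omega
    rw [h4] at h3
    omega
  -- synchronisation
  have hsync : c ≡ c' [MOD L K] := by
    apply sync (K := K) _ K le_rfl
    intro k hk1 hk2
    obtain ⟨m, hm, hm', hlev, hcl⟩ := hclear k hk1 hk2
    obtain ⟨r, rfl⟩ : ∃ r, m = c + r := ⟨m - c, by omega⟩
    exact ⟨r, by omega, by omega, hlev, parity_eq_of_sy (htrans r hm' hcl)⟩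
  -- decoding
  obtain ⟨r0, hr0⟩ : ∃ r0, I * L K = c + r0 := ⟨I * L K - c, by omega⟩
  have hdvd : L K ∣ c + r0 := hr0 ▸ Dvd.intro_left I rfl
  have hdvd' : L K ∣ c' + r0 := ((hsync.add_right r0).dvd_iff dvd_rfl).1 hdvd
  have hLK := L_pos K
  have hI3 : (I + 1) * L K = c + r0 + L K := by rw [← hr0]; ring
  have hdec : ∀ r < L K, u (c + r0 + r) = u (c' + r0 + r) := by
    apply decode hu (Clear u x) K (c + r0) (c' + r0) hdvd hdvd'
    · intro r hr hcl
      apply bit_eq_of_sy
      have := htrans (r0 + r) (by omega) (by rwa [← add_assoc])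
      rwa [← add_assoc, ← add_assoc] at this
    · rwa [← hr0]
  intro i
  have hi := i.2
  obtain ⟨m, e, he, hme⟩ : ∃ m e, e < 5 ∧ J + a + i = 5 * m + e :=
    ⟨(J + a + i) / 5, (J + a + i) % 5, Nat.mod_lt _ (by norm_num), (Nat.div_add_mod _ 5).symm⟩
  obtain ⟨r, rfl⟩ : ∃ r, m = c + r0 + r := ⟨m - (c + r0), by omega⟩
  have hr1 : 0 < r := by omega
  have hr2 : r < L K := by omega
  show gseq u (J' + a + i) = gseq u (J + a + i)
  rw [hme]
  have h1 : J' + a + i = 5 * (c' + r0 + r) + e := by omega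
  rw [h1]
  apply gseq_congr he
  apply sy_congr
  · exact (hdec r hr2).symm
  · obtain ⟨y, hy⟩ := hdvd
    obtain ⟨y', hy'⟩ := hdvd'
    rw [hy, hy', mul_comm (L K) y, mul_comm (L K) y', lev_add hr1 hr2, lev_add hr1 hr2]

/-! ### Probability estimates -/

variable (u : ℕ → ZMod 2)

lemma gpos (n : ℕ) : 0 < gseq u n := lt_of_lt_of_le (by norm_num) (gseq_ge u n)

lemma detBy_clear (m : ℕ) : DetBy (fun x => Clear u x m) (Finset.Ico (5 * m) (5 * m + 5)) := by
  intro x y h
  have hs := sy_lt u m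
  have h1 := h (5 * m) (by rw [mem_Ico]; omega)
  have h2 := h (5 * m + (1 + sy u m)) (by rw [mem_Ico]; omega)
  show Clear u x m ↔ Clear u y m
  unfold Clear
  rw [h1, h2]

lemma prob_not_clear (m : ℕ) :
    digMeasure (gseq u) {x | ¬ Clear u x m} ≤ (2⁻¹ : ENNReal) ^ 6 := by
  have hsub : {x | ¬ Clear u x m} ⊆
      {x | x (5 * m) < 256} ∪ {x | x (5 * m + (1 + sy u m)) < 2} := by
    intro x hx
    simp only [Clear, Set.mem_ofPred_eq, not_and_or, not_le, Set.mem_union] at hx ⊢
    exact hx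
  refine (measure_mono hsub).trans ((measure_union_le _ _).trans ?_)
  rw [digMeasure_lt (gpos u) _ 256 (by rw [gseq_header]; norm_num),
    digMeasure_lt (gpos u) _ 2 (gseq_ge u _), gseq_header, gseq_one_hot]
  have e1 : ((256 : ℕ) : ENNReal) / ((65536 : ℕ) : ENNReal) = 2⁻¹ ^ 8 := by
    have h1 : ((65536 : ℕ) : ENNReal) = 256 * 256 := by norm_num
    have h2 : ((256 : ℕ) : ENNReal) = 256 := by norm_num
    rw [h1, h2, ENNReal.div_eq_inv_mul, ENNReal.mul_inv (by simp) (by simp), mul_assoc,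
      ENNReal.inv_mul_cancel (by simp) (by simp), mul_one, ← ENNReal.inv_pow]
    norm_num
  have e2 : ((2 : ℕ) : ENNReal) / ((256 : ℕ) : ENNReal) = 2⁻¹ ^ 7 := by
    have h1 : ((256 : ℕ) : ENNReal) = 128 * 2 := by norm_num
    have h2 : ((2 : ℕ) : ENNReal) = 2 := by norm_num
    rw [h1, h2, ENNReal.div_eq_inv_mul, ENNReal.mul_inv (by simp) (by simp), mul_assoc,
      ENNReal.inv_mul_cancel (by simp) (by simp), mul_one, ← ENNReal.inv_pow]
    norm_num
  rw [e1, e2]
  calc (2⁻¹ : ENNReal) ^ 8 + 2⁻¹ ^ 7 ≤ 2⁻¹ ^ 7 + 2⁻¹ ^ 7 := by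
        gcongr ?_ + _
        exact pow_le_pow_right_of_le_one' (by simp) (by norm_num)
    _ = 2⁻¹ ^ 6 * (2⁻¹ + 2⁻¹) := by ring
    _ = 2⁻¹ ^ 6 := by rw [ENNReal.inv_two_add_inv_two, mul_one]

lemma detBy_fail (k : ℕ) : ∀ m, DetBy (fun x => FailP (Clear u x) k m)
    (Finset.Ico (5 * m) (5 * (m + L k))) := by
  induction k with
  | zero =>
    intro m
    have := (detBy_clear u m).not
    simpa [FailP, L, mul_add] using this
  | succ k ih =>
    intro m
    apply DetBy.exists
    intro i
    apply DetBy.exists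
    intro j
    intro x y hxy
    simp only
    refine and_congr_right (fun hij => and_congr_right (fun hj => ?_))
    have hbound : ∀ i, i < M k → Finset.Ico (5 * (m + i * L k)) (5 * (m + i * L k + L k)) ⊆
        Finset.Ico (5 * m) (5 * (m + L (k + 1))) := by
      intro i hi
      apply Finset.Ico_subset_Ico
      · omega
      · have : (i + 1) * L k ≤ L (k + 1) := by
          rw [L_succ]; exact Nat.mul_le_mul_right _ hi
        have h2 : (i + 1) * L k = i * L k + L k := by ring
        omega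
    exact and_congr ((ih (m + i * L k)).mono (hbound i (by omega)) x y hxy)
      ((ih (m + j * L k)).mono (hbound j hj) x y hxy)

lemma prob_fail (k : ℕ) : ∀ m, digMeasure (gseq u) {x | FailP (Clear u x) k m} ≤
    (2⁻¹ : ENNReal) ^ (2 * k + 6) := by
  induction k with
  | zero => intro m; exact prob_not_clear u m
  | succ k ih =>
    intro m
    have hsub : {x | FailP (Clear u x) (k + 1) m} ⊆
        ⋃ p ∈ ((range (M k)) ×ˢ (range (M k))).filter (fun p => p.1 < p.2),
          {x | FailP (Clear u x) k (m + p.1 * L k) ∧ FailP (Clear u x) k (m + p.2 * L k)} := by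
      intro x hx
      obtain ⟨i, j, hij, hj, h1, h2⟩ := hx
      simp only [Set.mem_iUnion]
      refine ⟨(i, j), ?_, h1, h2⟩
      simp only [mem_filter, mem_product, mem_range]
      exact ⟨⟨by omega, hj⟩, hij⟩
    refine (measure_mono hsub).trans ((measure_biUnion_finset_le _ _).trans ?_)
    have hterm : ∀ p ∈ ((range (M k)) ×ˢ (range (M k))).filter (fun p => p.1 < p.2),
        digMeasure (gseq u) {x | FailP (Clear u x) k (m + p.1 * L k) ∧
          FailP (Clear u x) k (m + p.2 * L k)} ≤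
          (2⁻¹ : ENNReal) ^ (2 * k + 6) * (2⁻¹ : ENNReal) ^ (2 * k + 6) := by
      intro p hp
      simp only [mem_filter, mem_product, mem_range] at hp
      rw [measure_inter_of_detBy (gpos u) (detBy_fail u k _) (detBy_fail u k _)]
      · exact mul_le_mul' (ih _) (ih _)
      · rw [Finset.disjoint_left]
        intro n h1 h2
        rw [mem_Ico] at h1 h2
        have : (p.1 + 1) * L k ≤ p.2 * L k := Nat.mul_le_mul_right _ hp.2
        have h3 : (p.1 + 1) * L k = p.1 * L k + L k := by ring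
        omega
    refine (sum_le_sum hterm).trans ?_
    rw [sum_const, nsmul_eq_mul]
    have hcard : (((range (M k)) ×ˢ (range (M k))).filter (fun p => p.1 < p.2)).card ≤
        2 ^ (2 * k + 4) := by
      refine (card_filter_le _ _).trans ?_
      rw [card_product, card_range]
      unfold M
      rw [← pow_add]
      apply le_of_eq
      congr 1
      ring
    calc ((((range (M k)) ×ˢ (range (M k))).filter (fun p => p.1 < p.2)).card : ENNReal) *
          ((2⁻¹ : ENNReal) ^ (2 * k + 6) * (2⁻¹ : ENNReal) ^ (2 * k + 6))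
        ≤ ((2 ^ (2 * k + 4) : ℕ) : ENNReal) *
          ((2⁻¹ : ENNReal) ^ (2 * k + 6) * (2⁻¹ : ENNReal) ^ (2 * k + 6)) := by
          gcongr
      _ = (2 ^ (2 * k + 4) * (2⁻¹ : ENNReal) ^ (2 * k + 4)) *
          (2⁻¹ : ENNReal) ^ (2 * (k + 1) + 6) := by
          push_cast; ring
      _ = (2⁻¹ : ENNReal) ^ (2 * (k + 1) + 6) := by
          rw [← mul_pow, ENNReal.mul_inv_cancel (by simp) (by simp), one_pow, one_mul]

/-- probability that none of `N` distinct labels is clear -/
lemma prob_none_clear (f : ℕ → ℕ) (hf : StrictMono f) (N : ℕ) :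
    digMeasure (gseq u) {x | ∀ r, r < N → ¬ Clear u x (f r)} ≤ ((2⁻¹ : ENNReal) ^ 6) ^ N := by
  have := isProb_digMeasure (gpos u)
  induction N with
  | zero =>
    simp
  | succ N ih =>
    have h1 : {x | ∀ r, r < N + 1 → ¬ Clear u x (f r)} =
        {x | (∀ r, r < N → ¬ Clear u x (f r)) ∧ ¬ Clear u x (f N)} := by
      ext x
      simp only [Set.mem_ofPred_eq]
      constructor
      · intro h
        exact ⟨fun r hr => h r (by omega), h N (by omega)⟩
      · rintro ⟨h1, h2⟩ r hr
        rcases Nat.lt_succ_iff_lt_or_eq.1 hr with h3 | rfl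
        · exact h1 r h3
        · exact h2
    rw [h1]
    have hA : DetBy (fun x => ∀ r, r < N → ¬ Clear u x (f r)) (range (5 * f N)) := by
      apply DetBy.forall
      intro r x y hxy
      refine imp_congr_right (fun hr => ?_)
      apply not_congr
      apply detBy_clear u (f r) x y
      intro n hn
      apply hxy
      rw [mem_Ico] at hn
      rw [mem_range]
      have := hf hr
      omega
    rw [measure_inter_of_detBy (gpos u) hA (detBy_clear u (f N)).not, pow_succ]
    · exact mul_le_mul' ih (prob_not_clear u _)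
    · rw [Finset.disjoint_left]
      intro n h1 h2
      rw [mem_Ico] at h2
      rw [mem_range] at h1
      omega

lemma lev_special {a k K r : ℕ} (hk1 : 1 ≤ k) (hk : k ≤ K) (hr : r + 1 < M K) :
    lev (a * L (K + 1) + L k + r * L K) = k := by
  have hne : a * L (K + 1) + L k + r * L K ≠ 0 := by
    have := L_pos k
    omega
  apply le_antisymm
  · by_contra hc
    rw [not_le, ← Nat.succ_le_iff, le_lev_iff hne] at hc
    have hc' : L (k + 1) ∣ a * L (K + 1) + L k + r * L K := hc
    have h1 : L (k + 1) ∣ a * L (K + 1) := Dvd.dvd.mul_left (L_dvd (by omega)) a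
    rw [add_assoc] at hc'
    have h2 : L (k + 1) ∣ L k + r * L K := (Nat.dvd_add_right h1).1 hc'
    rcases Nat.lt_or_eq_of_le hk with h | rfl
    · have h3 : L (k + 1) ∣ r * L K := Dvd.dvd.mul_left (L_dvd (by omega)) r
      have h4 : L (k + 1) ∣ L k := (Nat.dvd_add_left h3).1 h2
      have := Nat.le_of_dvd (L_pos k) h4
      have := L_lt_succ k
      omega
    · have h3 : L k + r * L k = (r + 1) * L k := by ring
      rw [h3, L_succ] at h2
      have h4 := Nat.dvd_of_mul_dvd_mul_right (L_pos k) h2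
      have := Nat.le_of_dvd (by omega) h4
      omega
  · rw [le_lev_iff hne]
    exact dvd_add (dvd_add (Dvd.dvd.mul_left (L_dvd (by omega)) a) dvd_rfl)
      (Dvd.dvd.mul_left (L_dvd hk) r)

/-- Main probability estimate: for a position `J ≥ 5` such that the central block lies in the
interior of a super block of level `K`, the digits in the window fail to reveal the central block
with small probability. -/
lemma prob_not_reveal {u : ℕ → ZMod 2} (hu : ∀ t, ParityAt t u) {J K l : ℕ} (hK : 1 ≤ K)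
    (hJ : 5 ≤ J) (hgood : GoodRes K l (J % (5 * L K))) :
    digMeasure (gseq u) {x | ¬ RevG u (5 * L K)
        (fun i : Fin (5 * L K + 10 * L (K + 1)) => x (J + i))
        (fun i : Fin l => gseq u (J + 5 * L K + i))} ≤
      K * ((2⁻¹ : ENNReal) ^ 6) ^ (M K - 1) + (2⁻¹ : ENNReal) ^ (2 * K + 6) := by
  have hLK := L_pos K
  have hLK1 := L_pos (K + 1)
  have hLL : 4 * L K ≤ L (K + 1) := by
    rw [L_succ]; exact Nat.mul_le_mul_right _ (four_le_M K)
  have hMK := four_le_M K
  set I := (J + 5 * L K) / (5 * L K) with hI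
  have hmod : (J + 5 * L K) % (5 * L K) = J % (5 * L K) := by simp
  have hdm := Nat.div_add_mod (J + 5 * L K) (5 * L K)
  rw [hmod, ← hI] at hdm
  have hlt : J % (5 * L K) < 5 * L K := Nat.mod_lt _ (by omega)
  have hg1 := hgood.1
  have hg2 := hgood.2
  have e1 : 5 * L K * I = 5 * (I * L K) := by ring
  rw [e1] at hdm
  have e2 : 5 * ((I + 1) * L K) = 5 * (I * L K) + 5 * L K := by ring
  set a := (J + 5 * L K) / (5 * L (K + 1)) + 1 with ha
  have hdm2 := Nat.div_add_mod (J + 5 * L K) (5 * L (K + 1))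
  have hlt2 : (J + 5 * L K) % (5 * L (K + 1)) < 5 * L (K + 1) := Nat.mod_lt _ (by omega)
  have e3 : 5 * (a * L (K + 1)) = 5 * L (K + 1) * ((J + 5 * L K) / (5 * L (K + 1))) +
      5 * L (K + 1) := by rw [ha]; ring
  have hsub : {x | ¬ RevG u (5 * L K)
        (fun i : Fin (5 * L K + 10 * L (K + 1)) => x (J + i))
        (fun i : Fin l => gseq u (J + 5 * L K + i))} ⊆
      (⋃ k ∈ Finset.Icc 1 K, {x | ∀ r, r < M K - 1 →
          ¬ Clear u x (a * L (K + 1) + L k + r * L K)}) ∪ {x | FailP (Clear u x) K (I * L K)} := by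
    intro x hx
    by_contra hc
    apply hx
    simp only [Set.mem_union, Set.mem_iUnion, mem_Icc, Set.mem_ofPred_eq, not_or, not_exists,
      not_forall, not_not] at hc
    obtain ⟨hc1, hc2⟩ := hc
    apply reveal hu (K := K) (I := I) hK hJ
    · omega
    · omega
    · omega
    · omega
    · intro k hk1 hk2
      obtain ⟨r, hr, hcl⟩ := hc1 k ⟨hk1, hk2⟩
      refine ⟨_, ?_, ?_, lev_special hk1 hk2 (by omega), hcl⟩
      · omega
      · have h1 : L k ≤ L K := L_mono hk2
        have h2 : (r + 2) * L K ≤ L (K + 1) := by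
          rw [L_succ]; exact Nat.mul_le_mul_right _ (by omega)
        have h3 : (r + 2) * L K = r * L K + 2 * L K := by ring
        omega
    · exact hc2
  refine (measure_mono hsub).trans ((measure_union_le _ _).trans ?_)
  apply add_le_add _ (prob_fail u K _)
  refine (measure_biUnion_finset_le _ _).trans ?_
  calc ∑ k ∈ Finset.Icc 1 K, digMeasure (gseq u) {x | ∀ r, r < M K - 1 →
          ¬ Clear u x (a * L (K + 1) + L k + r * L K)}
      ≤ ∑ k ∈ Finset.Icc 1 K, ((2⁻¹ : ENNReal) ^ 6) ^ (M K - 1) := by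
        refine sum_le_sum (fun k _ => ?_)
        apply prob_none_clear u (fun r => a * L (K + 1) + L k + r * L K)
        intro r r' hrr
        simp only
        have : r * L K < r' * L K := Nat.mul_lt_mul_of_pos_right hrr hLK
        omega
    _ = K * ((2⁻¹ : ENNReal) ^ 6) ^ (M K - 1) := by
        rw [sum_const, Nat.card_Icc, nsmul_eq_mul]; simp

end Pool.Agent.H.MP_2f0ae6_an
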