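import Mathlib

set_option autoImplicit false

/-!
Definitions for normal numbers with respect to Cantor series expansions.
A basic sequence is a function `q : ℕ → ℕ` with `q n ≥ 2` for `n ≥ 1`; the value `q 0` plays no role.
-/

namespace Pool.Agent.H.MP_2f0ae6_an

open Filter Topology MeasureTheory

/-- `q` is a basic sequence `(q_n)_{n ≥ 1}`: every `q n` with `n ≥ 1` is at least `2`. -/
def IsBasic (q : ℕ → ℕ) : Prop := ∀ n, 1 ≤ n → 2 ≤ q n

/-- The product `q_1 q_2 ⋯ q_n`. -/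
def prodTo (q : ℕ → ℕ) (n : ℕ) : ℕ := ∏ i ∈ Finset.Icc 1 n, q i

/-- The orbit point `q_1 q_2 ⋯ q_n x mod 1`. -/
noncomputable def orbitPt (q : ℕ → ℕ) (x : ℝ) (n : ℕ) : ℝ := Int.fract ((prodTo q n : ℝ) * x)

/-- The `n`-th digit (`n ≥ 1`) of the Cantor series expansion of `x` with respect to `q`. -/
noncomputable def digit (q : ℕ → ℕ) (x : ℝ) (n : ℕ) : ℕ := ⌊(q n : ℝ) * orbitPt q x (n - 1)⌋₊

/-- `Q_n(D) = ∑_{j=1}^n I_j(D) / (q_j ⋯ q_{j+l-1})`. -/
noncomputable def expected (q : ℕ → ℕ) {l : ℕ} (D : Fin l → ℕ) (n : ℕ) : ℝ :=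
  ∑ j ∈ Finset.Icc 1 n,
    if ∀ i : Fin l, D i < q (j + i) then (∏ i : Fin l, (q (j + i) : ℝ))⁻¹ else 0

/-- `N_n(D,x)`: the number of `1 ≤ j ≤ n` such that the digits `d_j, …, d_{j+l-1}` form `D`. -/
def occ (d : ℕ → ℕ) {l : ℕ} (D : Fin l → ℕ) (n : ℕ) : ℕ :=
  ((Finset.Icc 1 n).filter fun j => ∀ i : Fin l, d (j + i) = D i).card

/-- The set `N(Q)` of `Q`-normal numbers in `[0,1)`. -/
def normalSet (q : ℕ → ℕ) : Set ℝ :=
  {x | x ∈ Set.Ico (0 : ℝ) 1 ∧ ∀ (l : ℕ) (D : Fin l → ℕ),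
    Tendsto (fun n => expected q D n) atTop atTop →
      Tendsto (fun n => (occ (digit q x) D n : ℝ) / expected q D n) atTop (𝓝 1)}

/-- The set `DN(Q)` of `Q`-distribution normal numbers in `[0,1)`. -/
def distNormalSet (q : ℕ → ℕ) : Set ℝ :=
  {x | x ∈ Set.Ico (0 : ℝ) 1 ∧ ∀ a b : ℝ, 0 ≤ a → a < b → b ≤ 1 →
    Tendsto (fun n : ℕ =>
      (((Finset.Icc 1 n).filter fun j => orbitPt q x j ∈ Set.Ico a b).card : ℝ) / n)
      atTop (𝓝 (b - a))}

/-- `Q_n(D,B)`: the sum of `I_j(D)/(b_1 ⋯ b_l)` over `1 ≤ j ≤ n` with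
`(q_j, …, q_{j+l-1}) = B`. -/
noncomputable def expectedB (q : ℕ → ℕ) {l : ℕ} (D B : Fin l → ℕ) (n : ℕ) : ℝ :=
  ∑ j ∈ (Finset.Icc 1 n).filter (fun j => ∀ i : Fin l, q (j + i) = B i),
    if ∀ i : Fin l, D i < q (j + i) then (∏ i : Fin l, (B i : ℝ))⁻¹ else 0

/-- `N_n(D,B,x)`: the number of `1 ≤ j ≤ n` with `(q_j, …, q_{j+l-1}) = B` and
`(d_j, …, d_{j+l-1}) = D`. -/
def occB (q d : ℕ → ℕ) {l : ℕ} (D B : Fin l → ℕ) (n : ℕ) : ℕ :=
  (((Finset.Icc 1 n).filter (fun j => ∀ i : Fin l, q (j + i) = B i)).filter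
    fun j => ∀ i : Fin l, d (j + i) = D i).card

/-- The set `UN(Q)` of uniformly `Q`-normal numbers in `[0,1)`. -/
def uniformNormalSet (q : ℕ → ℕ) : Set ℝ :=
  {x | x ∈ Set.Ico (0 : ℝ) 1 ∧ ∀ (l : ℕ) (D B : Fin l → ℕ),
    Tendsto (fun n => expectedB q D B n) atTop atTop →
      Tendsto (fun n => (occB q (digit q x) D B n : ℝ) / expectedB q D B n) atTop (𝓝 1)}

/-- `q` is generated by the system `(X, μ, T)`, the function `f` and the point `x`. -/
structure Generates {X : Type} [TopologicalSpace X] [MeasurableSpace X] (μ : Measure X)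
    (T : X → X) (f : X → ℕ) (x : X) (q : ℕ → ℕ) : Prop where
  /-- `T` is continuous -/
  continuous_T : Continuous T
  /-- `T` preserves `μ` -/
  measurePreserving : MeasurePreserving T μ μ
  /-- `f` is continuous -/
  continuous_f : Continuous f
  /-- `f` takes values in `{2, 3, …}` -/
  two_le : ∀ y, 2 ≤ f y
  /-- `μ` is positive on nonempty open sets -/
  open_pos : ∀ U : Set X, IsOpen U → U.Nonempty → 0 < μ U
  /-- the topology of `X` is generated by the sets `T^{-n} f^{-1}(m)` -/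
  generating : (inferInstance : TopologicalSpace X) =
    TopologicalSpace.generateFrom {U | ∃ n m : ℕ, U = {y | f (T^[n] y) = m}}
  /-- `x` is generic for `μ` -/
  generic : ∀ F : X → ℝ, Continuous F → Integrable F μ →
    Tendsto (fun N : ℕ => (∑ n ∈ Finset.Icc 1 N, F (T^[n] x)) / N) atTop (𝓝 (∫ y, F y ∂μ))
  /-- `q_n = f(T^n x)` -/
  eq : ∀ n, 1 ≤ n → q n = f (T^[n] x)

/-- Shannon entropy of the partition `P ∨ T⁻¹P ∨ ⋯ ∨ T^{-(n-1)}P`, where the finite measurable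
partition is given by the fibres of a map `P : X → Fin k`. -/
noncomputable def partEntropy {X : Type} [MeasurableSpace X] (μ : Measure X) (T : X → X)
    {k : ℕ} (P : X → Fin k) (n : ℕ) : ℝ :=
  ∑ w : Fin n → Fin k, Real.negMulLog (μ.real {y | ∀ i : Fin n, P (T^[i] y) = w i})

/-- The Kolmogorov-Sinai entropy `h_μ(T)`: the supremum over all finite measurable partitions `P`
of `lim (1/n) H(P ∨ ⋯ ∨ T^{-(n-1)}P)`. -/
noncomputable def ksEntropy {X : Type} [MeasurableSpace X] (μ : Measure X) (T : X → X) : ENNReal :=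
  ⨆ (k : ℕ) (P : X → Fin k) (_ : Measurable P),
    limsup (fun n : ℕ => ENNReal.ofReal (partEntropy μ T P n / n)) atTop

/-- `q` is a non-deterministic dynamically generated basic sequence. -/
def NonDetDynGenerated (q : ℕ → ℕ) : Prop :=
  ∃ (X : Type) (_ : MetricSpace X) (_ : CompleteSpace X) (_ : TopologicalSpace.SeparableSpace X)
    (_ : MeasurableSpace X) (_ : BorelSpace X) (μ : Measure X) (_ : IsProbabilityMeasure μ)
    (T : X → X) (f : X → ℕ) (x : X), Generates μ T f x q ∧ 0 < ksEntropy μ T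

end Pool.Agent.H.MP_2f0ae6_an
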