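import Mathlib

set_option autoImplicit false

/-!
Natural densities of predicates on `ℕ`.
-/

namespace Pool.Agent.H.MP_2f0ae6_an

open Finset Filter Topology Classical

/-- number of `j < N` with `p j` -/
noncomputable def cnt (p : ℕ → Prop) (N : ℕ) : ℕ := ((range N).filter p).card

/-- `p` has natural density `a` -/
def HasDens (p : ℕ → Prop) (a : ℝ) : Prop :=
  Tendsto (fun N : ℕ => (cnt p N : ℝ) / N) atTop (𝓝 a)

lemma cnt_mono {p p' : ℕ → Prop} (h : ∀ j, p j → p' j) (N : ℕ) : cnt p N ≤ cnt p' N :=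
  card_le_card (monotone_filter_right _ (fun a _ h' => h a h'))

lemma cnt_le (p : ℕ → Prop) (N : ℕ) : cnt p N ≤ N := by
  unfold cnt
  calc _ ≤ (range N).card := card_filter_le _ _
    _ = N := card_range N

lemma cnt_congr {p p' : ℕ → Prop} (N : ℕ) (h : ∀ j < N, (p j ↔ p' j)) : cnt p N = cnt p' N := by
  unfold cnt
  congr 1
  apply filter_congr
  intro j hj
  exact h j (mem_range.1 hj)

lemma cnt_or_le (p p' : ℕ → Prop) (N : ℕ) : cnt (fun j => p j ∨ p' j) N ≤ cnt p N + cnt p' N := by
  unfold cnt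
  calc _ ≤ ((range N).filter p ∪ (range N).filter p').card :=
        card_le_card (by intro j; simp only [mem_filter, mem_union]; tauto)
    _ ≤ _ := card_union_le _ _

/-- a real sequence which is eventually within `ε` of some number, for all `ε`, converges -/
lemma exists_tendsto_of_approx {s : ℕ → ℝ}
    (h : ∀ ε > 0, ∃ a : ℝ, ∀ᶠ N in atTop, |s N - a| ≤ ε) : ∃ l, Tendsto s atTop (𝓝 l) := by
  have : CauchySeq s := by
    rw [Metric.cauchySeq_iff']
    intro ε hε
    obtain ⟨a, ha⟩ := h (ε / 3) (by positivity)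
    obtain ⟨N0, hN0⟩ := eventually_atTop.1 ha
    refine ⟨N0, fun n hn => ?_⟩
    have h1 := hN0 n hn
    have h2 := hN0 N0 le_rfl
    rw [Real.dist_eq]
    have : s n - s N0 = (s n - a) - (s N0 - a) := by ring
    rw [this]
    calc |(s n - a) - (s N0 - a)| ≤ |s n - a| + |s N0 - a| := abs_sub _ _
      _ ≤ ε / 3 + ε / 3 := add_le_add h1 h2
      _ < ε := by linarith
  exact cauchySeq_tendsto_of_complete this

lemma cnt_mod (p : ℕ → Prop) {m : ℕ} (hm : 0 < m) (N : ℕ) :
    cnt p N = ∑ r ∈ range m, cnt (fun i => p (m * i + r)) ((N + (m - 1 - r)) / m) := by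
  unfold cnt
  rw [card_eq_sum_card_fiberwise (f := fun j => j % m) (t := range m)]
  · refine sum_congr rfl (fun r hr => ?_)
    have hr' : r < m := mem_range.1 hr
    symm
    apply card_bij (fun i _ => m * i + r)
    · intro i hi
      simp only [mem_filter, mem_range] at hi ⊢
      refine ⟨⟨?_, hi.2⟩, ?_⟩
      · have h1 := hi.1
        have h2 : i + 1 ≤ (N + (m - 1 - r)) / m := h1
        rw [Nat.le_div_iff_mul_le hm] at h2
        have h3 : (i + 1) * m = m * i + m := by ring
        omega
      · rw [Nat.mul_add_mod, Nat.mod_eq_of_lt hr']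
    · intro i _ i' _ h
      have : m * i = m * i' := by simpa using h
      exact Nat.eq_of_mul_eq_mul_left hm this
    · intro j hj
      simp only [mem_filter, mem_range] at hj
      obtain ⟨⟨h1, h2⟩, h3⟩ := hj
      have h4 : m * (j / m) + r = j := by rw [← h3]; exact Nat.div_add_mod j m
      refine ⟨j / m, ?_, h4⟩
      simp only [mem_filter, mem_range]
      rw [h4]
      refine ⟨?_, h2⟩
      have : j / m + 1 ≤ (N + (m - 1 - r)) / m := by
        rw [Nat.le_div_iff_mul_le hm]
        have h5 : (j / m + 1) * m = m * (j / m) + m := by ring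
        omega
      exact this
  · intro j _
    simp only [coe_range, Set.mem_Iio]
    exact Nat.mod_lt _ hm

lemma tendsto_div_aux {m c : ℕ} (hm : 0 < m) :
    Tendsto (fun N : ℕ => (((N + c) / m : ℕ) : ℝ) / N) atTop (𝓝 (1 / m)) := by
  have hm' : (0 : ℝ) < m := by exact_mod_cast hm
  have h1 : Tendsto (fun N : ℕ => (1 : ℝ) / m - 1 / N) atTop (𝓝 (1 / m - 0)) :=
    tendsto_const_nhds.sub tendsto_one_div_atTop_nhds_zero_nat
  have h2 : Tendsto (fun N : ℕ => (1 : ℝ) / m + (c / m) * (1 / N)) atTop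
      (𝓝 (1 / m + (c / m) * 0)) :=
    tendsto_const_nhds.add (tendsto_const_nhds.mul tendsto_one_div_atTop_nhds_zero_nat)
  rw [sub_zero] at h1
  rw [mul_zero, add_zero] at h2
  refine tendsto_of_tendsto_of_tendsto_of_le_of_le' h1 h2 ?_ ?_
  · filter_upwards [eventually_gt_atTop 0] with N hN
    have hN' : (0 : ℝ) < N := by exact_mod_cast hN
    have h3 : N + c < ((N + c) / m + 1) * m := by
      have := Nat.lt_div_mul_add (a := N + c) hm
      nlinarith
    have h4 : ((N : ℝ) + c) < ((((N + c) / m : ℕ) : ℝ) + 1) * m := by exact_mod_cast h3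
    rw [le_div_iff₀ hN', sub_mul, one_div_mul_cancel hN'.ne']
    rw [div_mul_eq_mul_div, one_mul, sub_le_iff_le_add, div_le_iff₀ hm']
    have hc : (0 : ℝ) ≤ c := Nat.cast_nonneg _
    linarith
  · filter_upwards [eventually_gt_atTop 0] with N hN
    have hN' : (0 : ℝ) < N := by exact_mod_cast hN
    have h3 : (N + c) / m * m ≤ N + c := Nat.div_mul_le_self _ _
    have h4 : (((N + c) / m : ℕ) : ℝ) * m ≤ N + c := by exact_mod_cast h3
    rw [div_le_iff₀ hN', add_mul, mul_assoc, one_div_mul_cancel hN'.ne', mul_one,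
      div_mul_eq_mul_div, one_mul, ← add_div, le_div_iff₀ hm']
    exact h4

lemma tendsto_div_atTop_aux {m c : ℕ} (hm : 0 < m) :
    Tendsto (fun N : ℕ => (N + c) / m) atTop atTop := by
  rw [tendsto_atTop]
  intro b
  filter_upwards [eventually_ge_atTop (b * m)] with N hN
  rw [Nat.le_div_iff_mul_le hm]
  omega

/-- density from densities along residue classes -/
lemma HasDens.of_mod {p : ℕ → Prop} {m : ℕ} (hm : 0 < m) {a : ℕ → ℝ}
    (h : ∀ r < m, HasDens (fun i => p (m * i + r)) (a r)) :
    HasDens p ((∑ r ∈ range m, a r) / m) := by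
  unfold HasDens
  have h1 : ∀ r ∈ range m, Tendsto (fun N : ℕ =>
      (cnt (fun i => p (m * i + r)) ((N + (m - 1 - r)) / m) : ℝ) / N) atTop (𝓝 (a r * (1 / m))) := by
    intro r hr
    have h2 := (h r (mem_range.1 hr)).comp (tendsto_div_atTop_aux (c := m - 1 - r) hm)
    have h3 := h2.mul (tendsto_div_aux (c := m - 1 - r) hm)
    refine h3.congr' ?_
    filter_upwards [(tendsto_div_atTop_aux (c := m - 1 - r) hm).eventually_gt_atTop 0] with N hN
    simp only [Function.comp]
    have h4 : (((N + (m - 1 - r)) / m : ℕ) : ℝ) ≠ 0 := by exact_mod_cast hN.ne'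
    field_simp
  have h2 := tendsto_finsetSum (range m) h1
  have h3 : (∑ r ∈ range m, a r) / m = ∑ r ∈ range m, a r * (1 / m) := by
    rw [← sum_mul]; ring
  rw [h3]
  refine h2.congr (fun N => ?_)
  rw [cnt_mod p hm N, Nat.cast_sum, sum_div]

lemma HasDens.shift {p : ℕ → Prop} {a : ℝ} (h : HasDens p a) (c : ℕ) :
    HasDens (fun j => p (j + c)) a := by
  unfold HasDens at *
  have h1 : ∀ N, (cnt (fun j => p (j + c)) N : ℝ) = cnt p (N + c) - cnt p c := by
    intro N
    have hsplit : ((range (N + c)).filter p).card =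
        ((range c).filter p).card + ((Ico c (N + c)).filter p).card := by
      rw [← card_union_of_disjoint]
      · congr 1
        ext j
        simp only [mem_filter, mem_union, mem_range, mem_Ico]
        constructor
        · rintro ⟨h1, h2⟩
          rcases lt_or_ge j c with h3 | h3
          · exact Or.inl ⟨h3, h2⟩
          · exact Or.inr ⟨⟨h3, h1⟩, h2⟩
        · rintro (⟨h1, h2⟩ | ⟨⟨h1, h2⟩, h3⟩)
          · exact ⟨by omega, h2⟩
          · exact ⟨h2, h3⟩
      · apply disjoint_filter_filter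
        rw [Finset.disjoint_left]
        intro j h1 h2
        rw [mem_range] at h1
        rw [mem_Ico] at h2
        omega
    have hbij : ((Ico c (N + c)).filter p).card =
        ((range N).filter (fun j => p (j + c))).card := by
      symm
      apply card_bij (fun j _ => j + c)
      · intro j hj
        simp only [mem_filter, mem_Ico, mem_range] at hj ⊢
        exact ⟨⟨by omega, by omega⟩, hj.2⟩
      · intro i _ i' _ h
        omega
      · intro j hj
        simp only [mem_filter, mem_Ico] at hj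
        refine ⟨j - c, ?_, by omega⟩
        simp only [mem_filter, mem_range]
        refine ⟨by omega, ?_⟩
        rw [Nat.sub_add_cancel hj.1.1]
        exact hj.2
    have : cnt p (N + c) = cnt p c + cnt (fun j => p (j + c)) N := by
      unfold cnt
      rw [hsplit, hbij]
    rw [this]; push_cast; ring
  have h2 : Tendsto (fun N : ℕ => (cnt p (N + c) : ℝ) / ((N + c : ℕ) : ℝ)) atTop (𝓝 a) :=
    h.comp (tendsto_add_atTop_nat c)
  have h3 : Tendsto (fun N : ℕ => (((N + c : ℕ) : ℝ)) / N) atTop (𝓝 1) := by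
    have : Tendsto (fun N : ℕ => 1 + (c : ℝ) * (1 / N)) atTop (𝓝 (1 + c * 0)) :=
      tendsto_const_nhds.add (tendsto_const_nhds.mul tendsto_one_div_atTop_nhds_zero_nat)
    rw [mul_zero, add_zero] at this
    refine this.congr' ?_
    filter_upwards [eventually_gt_atTop 0] with N hN
    have hN' : (N : ℝ) ≠ 0 := by exact_mod_cast hN.ne'
    push_cast
    field_simp
  have h4 : Tendsto (fun N : ℕ => (cnt p c : ℝ) * (1 / N)) atTop (𝓝 ((cnt p c : ℝ) * 0)) :=
    tendsto_const_nhds.mul tendsto_one_div_atTop_nhds_zero_nat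
  have h5 := (h2.mul h3).sub h4
  rw [mul_one, mul_zero, sub_zero] at h5
  refine h5.congr' ?_
  filter_upwards [eventually_gt_atTop 0] with N hN
  have hN' : (N : ℝ) ≠ 0 := by exact_mod_cast hN.ne'
  have hN2 : ((N + c : ℕ) : ℝ) ≠ 0 := by positivity
  rw [h1]
  field_simp

/-- density of a predicate depending on a finite-valued sequence -/
lemma HasDens.of_finite {β : Type*} [Fintype β] {f : ℕ → β} {a : β → ℝ}
    (h : ∀ w, HasDens (fun i => f i = w) (a w)) (R : β → Prop) :
    HasDens (fun i => R (f i)) (∑ w, if R w then a w else 0) := by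
  unfold HasDens
  have h1 : ∀ w ∈ (univ : Finset β), Tendsto (fun N : ℕ =>
      if R w then (cnt (fun i => f i = w) N : ℝ) / N else 0) atTop
        (𝓝 (if R w then a w else 0)) := by
    intro w _
    split_ifs
    · exact h w
    · exact tendsto_const_nhds
  refine (tendsto_finsetSum univ h1).congr (fun N => ?_)
  have : cnt (fun i => R (f i)) N = ∑ w, if R w then cnt (fun i => f i = w) N else 0 := by
    unfold cnt
    rw [card_eq_sum_card_fiberwise (f := f) (t := univ) (by intro _ _; simp)]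
    refine sum_congr rfl (fun w _ => ?_)
    split_ifs with hR
    · congr 1
      ext i
      simp only [mem_filter]
      constructor
      · rintro ⟨⟨h1, _⟩, h3⟩; exact ⟨h1, h3⟩
      · rintro ⟨h1, h3⟩; exact ⟨⟨h1, h3 ▸ hR⟩, h3⟩
    · rw [card_eq_zero]
      ext i
      simp only [mem_filter, notMem_empty, iff_false]
      rintro ⟨⟨_, h2⟩, h3⟩
      exact hR (h3 ▸ h2)
  rw [this, Nat.cast_sum, sum_div]
  refine sum_congr rfl (fun w _ => ?_)
  split_ifs <;> simp

lemma HasDens.const_true : HasDens (fun _ => True) 1 := by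
  unfold HasDens
  refine tendsto_const_nhds.congr' ?_
  filter_upwards [eventually_gt_atTop 0] with N hN
  have hN' : (N : ℝ) ≠ 0 := by exact_mod_cast hN.ne'
  simp [cnt, hN']

lemma HasDens.const_false : HasDens (fun _ => False) 0 := by
  unfold HasDens
  simp [cnt]

lemma HasDens.congr {p p' : ℕ → Prop} {a : ℝ} (h : HasDens p a) (hpp : ∀ j, p j ↔ p' j) :
    HasDens p' a := by
  have : p = p' := funext fun j => propext (hpp j)
  rwa [← this]

lemma HasDens.mono {p p' : ℕ → Prop} {a b : ℝ} (h : HasDens p a) (h' : HasDens p' b)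
    (hpp : ∀ j, p j → p' j) : a ≤ b := by
  refine le_of_tendsto_of_tendsto' h h' (fun N => ?_)
  have : (cnt p N : ℝ) ≤ cnt p' N := by exact_mod_cast cnt_mono hpp N
  gcongr

lemma HasDens.unique {p : ℕ → Prop} {a b : ℝ} (h : HasDens p a) (h' : HasDens p b) : a = b :=
  tendsto_nhds_unique h h'

lemma HasDens.nonneg {p : ℕ → Prop} {a : ℝ} (h : HasDens p a) : 0 ≤ a :=
  HasDens.mono HasDens.const_false h (fun _ h => h.elim)

/-- existence of the density from lower and upper approximations -/
lemma exists_hasDens_of_approx {p : ℕ → Prop}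
    (h : ∀ ε > 0, ∃ (p1 p2 : ℕ → Prop) (a b : ℝ), HasDens p1 a ∧ HasDens p2 b ∧
      (∀ j, p1 j → p j) ∧ (∀ j, p j → p2 j) ∧ b - a ≤ ε) : ∃ l, HasDens p l := by
  apply exists_tendsto_of_approx
  intro ε hε
  obtain ⟨p1, p2, a, b, h1, h2, h3, h4, h5⟩ := h (ε / 2) (by positivity)
  refine ⟨a, ?_⟩
  have e1 : ∀ᶠ N : ℕ in atTop, a - ε / 2 < (cnt p1 N : ℝ) / N :=
    (tendsto_order.1 h1).1 _ (by linarith)
  have e2 : ∀ᶠ N : ℕ in atTop, (cnt p2 N : ℝ) / N < b + ε / 2 :=
    (tendsto_order.1 h2).2 _ (by linarith)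
  filter_upwards [e1, e2] with N f1 f2
  have g1 : (cnt p1 N : ℝ) / N ≤ (cnt p N : ℝ) / N := by
    have : (cnt p1 N : ℝ) ≤ cnt p N := by exact_mod_cast cnt_mono h3 N
    gcongr
  have g2 : (cnt p N : ℝ) / N ≤ (cnt p2 N : ℝ) / N := by
    have : (cnt p N : ℝ) ≤ cnt p2 N := by exact_mod_cast cnt_mono h4 N
    gcongr
  rw [abs_le]
  constructor <;> linarith

end Pool.Agent.H.MP_2f0ae6_an
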