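import Pool.Agent.H.MP_2f0ae6_an.Rigid

set_option autoImplicit false

/-!
The dynamical system generated by a bounded basic sequence with block frequencies.
-/

namespace Pool.Agent.H.MP_2f0ae6_an

open Finset Filter Topology MeasureTheory

/-- the subshift of sequences all of whose prefixes have positive frequency -/
def Xset (fr : (l : ℕ) → (Fin l → ℕ) → ℝ) : Set (ℕ → ℕ) :=
  {y | ∀ l, 0 < fr l (fun i : Fin l => y i)}

lemma isClosed_Xset (fr : (l : ℕ) → (Fin l → ℕ) → ℝ) : IsClosed (Xset fr) := by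
  have : Xset fr = ⋂ l, (fun (y : ℕ → ℕ) (i : Fin l) => y i) ⁻¹' {B | 0 < fr l B} := by
    ext y; simp [Xset]
  rw [this]
  refine isClosed_iInter fun l => ?_
  exact (isClosed_discrete _).preimage (continuous_pi fun i => continuous_apply _)

section sys

variable {q : ℕ → ℕ} {A : ℕ} {fr : (l : ℕ) → (Fin l → ℕ) → ℝ}

lemma exists_occ (hfr : ∀ l B, HasDens (At q B) (fr l B)) {l : ℕ} {B : Fin l → ℕ}
    (h : 0 < fr l B) : ∃ j, At q B j := by
  by_contra hc
  push Not at hc
  have : HasDens (At q B) 0 := HasDens.const_false.congr (fun j => by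
    simp only [false_iff]; exact hc j)
  have h2 := (hfr l B).unique this
  linarith

lemma lt_of_mem_Xset (hA : ∀ n, q n < A) (hfr : ∀ l B, HasDens (At q B) (fr l B))
    {y : ℕ → ℕ} (hy : y ∈ Xset fr) (n : ℕ) : y n < A := by
  obtain ⟨j, hj⟩ := exists_occ hfr (hy (n + 1))
  have := hj ⟨n, Nat.lt_succ_self n⟩
  simp only at this
  rw [← this]
  exact hA _

lemma two_le_of_mem_Xset (h2 : ∀ n, 2 ≤ q n) (hfr : ∀ l B, HasDens (At q B) (fr l B))
    {y : ℕ → ℕ} (hy : y ∈ Xset fr) (n : ℕ) : 2 ≤ y n := by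
  obtain ⟨j, hj⟩ := exists_occ hfr (hy (n + 1))
  have := hj ⟨n, Nat.lt_succ_self n⟩
  simp only at this
  rw [← this]
  exact h2 _

lemma isCompact_Xset (hA : ∀ n, q n < A) (hfr : ∀ l B, HasDens (At q B) (fr l B)) :
    IsCompact (Xset fr) := by
  have h1 : IsCompact (Set.pi Set.univ (fun _ : ℕ => Set.Iio A)) :=
    isCompact_univ_pi (fun _ => (Set.finite_Iio A).isCompact)
  refine h1.of_isClosed_subset (isClosed_Xset fr) ?_
  intro y hy n _
  exact lt_of_mem_Xset hA hfr hy n

lemma shift_mem (hfr : ∀ l B, HasDens (At q B) (fr l B)) {y : ℕ → ℕ} (hy : y ∈ Xset fr) :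
    (fun n => y (n + 1)) ∈ Xset fr := by
  intro l
  refine lt_of_lt_of_le (hy (l + 1)) ?_
  refine HasDens.mono (hfr _ _) ((hfr l _).shift 1) ?_
  intro j hj i
  have := hj ⟨i + 1, by have := i.2; omega⟩
  simp only at this
  show q (j + 1 + i) = y (i + 1)
  rw [← this]
  congr 1
  omega

/-- the shift on `Xset` -/
def shiftMap (hfr : ∀ l B, HasDens (At q B) (fr l B)) (y : Xset fr) : Xset fr :=
  ⟨fun n => y.1 (n + 1), shift_mem hfr y.2⟩

lemma shiftMap_iterate (hfr : ∀ l B, HasDens (At q B) (fr l B)) (n : ℕ) (y : Xset fr) (i : ℕ) :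
    ((shiftMap hfr)^[n] y).1 i = y.1 (i + n) := by
  induction n generalizing i with
  | zero => rfl
  | succ n ih =>
    rw [Function.iterate_succ_apply']
    show ((shiftMap hfr)^[n] y).1 (i + 1) = _
    rw [ih]
    exact congrArg y.1 (by omega)

lemma continuous_shiftMap (hfr : ∀ l B, HasDens (At q B) (fr l B)) :
    Continuous (shiftMap hfr) := by
  apply Continuous.subtype_mk
  exact continuous_pi fun n => (continuous_apply (n + 1)).comp continuous_subtype_val

/-- cylinder sets -/
def cylSet (fr : (l : ℕ) → (Fin l → ℕ) → ℝ) {l : ℕ} (B : Fin l → ℕ) : Set (Xset fr) :=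
  {y | ∀ i : Fin l, y.1 i = B i}

lemma isClopen_cylSet {l : ℕ} (B : Fin l → ℕ) : IsClopen (cylSet fr B) := by
  have : cylSet fr B = (fun (y : Xset fr) (i : Fin l) => y.1 i) ⁻¹' {B} := by
    ext y; simp [cylSet, funext_iff]
  rw [this]
  exact (isClopen_discrete _).preimage
    (continuous_pi fun i => (continuous_apply _).comp continuous_subtype_val)

lemma exists_cyl_subset_nhds (y : Xset fr) {U : Set (Xset fr)} (hU : U ∈ 𝓝 y) :
    ∃ l, cylSet fr (fun i : Fin l => y.1 i) ⊆ U := by
  rw [nhds_subtype_eq_comap, Filter.mem_comap] at hU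
  obtain ⟨V, hV, hVU⟩ := hU
  rw [nhds_pi, Filter.mem_pi] at hV
  obtain ⟨I, hI, t, ht, hsub⟩ := hV
  obtain ⟨n, hn⟩ := hI.bddAbove
  refine ⟨n + 1, fun y' hy' => hVU (hsub ?_)⟩
  intro i hi
  have h1 := hy' ⟨i, Nat.lt_succ_of_le (hn hi)⟩
  simp only at h1
  rw [h1]
  exact mem_of_mem_nhds (ht i)

/-- uniform approximation of continuous functions by cylinder functions -/
lemma exists_uniform_cyl (hA : ∀ n, q n < A) (hfr : ∀ l B, HasDens (At q B) (fr l B))
    {F : Xset fr → ℝ} (hF : Continuous F) {ε : ℝ} (hε : 0 < ε) :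
    ∃ l : ℕ, ∀ y y' : Xset fr, (∀ i < l, y.1 i = y'.1 i) → |F y - F y'| ≤ ε := by
  have : CompactSpace (Xset fr) := isCompact_iff_compactSpace.1 (isCompact_Xset hA hfr)
  have h1 : ∀ y : Xset fr, ∃ l : ℕ, ∀ y' ∈ cylSet fr (fun i : Fin l => y.1 i),
      |F y' - F y| < ε / 2 := by
    intro y
    have : {y' | |F y' - F y| < ε / 2} ∈ 𝓝 y := by
      have := Metric.tendsto_nhds.1 (hF.continuousAt (x := y)) (ε / 2) (by positivity)
      simp only [Real.dist_eq] at this
      exact this
    exact exists_cyl_subset_nhds y this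
  choose lf hlf using h1
  obtain ⟨t, ht⟩ := isCompact_univ.elim_nhds_subcover
    (fun y : Xset fr => cylSet fr (fun i : Fin (lf y) => y.1 i))
    (fun y _ => (isClopen_cylSet _).isOpen.mem_nhds (fun i => rfl))
  refine ⟨t.sup lf, fun y y' hyy => ?_⟩
  have hy := ht.2 (Set.mem_univ y)
  simp only [Set.mem_iUnion, exists_prop] at hy
  obtain ⟨y0, hy0, hy1⟩ := hy
  have hle : lf y0 ≤ t.sup lf := Finset.le_sup hy0
  have hy2 : y' ∈ cylSet fr (fun i : Fin (lf y0) => y0.1 i) := by
    intro i
    rw [← hyy i (lt_of_lt_of_le i.2 hle)]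
    exact hy1 i
  have e1 := hlf y0 y hy1
  have e2 := hlf y0 y' hy2
  calc |F y - F y'| = |(F y - F y0) - (F y' - F y0)| := by congr 1; ring
    _ ≤ |F y - F y0| + |F y' - F y0| := abs_sub _ _
    _ ≤ ε := by linarith

variable (hA : ∀ n, q n < A) (h2 : ∀ n, 2 ≤ q n)
    (hfr : ∀ l B, HasDens (At q B) (fr l B))
    (hpos : ∀ l j, 0 < fr l (fun i => q (j + i)))

/-- the generic point -/
def zpt (hpos : ∀ l j, 0 < fr l (fun i => q (j + i))) : Xset fr :=
  ⟨q, fun l => by have := hpos l 0; simpa using this⟩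

include hA in
/-- Birkhoff averages along the generic point converge -/
lemma exists_avg_limit {F : Xset fr → ℝ} (hF : Continuous F) :
    ∃ a, Tendsto (fun N : ℕ => (∑ n ∈ range N, F ((shiftMap hfr)^[n + 1] (zpt hpos))) / N)
      atTop (𝓝 a) := by
  classical
  apply exists_tendsto_of_approx
  intro ε hε
  obtain ⟨l, hl⟩ := exists_uniform_cyl hA hfr hF (ε := ε / 2) (by positivity)
  let rep : (Fin l → Fin A) → Xset fr := fun w =>
    if h : ∃ y : Xset fr, ∀ i : Fin l, y.1 i = w i then h.choose else zpt hpos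
  have h3 := tendsto_avg_of_finite (f := fun j => blk q hA l (j + 1))
    (fun w => (hasDens_blk hA hfr w).shift 1) (fun w => F (rep w))
  refine ⟨∑ w : Fin l → Fin A, F (rep w) * fr l (fun i => (w i : ℕ)), ?_⟩
  filter_upwards [(Metric.tendsto_nhds.1 h3) (ε / 2) (by positivity), eventually_gt_atTop 0]
    with N hN hN0
  have hN0' : (0 : ℝ) < N := by exact_mod_cast hN0
  have hpt : ∀ n ∈ range N, |F ((shiftMap hfr)^[n + 1] (zpt hpos)) -
      F (rep (blk q hA l (n + 1)))| ≤ ε / 2 := by
    intro n _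
    apply hl
    intro i hi
    have hex : ∃ y : Xset fr, ∀ i : Fin l, y.1 i = blk q hA l (n + 1) i := by
      refine ⟨(shiftMap hfr)^[n + 1] (zpt hpos), fun i => ?_⟩
      rw [shiftMap_iterate]
      show q (i + (n + 1)) = q (n + 1 + i)
      congr 1
      omega
    simp only [rep]
    rw [dif_pos hex, hex.choose_spec ⟨i, hi⟩, shiftMap_iterate]
    show q (i + (n + 1)) = q (n + 1 + i)
    congr 1
    omega
  rw [Real.dist_eq] at hN
  have h4 : |(∑ n ∈ range N, F ((shiftMap hfr)^[n + 1] (zpt hpos))) / N -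
      (∑ n ∈ range N, F (rep (blk q hA l (n + 1)))) / N| ≤ ε / 2 := by
    rw [← sub_div, ← sum_sub_distrib, abs_div, abs_of_pos hN0', div_le_iff₀ hN0']
    refine (abs_sum_le_sum_abs _ _).trans ((sum_le_sum hpt).trans ?_)
    rw [sum_const, card_range, nsmul_eq_mul, mul_comm]
  calc _ = |((∑ n ∈ range N, F ((shiftMap hfr)^[n + 1] (zpt hpos))) / N -
      (∑ n ∈ range N, F (rep (blk q hA l (n + 1)))) / N) +
      ((∑ n ∈ range N, F (rep (blk q hA l (n + 1)))) / N -
        ∑ w : Fin l → Fin A, F (rep w) * fr l (fun i => (w i : ℕ)))| := by congr 1; ring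
    _ ≤ _ := abs_add_le _ _
    _ ≤ ε / 2 + ε / 2 := add_le_add h4 hN.le
    _ = ε := by ring

/-- empirical measures -/
noncomputable def emp (N : ℕ) : Measure (Xset fr) :=
  ((N + 1 : ℕ) : ENNReal)⁻¹ •
    ∑ n ∈ range (N + 1), Measure.dirac ((shiftMap hfr)^[n + 1] (zpt hpos))

instance isProb_emp (N : ℕ) : IsProbabilityMeasure (emp hfr hpos N) := by
  constructor
  unfold emp
  rw [Measure.smul_apply, Measure.finsetSum_apply]
  simp only [measure_univ, sum_const, card_range, smul_eq_mul, nsmul_eq_mul, mul_one]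
  apply ENNReal.inv_mul_cancel
  · exact_mod_cast Nat.succ_ne_zero N
  · exact ENNReal.natCast_ne_top _

lemma integral_emp (N : ℕ) (F : Xset fr → ℝ) :
    ∫ y, F y ∂(emp hfr hpos N) =
      (∑ n ∈ range (N + 1), F ((shiftMap hfr)^[n + 1] (zpt hpos))) / ((N + 1 : ℕ) : ℝ) := by
  unfold emp
  rw [integral_smul_measure, integral_finsetSum_measure]
  · simp only [integral_dirac]
    rw [ENNReal.toReal_inv, ENNReal.toReal_natCast, smul_eq_mul, inv_mul_eq_div]
  · intro n _
    exact integrable_dirac enorm_lt_top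

include hA in
/-- existence of the measure for which the point is generic -/
lemma exists_generic_measure : ∃ μ : ProbabilityMeasure (Xset fr), ∀ F : Xset fr → ℝ, Continuous F →
    Tendsto (fun N : ℕ => (∑ n ∈ range N, F ((shiftMap hfr)^[n + 1] (zpt hpos))) / N)
      atTop (𝓝 (∫ y, F y ∂(μ : Measure (Xset fr)))) := by
  have hcomp : CompactSpace (Xset fr) := isCompact_iff_compactSpace.1 (isCompact_Xset hA hfr)
  let m : ℕ → ProbabilityMeasure (Xset fr) := fun N => ⟨emp hfr hpos N, isProb_emp hfr hpos N⟩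
  obtain ⟨μ, -, hμ⟩ := (isCompact_univ (X := ProbabilityMeasure (Xset fr))).ultrafilter_le_nhds
    ((hyperfilter ℕ).map m) (by simp)
  refine ⟨μ, fun F hF => ?_⟩
  obtain ⟨a, ha⟩ := exists_avg_limit hA hfr hpos hF
  have h1 : Tendsto m (hyperfilter ℕ : Filter ℕ) (𝓝 μ) := hμ
  have h3 := (ProbabilityMeasure.tendsto_iff_forall_integral_tendsto.1 h1)
    (BoundedContinuousFunction.mkOfCompact ⟨F, hF⟩)
  have h4 : Tendsto (fun N : ℕ => ∫ y, F y ∂(emp hfr hpos N)) (hyperfilter ℕ : Filter ℕ)
      (𝓝 (∫ y, F y ∂(μ : Measure (Xset fr)))) := h3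
  have h5 : Tendsto (fun N : ℕ => ∫ y, F y ∂(emp hfr hpos N)) atTop (𝓝 a) := by
    simp only [integral_emp hfr hpos _ F]
    exact ha.comp (tendsto_add_atTop_nat 1)
  have h6 : (hyperfilter ℕ : Filter ℕ) ≤ atTop := by
    rw [← Nat.cofinite_eq_atTop]; exact hyperfilter_le_cofinite
  have h7 := tendsto_nhds_unique h4 (h5.mono_left h6)
  rw [h7]
  exact ha

/-- the measure -/
noncomputable def genMeasure : Measure (Xset fr) := (exists_generic_measure hA hfr hpos).choose

instance isProb_genMeasure : IsProbabilityMeasure (genMeasure hA hfr hpos) := by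
  unfold genMeasure; infer_instance

lemma genMeasure_spec (F : Xset fr → ℝ) (hF : Continuous F) :
    Tendsto (fun N : ℕ => (∑ n ∈ range N, F ((shiftMap hfr)^[n + 1] (zpt hpos))) / N)
      atTop (𝓝 (∫ y, F y ∂(genMeasure hA hfr hpos))) :=
  (exists_generic_measure hA hfr hpos).choose_spec F hF

lemma genMeasure_cyl {l : ℕ} (B : Fin l → ℕ) :
    (genMeasure hA hfr hpos).real (cylSet fr B) = fr l B := by
  classical
  have hcont : Continuous ((cylSet fr B).indicator (fun _ => (1 : ℝ))) :=
    (isClopen_cylSet B).continuous_indicator continuous_const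
  have h1 := genMeasure_spec hA hfr hpos _ hcont
  have h3 : ∫ y, (cylSet fr B).indicator (fun _ => (1 : ℝ)) y ∂(genMeasure hA hfr hpos) =
      (genMeasure hA hfr hpos).real (cylSet fr B) := by
    rw [integral_indicator_const _ (isClopen_cylSet B).isOpen.measurableSet, smul_eq_mul, mul_one]
  rw [h3] at h1
  have h5 : Tendsto (fun N : ℕ => (cnt (fun j => At q B (j + 1)) N : ℝ) / N) atTop
      (𝓝 (fr l B)) := (hfr l B).shift 1
  refine tendsto_nhds_unique h1 (h5.congr (fun N => ?_))
  congr 1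
  simp only [Set.indicator_apply]
  rw [← sum_filter, sum_const, nsmul_eq_mul, mul_one]
  unfold cnt
  congr 2
  ext n
  simp only [mem_filter, and_congr_right_iff]
  intro _
  unfold At cylSet
  simp only [Set.mem_ofPred_eq, shiftMap_iterate]
  refine forall_congr' (fun i => ?_)
  show q (n + 1 + i) = B i ↔ q (i + (n + 1)) = B i
  rw [show (i : ℕ) + (n + 1) = n + 1 + i by omega]

lemma measurePreserving_shift :
    MeasurePreserving (shiftMap hfr) (genMeasure hA hfr hpos) (genMeasure hA hfr hpos) := by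
  have hcomp : CompactSpace (Xset fr) := isCompact_iff_compactSpace.1 (isCompact_Xset hA hfr)
  have hTc := continuous_shiftMap hfr
  refine ⟨hTc.measurable, ?_⟩
  have : IsProbabilityMeasure ((genMeasure hA hfr hpos).map (shiftMap hfr)) :=
    Measure.isProbabilityMeasure_map hTc.measurable.aemeasurable
  apply ext_of_forall_integral_eq_of_IsFiniteMeasure
  intro f
  rw [integral_map hTc.measurable.aemeasurable f.continuous.aestronglyMeasurable]
  have h1 := genMeasure_spec hA hfr hpos (fun y => f (shiftMap hfr y)) (f.continuous.comp hTc)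
  have h3 := genMeasure_spec hA hfr hpos f f.continuous
  have h4 : Tendsto (fun N : ℕ => (f ((shiftMap hfr)^[N + 1] (zpt hpos)) -
      f ((shiftMap hfr)^[1] (zpt hpos))) / N) atTop (𝓝 0) := by
    apply squeeze_zero_norm (a := fun N : ℕ => (2 * ‖f‖) / N)
    · intro N
      rw [norm_div, Real.norm_natCast]
      gcongr
      calc ‖f ((shiftMap hfr)^[N + 1] (zpt hpos)) - f ((shiftMap hfr)^[1] (zpt hpos))‖
          ≤ ‖f ((shiftMap hfr)^[N + 1] (zpt hpos))‖ + ‖f ((shiftMap hfr)^[1] (zpt hpos))‖ :=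
            norm_sub_le _ _
        _ ≤ ‖f‖ + ‖f‖ := add_le_add (f.norm_coe_le_norm _) (f.norm_coe_le_norm _)
        _ = 2 * ‖f‖ := by ring
    · exact tendsto_const_div_atTop_nhds_zero_nat _
  have h5 := h3.add h4
  rw [add_zero] at h5
  refine tendsto_nhds_unique h1 (h5.congr (fun N => ?_))
  rw [← add_div]
  congr 1
  have h6 : ∀ n, shiftMap hfr ((shiftMap hfr)^[n + 1] (zpt hpos)) =
      (shiftMap hfr)^[n + 1 + 1] (zpt hpos) :=
    fun n => (Function.iterate_succ_apply' _ _ _).symm
  simp only [h6]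
  have h7 := Finset.sum_range_succ' (fun n => f ((shiftMap hfr)^[n + 1] (zpt hpos))) N
  have h8 := Finset.sum_range_succ (fun n => f ((shiftMap hfr)^[n + 1] (zpt hpos))) N
  simp only [zero_add] at h7
  linarith

lemma open_pos {U : Set (Xset fr)} (hU : IsOpen U) (hne : U.Nonempty) :
    0 < genMeasure hA hfr hpos U := by
  obtain ⟨y, hy⟩ := hne
  obtain ⟨l, hl⟩ := exists_cyl_subset_nhds y (hU.mem_nhds hy)
  have h1 := genMeasure_cyl hA hfr hpos (fun i : Fin l => y.1 i)
  have h3 : 0 < fr l (fun i : Fin l => y.1 i) := y.2 l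
  rw [← h1] at h3
  have h4 : 0 < genMeasure hA hfr hpos (cylSet fr (fun i : Fin l => y.1 i)) := by
    rw [Measure.real] at h3
    exact (ENNReal.toReal_pos_iff.1 h3).1
  exact h4.trans_le (measure_mono hl)

lemma generating_top (hfr : ∀ l B, HasDens (At q B) (fr l B)) :
    (inferInstance : TopologicalSpace (Xset fr)) =
    TopologicalSpace.generateFrom
      {U | ∃ n m : ℕ, U = {y : Xset fr | ((shiftMap hfr)^[n] y).1 0 = m}} := by
  apply le_antisymm
  · apply le_generateFrom
    rintro U ⟨n, m, rfl⟩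
    have : {y : Xset fr | ((shiftMap hfr)^[n] y).1 0 = m} =
        (fun y : Xset fr => y.1 n) ⁻¹' {m} := by
      ext y
      simp [shiftMap_iterate]
    rw [this]
    exact (isOpen_discrete _).preimage ((continuous_apply n).comp continuous_subtype_val)
  · have hnb : ∀ U : Set (Xset fr), IsOpen U → ∀ y ∈ U, ∃ l, cylSet fr (fun i : Fin l => y.1 i) ⊆ U :=
      fun U hU y hy => exists_cyl_subset_nhds y (hU.mem_nhds hy)
    set t' := TopologicalSpace.generateFrom
      {U | ∃ n m : ℕ, U = {y : Xset fr | ((shiftMap hfr)^[n] y).1 0 = m}} with ht'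
    have h1 : ∀ n m : ℕ, @IsOpen _ t' {y : Xset fr | y.1 n = m} := by
      intro n m
      apply TopologicalSpace.isOpen_generateFrom_of_mem
      refine ⟨n, m, ?_⟩
      ext y
      simp [shiftMap_iterate]
    have h3 : ∀ (l : ℕ) (B : Fin l → ℕ), @IsOpen _ t' (cylSet fr B) := by
      intro l B
      have : cylSet fr B = ⋂ i : Fin l, {y : Xset fr | y.1 i = B i} := by
        ext y; simp [cylSet]
      rw [this]
      exact @isOpen_iInter_of_finite _ _ t' _ _ (fun i => h1 i (B i))
    intro U hU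
    refine (@isOpen_iff_forall_mem_open _ t' U).2 (fun y hy => ?_)
    obtain ⟨l, hl⟩ := hnb U hU y hy
    exact ⟨_, hl, h3 l _, fun i => rfl⟩

/-! ### Entropy -/

/-- the partition according to the first coordinate -/
def firstCoord (y : Xset fr) : Fin A := ⟨y.1 0, lt_of_mem_Xset hA hfr y.2 0⟩

lemma partEntropy_ge {n : ℕ} {c : ℝ} (hc : ∀ B : Fin n → ℕ, fr n B ≤ Real.exp (-c)) :
    c ≤ partEntropy (genMeasure hA hfr hpos) (shiftMap hfr) (firstCoord hA hfr) n := by
  unfold partEntropy
  have h1 : ∀ w : Fin n → Fin A, {y : Xset fr | ∀ i : Fin n,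
      firstCoord hA hfr ((shiftMap hfr)^[i] y) = w i} = cylSet fr (fun i => (w i : ℕ)) := by
    intro w
    ext y
    simp only [cylSet, firstCoord, Set.mem_ofPred_eq, Fin.ext_iff, shiftMap_iterate, zero_add]
  simp only [h1, genMeasure_cyl]
  calc c = ∑ w : Fin n → Fin A, fr n (fun i => (w i : ℕ)) * c := by
        rw [← sum_mul, sum_fr hA hfr n, one_mul]
    _ ≤ _ := by
        refine sum_le_sum (fun w _ => ?_)
        have h0 : 0 ≤ fr n (fun i => (w i : ℕ)) := (hfr _ _).nonneg
        rcases h0.eq_or_lt with h | h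
        · rw [← h]; simp
        · have h3 : Real.log (fr n (fun i => (w i : ℕ))) ≤ -c := by
            rw [Real.log_le_iff_le_exp h]; exact hc _
          unfold Real.negMulLog
          nlinarith

lemma ksEntropy_pos {c : ℝ} (hc : 0 < c)
    (hent : ∃ᶠ n : ℕ in atTop, ∀ B : Fin n → ℕ, fr n B ≤ Real.exp (-(c * n))) :
    0 < ksEntropy (genMeasure hA hfr hpos) (shiftMap hfr) := by
  have hmeas : Measurable (firstCoord hA hfr) := by
    apply measurable_to_countable'
    intro a
    have : firstCoord hA hfr ⁻¹' {a} = (fun y : Xset fr => y.1 0) ⁻¹' {(a : ℕ)} := by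
      ext y
      simp [firstCoord, Fin.ext_iff]
    rw [this]
    exact ((continuous_apply 0).comp continuous_subtype_val).measurable
      (measurableSet_singleton _)
  unfold ksEntropy
  have h1 : ENNReal.ofReal c ≤ limsup (fun n : ℕ => ENNReal.ofReal
      (partEntropy (genMeasure hA hfr hpos) (shiftMap hfr) (firstCoord hA hfr) n / n)) atTop := by
    refine le_limsup_of_frequently_le ?_ (by isBoundedDefault)
    · refine (hent.and_eventually (eventually_gt_atTop 0)).mono ?_
      rintro n ⟨hn, hn0⟩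
      have hn0' : (0 : ℝ) < n := by exact_mod_cast hn0
      apply ENNReal.ofReal_le_ofReal
      rw [le_div_iff₀ hn0']
      exact partEntropy_ge hA hfr hpos hn
  refine lt_of_lt_of_le (ENNReal.ofReal_pos.2 hc) (h1.trans ?_)
  exact le_iSup_of_le A (le_iSup_of_le (firstCoord hA hfr) (le_iSup_of_le hmeas le_rfl))

include h2 in
/-- the system generates `q` -/
theorem generates : Generates (genMeasure hA hfr hpos) (shiftMap hfr) (fun y => y.1 0)
    (zpt hpos) q where
  continuous_T := continuous_shiftMap hfr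
  measurePreserving := measurePreserving_shift hA hfr hpos
  continuous_f := (continuous_apply 0).comp continuous_subtype_val
  two_le := fun y => two_le_of_mem_Xset h2 hfr y.2 0
  open_pos := fun U hU hne => open_pos hA hfr hpos hU hne
  generating := generating_top hfr
  generic := fun F hF _ => by
    have := genMeasure_spec hA hfr hpos F hF
    refine this.congr (fun N => ?_)
    rw [sum_Icc_eq_sum_range (fun n => F ((shiftMap hfr)^[n] (zpt hpos)))]
  eq := fun n _ => by
    rw [shiftMap_iterate]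
    show q n = q (0 + n)
    rw [zero_add]

include hA h2 hfr in
/-- a bounded sequence with positive block frequencies and exponential decay of block frequencies
is a non-deterministic dynamically generated sequence -/
theorem nonDet (hpos : ∀ l j, 0 < fr l (fun i => q (j + i))) {c : ℝ} (hc : 0 < c)
    (hent : ∃ᶠ n : ℕ in atTop, ∀ B : Fin n → ℕ, fr n B ≤ Real.exp (-(c * n))) :
    NonDetDynGenerated q := by
  have hpol : PolishSpace (Xset fr) := (isClosed_Xset fr).polishSpace
  let _ := TopologicalSpace.upgradeIsCompletelyMetrizable (Xset fr)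
  exact ⟨Xset fr, inferInstance, inferInstance, inferInstance, inferInstance, inferInstance,
    genMeasure hA hfr hpos, inferInstance, shiftMap hfr, fun y => y.1 0, zpt hpos,
    generates hA h2 hfr hpos, ksEntropy_pos hA hfr hpos hc hent⟩

end sys

end Pool.Agent.H.MP_2f0ae6_an
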