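import Pool.Agent.H.MP_2f0ae6_an.Decode

set_option autoImplicit false

/-!
The decoding property in the form used in the rigidity argument.
-/

namespace Pool.Agent.H.MP_2f0ae6_an

open Finset Filter Topology MeasureTheory

/-- the weight of the digit block `D` at position `j` -/
noncomputable def tau (q : ℕ → ℕ) {W : ℕ} (D : Fin W → ℕ) (j : ℕ) : ℝ :=
  if ∀ i : Fin W, D i < q (j + i) then (∏ i : Fin W, (q (j + i) : ℝ))⁻¹ else 0

/-- The digit window `D` reveals that the `q`-block at distance `a` from its start is `B`. -/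
def Rev (q : ℕ → ℕ) {W l : ℕ} (a : ℕ) (D : Fin W → ℕ) (B : Fin l → ℕ) : Prop :=
  ∀ j, 1 ≤ j → (∀ i : Fin W, D i < q (j + i)) → ∀ i : Fin l, q (j + a + i) = B i

open Classical in
/-- windows with digits below `A` whose block at distance `a` is `D` and which reveal `B` -/
noncomputable def goodWin (q : ℕ → ℕ) (A W a : ℕ) {l : ℕ} (D B : Fin l → ℕ) : Finset (Fin W → ℕ) :=
  (Fintype.piFinset (fun _ : Fin W => range A)).filter
    (fun D' => (∀ (i : Fin l) (h : a + i < W), D' ⟨a + i, h⟩ = D i) ∧ Rev q a D' B)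

/-- the decoding property of a basic sequence with values below `A` -/
def Decodable (q : ℕ → ℕ) (A : ℕ) : Prop :=
  ∀ (l : ℕ) (η : ℝ), 0 < η → ∃ (W a : ℕ) (bad : ℕ → Prop) (β : ℝ), a + l ≤ W ∧
    HasDens bad β ∧ β ≤ η ∧ ∀ j, 1 ≤ j → ¬ bad j → ∀ D : Fin l → ℕ,
      (∀ i : Fin l, D i < q (j + a + i)) →
      (∏ i : Fin l, (q (j + a + i) : ℝ))⁻¹ - η ≤
        ∑ D' ∈ goodWin q A W a D (fun i : Fin l => q (j + a + i)), tau q D' j

/-- the basic sequence attached to the codeword `u` -/
noncomputable def qseq (u : ℕ → ZMod 2) (n : ℕ) : ℕ := gseq u (n + 5)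

lemma toReal_cyl {b : ℕ → ℕ} (hb : ∀ n, 0 < b n) {W : ℕ} (J : ℕ) (D : Fin W → ℕ) :
    (digMeasure b {x | ∀ i : Fin W, x (J + i) = D i}).toReal = tau b D J := by
  rw [digMeasure_block hb, tau]
  split_ifs
  · rw [ENNReal.toReal_inv, ENNReal.toReal_prod]
    simp
  · simp

lemma digMeasure_ge {b : ℕ → ℕ} (hb : ∀ n, 0 < b n) (n A : ℕ) (hA : b n ≤ A) :
    digMeasure b {x | A ≤ x n} = 0 := by
  have h := digMeasure_cyl hb {n} (fun _ => {y | A ≤ y})
  simp only [mem_singleton, forall_eq, prod_singleton, Set.mem_ofPred_eq] at h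
  rw [h, ProbabilityTheory.uniformOn_eq_zero_iff (Finset.finite_toSet _)]
  ext y
  simp only [coe_range, Set.mem_inter_iff, Set.mem_Iio, Set.mem_ofPred_eq, Set.mem_empty_iff_false,
    iff_false, not_and, not_le]
  omega

lemma tau_qseq (u : ℕ → ZMod 2) {W : ℕ} (D : Fin W → ℕ) (j : ℕ) :
    tau (qseq u) D j = tau (gseq u) D (j + 5) := by
  have h : ∀ i : Fin W, qseq u (j + i) = gseq u (j + 5 + i) := fun i => by
    unfold qseq; congr 1; omega
  unfold tau
  simp only [h]

lemma rev_of_revG {u : ℕ → ZMod 2} {W l a : ℕ} {D : Fin W → ℕ} {B : Fin l → ℕ}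
    (h : RevG u a D B) : Rev (qseq u) a D B := by
  intro j hj hD i
  have h1 : ∀ i : Fin W, D i < gseq u (j + 5 + i) := fun i => by
    have := hD i
    unfold qseq at this
    rwa [show j + 5 + (i : ℕ) = j + i + 5 by omega]
  have := h (j + 5) (by omega) h1 i
  unfold qseq
  rwa [show j + a + (i : ℕ) + 5 = j + 5 + a + i by omega]

lemma err_bound (K : ℕ) :
    (K : ENNReal) * ((2⁻¹ : ENNReal) ^ 6) ^ (M K - 1) + (2⁻¹ : ENNReal) ^ (2 * K + 6) ≤
      2 * (2⁻¹ : ENNReal) ^ K := by
  have h1 : (K : ENNReal) ≤ 2 ^ K := by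
    exact_mod_cast Nat.lt_two_pow_self.le
  have h2 : ((2⁻¹ : ENNReal) ^ 6) ^ (M K - 1) ≤ (2⁻¹ : ENNReal) ^ (2 * K) := by
    rw [← pow_mul]
    apply pow_le_pow_right_of_le_one' (by simp)
    have : K < 2 ^ K := Nat.lt_two_pow_self
    have h3 : M K = 4 * 2 ^ K := by unfold M; rw [pow_add]; ring
    omega
  have h3 : (2⁻¹ : ENNReal) ^ (2 * K + 6) ≤ (2⁻¹ : ENNReal) ^ K :=
    pow_le_pow_right_of_le_one' (by simp) (by omega)
  calc (K : ENNReal) * ((2⁻¹ : ENNReal) ^ 6) ^ (M K - 1) + (2⁻¹ : ENNReal) ^ (2 * K + 6)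
      ≤ 2 ^ K * (2⁻¹ : ENNReal) ^ (2 * K) + (2⁻¹ : ENNReal) ^ K := by gcongr
    _ = (2 * 2⁻¹) ^ K * (2⁻¹ : ENNReal) ^ K + (2⁻¹ : ENNReal) ^ K := by
        rw [mul_pow, two_mul K, pow_add]; ring
    _ = 2 * (2⁻¹ : ENNReal) ^ K := by
        rw [ENNReal.mul_inv_cancel (by simp) (by simp), one_pow]; ring

/-- the sequence `qseq u` attached to a codeword is decodable -/
theorem decodable_qseq {u : ℕ → ZMod 2} (hu : ∀ t, ParityAt t u) : Decodable (qseq u) 65537 := by
  classical
  intro l η hη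
  -- choice of the level
  obtain ⟨K, hK1, hK2, hK3⟩ : ∃ K : ℕ, 1 ≤ K ∧ (5 + l : ℝ) / (5 * L K : ℕ) ≤ η ∧
      2 * (2⁻¹ : ℝ) ^ K ≤ η := by
    have h1 : Tendsto (fun K : ℕ => 2 * (2⁻¹ : ℝ) ^ K) atTop (𝓝 (2 * 0)) :=
      (tendsto_pow_atTop_nhds_zero_of_lt_one (by norm_num) (by norm_num)).const_mul 2
    rw [mul_zero] at h1
    have h2 : Tendsto (fun K : ℕ => (5 + l : ℝ) / (5 * L K : ℕ)) atTop (𝓝 0) := by
      apply Tendsto.const_div_atTop
      apply tendsto_natCast_atTop_atTop.comp
      exact tendsto_atTop_mono (fun K => by have := lt_L K; omega : ∀ K, K ≤ 5 * L K) tendsto_id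
    have e1 := (tendsto_order.1 h1).2 η hη
    have e2 := (tendsto_order.1 h2).2 η hη
    obtain ⟨K, h3, h4, h5⟩ := ((eventually_ge_atTop 1).and (e2.and e1)).exists
    exact ⟨K, h3, h4.le, h5.le⟩
  have hLK := L_pos K
  by_cases hl : l ≤ 5 * L K
  swap
  · -- trivial case: everything is bad, but then the density bound forces `1 ≤ η`
    have h1 : (1 : ℝ) ≤ η := by
      refine le_trans ?_ hK2
      have hpos : (0 : ℝ) < ((5 * L K : ℕ) : ℝ) := by exact_mod_cast (by omega : 0 < 5 * L K)
      rw [le_div_iff₀ hpos, one_mul]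
      have : 5 * L K ≤ 5 + l := by omega
      exact_mod_cast this
    exact ⟨l, 0, fun _ => True, 1, by omega, HasDens.const_true, h1, fun j _ h => absurd trivial h⟩
  refine ⟨5 * L K + 10 * L (K + 1), 5 * L K, fun j => ¬ GoodRes K l ((j + 5) % (5 * L K)),
    (∑ r ∈ range (5 * L K), if GoodRes K l r then 0 else 1) / (5 * L K : ℕ), ?_, ?_, ?_, ?_⟩
  · have hLK1 := L_lt_succ K
    omega
  · have h1 : HasDens (fun j => ¬ GoodRes K l (j % (5 * L K)))
        ((∑ r ∈ range (5 * L K), if GoodRes K l r then 0 else 1) / (5 * L K : ℕ)) := by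
      apply HasDens.of_mod (by omega)
      intro r hr
      have e : ∀ i, (5 * L K * i + r) % (5 * L K) = r := fun i => by
        rw [Nat.mul_add_mod, Nat.mod_eq_of_lt hr]
      by_cases hg : GoodRes K l r
      · simp only [e, hg, not_true, if_true]
        exact HasDens.const_false
      · simp only [e, hg, not_false_iff, if_false]
        exact HasDens.const_true
    exact h1.shift 5
  · refine le_trans ?_ hK2
    have e : ∀ r ∈ range (5 * L K), (if GoodRes K l r then (0 : ℝ) else 1) =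
        if ¬ GoodRes K l r then (1 : ℝ) else 0 := by
      intro r _
      by_cases hg : GoodRes K l r <;> simp [hg]
    rw [sum_congr rfl e, ← sum_filter, sum_const, nsmul_eq_mul, mul_one]
    have := card_bad K l
    gcongr
  · intro j hj hbad D hD
    rw [not_not] at hbad
    have hP := isProb_digMeasure (gpos u)
    have hrev := prob_not_reveal hu hK1 (J := j + 5) (by omega) hbad
    have hrev' := hrev.trans (err_bound K)
    set W := 5 * L K + 10 * L (K + 1) with hW
    set a := 5 * L K with ha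
    set B : Fin l → ℕ := fun i : Fin l => qseq u (j + a + i) with hB
    have hWa : a + l ≤ W := by
      have hLK1 := L_lt_succ K
      omega
    -- the inclusion of events
    have hincl : {x : ℕ → ℕ | ∀ i : Fin l, x (j + 5 + a + i) = D i} ⊆
        ((⋃ D' ∈ goodWin (qseq u) 65537 W a D B, {x | ∀ i : Fin W, x (j + 5 + i) = D' i}) ∪
        {x | ¬ RevG u a (fun i : Fin W => x (j + 5 + i))
          (fun i : Fin l => gseq u (j + 5 + a + i))}) ∪
        ⋃ i ∈ (univ : Finset (Fin W)), {x | 65537 ≤ x (j + 5 + i)} := by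
      intro x hx
      by_cases h1 : ∃ i : Fin W, 65537 ≤ x (j + 5 + i)
      · right
        obtain ⟨i, hi⟩ := h1
        simp only [Set.mem_iUnion]
        exact ⟨i, mem_univ i, hi⟩
      left
      by_cases h2 : RevG u a (fun i : Fin W => x (j + 5 + i))
          (fun i : Fin l => gseq u (j + 5 + a + i))
      · left
        simp only [Set.mem_iUnion]
        refine ⟨fun i : Fin W => x (j + 5 + i), ?_, fun i => rfl⟩
        unfold goodWin
        rw [mem_filter, Fintype.mem_piFinset]
        refine ⟨?_, ?_, ?_⟩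
        · intro i
          rw [mem_range]
          push Not at h1
          exact h1 i
        · intro i hi
          have := hx i
          simp only
          rw [← add_assoc]
          exact this
        · have h3 := rev_of_revG h2
          have h4 : (fun i : Fin l => gseq u (j + 5 + a + i)) = B := by
            funext i
            simp only [hB, qseq]
            congr 1
            omega
          rwa [h4] at h3
      · right
        exact h2
    have hzero : digMeasure (gseq u) (⋃ i ∈ (univ : Finset (Fin W)),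
        {x | 65537 ≤ x (j + 5 + i)}) = 0 := by
      refine le_antisymm ((measure_biUnion_finset_le _ _).trans ?_) bot_le
      rw [sum_eq_zero]
      intro i _
      exact digMeasure_ge (gpos u) _ _ (by have := gseq_le u (j + 5 + i); omega)
    have hmeas := (measure_mono (μ := digMeasure (gseq u)) hincl).trans (measure_union_le _ _)
    rw [hzero, add_zero] at hmeas
    have hmeas2 := hmeas.trans (measure_union_le _ _)
    have hmeas3 : digMeasure (gseq u) {x : ℕ → ℕ | ∀ i : Fin l, x (j + 5 + a + i) = D i} ≤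
        ∑ D' ∈ goodWin (qseq u) 65537 W a D B,
          digMeasure (gseq u) {x | ∀ i : Fin W, x (j + 5 + i) = D' i} + 2 * (2⁻¹ : ENNReal) ^ K := by
      refine hmeas2.trans (add_le_add (measure_biUnion_finset_le _ _) ?_)
      exact hrev'
    -- pass to real numbers
    have hfin1 : ∀ s : Set (ℕ → ℕ), digMeasure (gseq u) s ≠ ⊤ := fun s => measure_ne_top _ _
    have hr1 := ENNReal.toReal_mono (by
      refine ENNReal.add_ne_top.2 ⟨?_, ?_⟩
      · exact ENNReal.sum_ne_top.2 (fun D' _ => hfin1 _)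
      · exact ENNReal.mul_ne_top (by simp) (ENNReal.pow_ne_top (by simp))) hmeas3
    rw [ENNReal.toReal_add (ENNReal.sum_ne_top.2 (fun D' _ => hfin1 _))
      (ENNReal.mul_ne_top (by simp) (ENNReal.pow_ne_top (by simp))),
      ENNReal.toReal_sum (fun D' _ => hfin1 _), toReal_cyl (gpos u)] at hr1
    rw [sum_congr rfl (fun D' _ => toReal_cyl (gpos u) (j + 5) D')] at hr1
    have hr2 : (2 * (2⁻¹ : ENNReal) ^ K).toReal = 2 * (2⁻¹ : ℝ) ^ K := by
      rw [ENNReal.toReal_mul, ENNReal.toReal_pow, ENNReal.toReal_inv]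
      simp
    rw [hr2] at hr1
    rw [sum_congr rfl (fun D' _ => (tau_qseq u D' j).symm)] at hr1
    have hr3 : tau (gseq u) D (j + 5 + a) = (∏ i : Fin l, (qseq u (j + a + i) : ℝ))⁻¹ := by
      have h5 : ∀ i : Fin l, gseq u (j + 5 + a + i) = qseq u (j + a + i) := fun i => by
        unfold qseq; congr 1; omega
      unfold tau
      simp only [h5]
      rw [if_pos hD]
    rw [hr3] at hr1
    linarith

end Pool.Agent.H.MP_2f0ae6_an
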