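import Pool.Agent.H.MP_2f0ae6_an.Dyn
import Pool.Agent.H.MP_2f0ae6_an.Conclude

set_option autoImplicit false

/-!
The main theorem: a non-deterministic dynamically generated basic sequence `q` such that every
`q`-normal number is uniformly `q`-normal and `q`-distribution normal.
-/

namespace Pool.Agent.H.MP_2f0ae6_an

open Finset Filter Topology MeasureTheory

lemma at_qseq_iff (u : ℕ → ZMod 2) {l : ℕ} (B : Fin l → ℕ) (j : ℕ) :
    At (qseq u) B j ↔ At (gseq u) B (j + 5) := by
  unfold At qseq
  refine forall_congr' (fun i => ?_)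
  rw [show j + (i : ℕ) + 5 = j + 5 + i by omega]

theorem main : ∃ q : ℕ → ℕ, IsBasic q ∧ NonDetDynGenerated q ∧
    normalSet q ⊆ uniformNormalSet q ∧ normalSet q ⊆ distNormalSet q := by
  classical
  obtain ⟨u, hu, hfreq0, hrho⟩ := exists_codeword
  have hfreq : ∀ k w, HasDens (fun i => wordAt k i u = w) (rho k w) := by
    intro k w
    refine (hfreq0 k w).congr (fun N => ?_)
    congr 1
    unfold cnt
    congr
  choose fr hfr0 using fun (l : ℕ) (B : Fin l → ℕ) => exists_dens hfreq B
  have hA : ∀ n, qseq u n < 65537 := fun n => by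
    have := gseq_le u (n + 5)
    unfold qseq
    omega
  have h2 : ∀ n, 2 ≤ qseq u n := fun n => gseq_ge u (n + 5)
  have hfr : ∀ l B, HasDens (At (qseq u) B) (fr l B) := fun l B =>
    ((hfr0 l B).shift 5).congr (fun j => (at_qseq_iff u B j).symm)
  have hpos : ∀ l j, 0 < fr l (fun i => qseq u (j + i)) := by
    intro l j
    apply dens_pos hfreq hrho (l := l) (j := j + 5) (by omega)
    have : (fun i : Fin l => qseq u (j + i)) = fun i : Fin l => gseq u (j + 5 + i) := by
      funext i
      unfold qseq
      congr 1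
      omega
    rw [← this]
    exact hfr0 l _
  have hent : ∃ᶠ n : ℕ in atTop, ∀ B : Fin n → ℕ,
      fr n B ≤ Real.exp (-(Real.log 2 / 20 * n)) := by
    rw [frequently_atTop]
    intro a
    refine ⟨10 * L a, by have := lt_L a; omega, fun B => ?_⟩
    refine (dens_le hfreq a B (hfr0 _ B)).trans ?_
    have h3 : (1 / 2 : ℝ) ^ dfree a = Real.exp (-(Real.log 2 * dfree a)) := by
      rw [Real.exp_neg, mul_comm, Real.exp_nat_mul, Real.exp_log (by norm_num), one_div, inv_pow]
    rw [h3]
    apply Real.exp_le_exp.2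
    have h4 : (L a : ℝ) ≤ 2 * dfree a := by exact_mod_cast L_le_two_dfree a
    have h5 : 0 < Real.log 2 := Real.log_pos (by norm_num)
    push_cast
    nlinarith
  have hdec := decodable_qseq hu
  refine ⟨qseq u, fun n _ => h2 n, ?_, normal_subset_uniform hA h2 hfr hpos hdec,
    normal_subset_dist hA h2 hfr hdec⟩
  exact nonDet hA h2 hfr hpos (div_pos (Real.log_pos (by norm_num)) (by norm_num)) hent

end Pool.Agent.H.MP_2f0ae6_an
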