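import Pool.Agent.H.MP_2f0ae6_an.Code

set_option autoImplicit false

/-!
Existence of a codeword all of whose words have the right frequencies.
-/

namespace Pool.Agent.H.MP_2f0ae6_an

open Finset Filter Topology MeasureTheory ProbabilityTheory

lemma parityAt_add {t : ℕ} {u v : ℕ → ZMod 2} (hu : ParityAt t u) (hv : ParityAt t v) :
    ParityAt t (u + v) := by
  intro a r hr
  simp only [Pi.add_apply, sum_add_distrib]
  rw [hu a r hr, hv a r hr, add_zero]

/-- the group of codewords -/
def codeGroup : AddSubgroup (ℕ → ZMod 2) where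
  carrier := {u | ∀ t, ParityAt t u}
  add_mem' := fun {u v} hu hv t => parityAt_add (hu t) (hv t)
  zero_mem' := fun t a r _ => by simp
  neg_mem' := fun {u} hu t a r hr => by
    simp only [Pi.neg_apply, sum_neg_distrib]
    rw [hu t a r hr, neg_zero]

lemma mem_codeGroup {u : ℕ → ZMod 2} : u ∈ codeGroup ↔ ∀ t, ParityAt t u := Iff.rfl

lemma isClosed_codeGroup : IsClosed (codeGroup : Set (ℕ → ZMod 2)) := by
  have : (codeGroup : Set (ℕ → ZMod 2)) =
      ⋂ (t : ℕ) (a : ℕ) (r : ℕ) (_ : r < L t),
        {u | ∑ j ∈ range (M t), u (a * L (t + 1) + j * L t + r) = 0} := by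
    ext u
    simp only [Set.mem_iInter, Set.mem_ofPred_eq, SetLike.mem_coe, mem_codeGroup, ParityAt]
  rw [this]
  refine isClosed_iInter fun t => isClosed_iInter fun a => isClosed_iInter fun r =>
    isClosed_iInter fun _ => ?_
  exact isClosed_eq (continuous_finsetSum _ fun j _ => continuous_apply _) continuous_const

instance : CompactSpace codeGroup := isCompact_iff_compactSpace.1 isClosed_codeGroup.isCompact

/-- the `i`-th word of length `L k` -/
def wordAt (k i : ℕ) (u : ℕ → ZMod 2) : Fin (L k) → ZMod 2 := fun r => u (i * L k + r)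

/-- the set of admissible words of level `k` -/
def Wset (k : ℕ) : Set (Fin (L k) → ZMod 2) := {w | ∃ c ∈ codeGroup, ∀ r : Fin (L k), c r = w r}

lemma parityAt_shift {t k i : ℕ} (htk : t < k) {u : ℕ → ZMod 2} (hu : ParityAt t u) :
    ParityAt t (fun n => u (i * L k + n)) := by
  intro a r hr
  obtain ⟨q, hq⟩ : L (t + 1) ∣ L k := L_dvd htk
  have := hu (i * q + a) r hr
  rw [← this]
  refine sum_congr rfl (fun j _ => ?_)
  exact congrArg u (by rw [hq]; ring)

lemma ext_mem (k : ℕ) (y : ℕ → ZMod 2) (A : ℕ → Finset ℕ)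
    (hy : ∀ t < k, ParityAt t y)
    (hA : ∀ s, k ≤ s → (A s ⊆ range (M s) ∧ Even (A s).card)) : ext k y A ∈ codeGroup :=
  fun t => parity_ext k y A hy hA t

lemma two_subset (s : ℕ) {x y : ℕ} (hx : x < M s) (hy : y < M s) (hxy : x ≠ y) :
    ({x, y} : Finset ℕ) ⊆ range (M s) ∧ Even ({x, y} : Finset ℕ).card := by
  constructor
  · intro z hz
    simp only [mem_insert, mem_singleton] at hz
    rcases hz with rfl | rfl <;> simpa
  · rw [card_pair hxy]; exact even_two

lemma wordAt_mem {k i : ℕ} {u : ℕ → ZMod 2} (hu : u ∈ codeGroup) : wordAt k i u ∈ Wset k := by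
  refine ⟨ext k (fun n => u (i * L k + n)) (fun _ => {0, 1}),
    ext_mem _ _ _ (fun t ht => parityAt_shift ht (hu t)) (fun s _ => ?_), ?_⟩
  · have := four_le_M s
    exact two_subset s (by omega) (by omega) (by norm_num)
  · intro r
    unfold ext wordAt
    have h0 : ∀ s, k ≤ s → dig s (r : ℕ) ∈ ({0, 1} : Finset ℕ) := by
      intro s hs
      unfold dig
      rw [Nat.div_eq_of_lt (lt_of_lt_of_le r.2 (L_mono hs))]
      simp
    rw [if_pos h0, Nat.mod_eq_of_lt r.2]

lemma div_L_eq_of_dig {k n n' : ℕ} (h : ∀ s, k ≤ s → dig s n = dig s n') :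
    n / L k = n' / L k := by
  have key : ∀ m, n / L (k + m) = n' / L (k + m) → n / L k = n' / L k := by
    intro m
    induction m with
    | zero => exact fun h => h
    | succ m ih =>
      intro hm
      apply ih
      have h1 : ∀ x : ℕ, x / L (k + m) = M (k + m) * (x / L (k + (m + 1))) + dig (k + m) x := by
        intro x
        have e : L (k + (m + 1)) = L (k + m) * M (k + m) := by
          rw [← add_assoc, L_succ, mul_comm]
        rw [e, ← Nat.div_div_eq_div_mul]
        unfold dig
        exact (Nat.div_add_mod _ _).symm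
      rw [h1 n, h1 n', hm, h (k + m) (by omega)]
  apply key (n + n')
  rw [Nat.div_eq_of_lt, Nat.div_eq_of_lt]
  · have := lt_L (k + (n + n')); omega
  · have := lt_L (k + (n + n')); omega

lemma exists_third (s x y : ℕ) : ∃ z, z < M s ∧ z ≠ x ∧ z ≠ y := by
  have := four_le_M s
  by_cases h0 : 0 ≠ x ∧ 0 ≠ y
  · exact ⟨0, by omega, h0.1, h0.2⟩
  by_cases h1 : 1 ≠ x ∧ 1 ≠ y
  · exact ⟨1, by omega, h1.1, h1.2⟩
  exact ⟨2, by omega, by omega, by omega⟩

/-- For any admissible word `w`, there is a codeword with `w` at block `i` and `0` at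
block `i'`. -/
lemma exists_codeword_pair {k i i' : ℕ} (hii : i ≠ i') {w : Fin (L k) → ZMod 2}
    (hw : w ∈ Wset k) :
    ∃ c ∈ codeGroup, wordAt k i c = w ∧ wordAt k i' c = 0 := by
  obtain ⟨c0, hc0, hc0w⟩ := hw
  choose o ho1 ho2 ho3 using fun s => exists_third s (dig s (i * L k)) (dig s (i' * L k))
  let A : ℕ → Finset ℕ := fun s => {dig s (i * L k), o s}
  refine ⟨ext k c0 A, ext_mem _ _ _ (fun t _ => hc0 t) (fun s _ => ?_), ?_, ?_⟩
  · exact two_subset s (dig_lt _ _) (ho1 s) (ho2 s).symm
  · funext r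
    unfold wordAt ext
    have h0 : ∀ s, k ≤ s → dig s (i * L k + (r : ℕ)) ∈ A s := by
      intro s hs
      have : dig s (i * L k + (r : ℕ)) = dig s (i * L k) := by
        unfold dig
        rw [div_L_of_lt hs r.2]
      rw [this]
      simp [A]
    rw [if_pos h0, Nat.mul_add_mod_of_lt r.2]
    exact hc0w r
  · funext r
    unfold wordAt ext
    rw [if_neg]
    · rfl
    · intro h
      have h2 : ∀ s, k ≤ s → dig s (i' * L k) = dig s (i * L k) := by
        intro s hs
        have h3 := h s hs
        have : dig s (i' * L k + (r : ℕ)) = dig s (i' * L k) := by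
          unfold dig
          rw [div_L_of_lt hs r.2]
        rw [this] at h3
        simp only [A, mem_insert, mem_singleton] at h3
        rcases h3 with h3 | h3
        · exact h3
        · exact absurd h3.symm (ho3 s)
      have h3 := div_L_eq_of_dig h2
      rw [Nat.mul_div_cancel _ (L_pos k), Nat.mul_div_cancel _ (L_pos k)] at h3
      exact hii h3.symm

lemma exists_codeword_single (k i : ℕ) {w : Fin (L k) → ZMod 2}
    (hw : w ∈ Wset k) : ∃ c ∈ codeGroup, wordAt k i c = w := by
  obtain ⟨c, hc, hc1, -⟩ := exists_codeword_pair (i := i) (i' := i + 1) (by omega) hw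
  exact ⟨c, hc, hc1⟩

/-! ### Cardinality -/

lemma Wset_finite (k : ℕ) : (Wset k).Finite := Set.toFinite _

lemma sum_dite_last {m : ℕ} (hm : 0 < m) (f : Fin (m - 1) → ZMod 2) :
    ∑ j ∈ range m, (if h : j < m - 1 then f ⟨j, h⟩ else ∑ j', f j') = 0 := by
  obtain ⟨n, rfl⟩ : ∃ n, m = n + 1 := ⟨m - 1, by omega⟩
  rw [sum_range_succ]
  have h3 : ∑ j ∈ range n, (if h : j < n + 1 - 1 then f ⟨j, h⟩ else
      ∑ j', f j') = ∑ j' : Fin (n + 1 - 1), f j' := by
    rw [← Fin.sum_univ_eq_sum_range
      (fun j => if h : j < n + 1 - 1 then f ⟨j, h⟩ else ∑ j', f j')]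
    refine sum_congr rfl (fun j _ => ?_)
    have hj : (j : ℕ) < n + 1 - 1 := j.2
    rw [dif_pos hj]
    rfl
  rw [h3, dif_neg (by omega)]
  exact CharTwo.add_self_eq_zero _

/-- combine words of level `k` into a word of level `k+1` -/
lemma combine_mem (k : ℕ) (c : Fin (M k - 1) → (ℕ → ZMod 2)) (hc : ∀ j, c j ∈ codeGroup) :
    ∃ u ∈ codeGroup, ∀ (j : Fin (M k - 1)) (r : Fin (L k)), u (j * L k + r) = c j r := by
  classical
  let y : ℕ → ZMod 2 := fun n =>
    if h : n / L k % M k < M k - 1 then c ⟨n / L k % M k, h⟩ (n % L k)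
    else ∑ j, c j (n % L k)
  have hMk := four_le_M k
  have hy : ∀ t < k + 1, ParityAt t y := by
    intro t ht a r hr
    rcases Nat.lt_succ_iff_lt_or_eq.1 ht with htk | rfl
    · -- lower levels
      have h1 : ∀ j ∈ range (M t), y (a * L (t + 1) + j * L t + r) =
          if h : (a * L (t + 1)) / L k % M k < M k - 1 then
            c ⟨(a * L (t + 1)) / L k % M k, h⟩
              ((a % (L k / L (t + 1))) * L (t + 1) + j * L t + r)
          else ∑ j', c j' ((a % (L k / L (t + 1))) * L (t + 1) + j * L t + r) := by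
        intro j hj
        have hj' : j < M t := mem_range.1 hj
        simp only [y]
        rw [div_const htk hj' hr, mod_L_low htk hj' hr]
      rw [sum_congr rfl h1]
      split_ifs with h
      · exact hc _ t _ r hr
      · rw [sum_comm]
        apply sum_eq_zero
        intro j' _
        exact hc j' t _ r hr
    · -- level k
      have h1 : ∀ j ∈ range (M t), y (a * L (t + 1) + j * L t + r) =
          if h : j < M t - 1 then c ⟨j, h⟩ r else ∑ j', c j' r := by
        intro j hj
        have hj' : j < M t := mem_range.1 hj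
        have e1 : (a * L (t + 1) + j * L t + r) / L t % M t = j := dig_at hj' hr
        have e2 : (a * L (t + 1) + j * L t + r) % L t = r := by
          rw [mod_L_high le_rfl, Nat.mod_eq_of_lt hr]
        simp only [y, e1, e2]
      rw [sum_congr rfl h1]
      exact sum_dite_last (M_pos t) (fun j => c j r)
  refine ⟨ext (k + 1) y (fun _ => {0, 1}), ext_mem _ _ _ hy (fun s _ => ?_), ?_⟩
  · have := four_le_M s
    exact two_subset s (by omega) (by omega) (by norm_num)
  · intro j r
    have hjM : (j : ℕ) < M k := by have := j.2; omega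
    have hlt : (j : ℕ) * L k + r < L (k + 1) := block_lt hjM r.2
    unfold ext
    have h0 : ∀ s, k + 1 ≤ s → dig s ((j : ℕ) * L k + r) ∈ ({0, 1} : Finset ℕ) := by
      intro s hs
      unfold dig
      rw [Nat.div_eq_of_lt (lt_of_lt_of_le hlt (L_mono hs))]
      simp
    rw [if_pos h0, Nat.mod_eq_of_lt hlt]
    have e1 : ((j : ℕ) * L k + r) / L k % M k = j := by
      have := dig_at (t := k) (a := 0) hjM r.2
      simpa [dig] using this
    have e2 : ((j : ℕ) * L k + r) % L k = r := Nat.mul_add_mod_of_lt r.2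
    simp only [y, e1, e2]
    rw [dif_pos j.2]

/-- number of free bits of a word of level `k` -/
def dfree : ℕ → ℕ
  | 0 => 1
  | k + 1 => (M k - 1) * dfree k

lemma L_le_two_dfree (k : ℕ) : L k ≤ 2 * dfree k := by
  have key : L k * (2 ^ k + 1) ≤ dfree k * 2 ^ (k + 1) := by
    induction k with
    | zero => simp [L, dfree]
    | succ k ih =>
      rw [L_succ, dfree]
      have hx : 1 ≤ 2 ^ k := Nat.one_le_two_pow
      have hM : M k = 4 * 2 ^ k := by unfold M; rw [pow_add]; ring
      rw [hM]
      have e1 : 2 ^ (k + 1) = 2 * 2 ^ k := by rw [pow_succ]; ring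
      have e2 : 2 ^ (k + 1 + 1) = 4 * 2 ^ k := by rw [pow_succ, pow_succ]; ring
      rw [e1] at ih
      rw [e1, e2]
      generalize 2 ^ k = x at *
      obtain ⟨y, rfl⟩ : ∃ y, x = y + 1 := ⟨x - 1, by omega⟩
      have e3 : 4 * (y + 1) - 1 = 4 * y + 3 := by omega
      rw [e3]
      generalize dfree k = d at *
      generalize L k = l at *
      nlinarith [Nat.zero_le (l * y), Nat.zero_le (l * y * y), Nat.zero_le (d * y)]
  have h2 : L k * 2 ^ k ≤ (2 * dfree k) * 2 ^ k := by
    calc L k * 2 ^ k ≤ L k * (2 ^ k + 1) := Nat.mul_le_mul_left _ (by omega)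
      _ ≤ dfree k * 2 ^ (k + 1) := key
      _ = (2 * dfree k) * 2 ^ k := by rw [pow_succ]; ring
  exact Nat.le_of_mul_le_mul_right h2 (by positivity)

lemma card_Wset_succ (k : ℕ) : (Nat.card (Wset k)) ^ (M k - 1) ≤ Nat.card (Wset (k + 1)) := by
  classical
  have hchoice : ∀ w : Wset k, ∃ c ∈ codeGroup, ∀ r : Fin (L k), c r = w.1 r := fun w => w.2
  choose c hc1 hc2 using hchoice
  choose u hu1 hu2 using fun f : Fin (M k - 1) → Wset k =>
    combine_mem k (fun j => c (f j)) (fun j => hc1 (f j))
  let Ψ : (Fin (M k - 1) → Wset k) → Wset (k + 1) := fun f =>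
    ⟨fun r => u f r, u f, hu1 f, fun r => rfl⟩
  have hΨ : Function.Injective Ψ := by
    intro f g hfg
    have h1 : ∀ n : ℕ, n < L (k + 1) → u f n = u g n := by
      intro n hn
      have := congrArg (fun w : Wset (k + 1) => w.1 ⟨n, hn⟩) hfg
      exact this
    funext j
    apply Subtype.ext
    funext r
    have hjM : (j : ℕ) < M k := by have := j.2; omega
    rw [← hc2 (f j) r, ← hc2 (g j) r, ← hu2 f j r, ← hu2 g j r]
    exact h1 _ (block_lt hjM r.2)
  have := Nat.card_le_card_of_injective Ψ hΨ
  simpa [Nat.card_fun] using this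

lemma card_Wset (k : ℕ) : 2 ^ dfree k ≤ Nat.card (Wset k) := by
  induction k with
  | zero =>
    have h : Wset 0 = Set.univ := by
      ext w
      simp only [Set.mem_univ, iff_true]
      refine ⟨ext 0 (fun _ => w ⟨0, L_pos 0⟩) (fun _ => {0, 1}),
        ext_mem _ _ _ (fun t ht => absurd ht (by omega)) (fun s _ => ?_), ?_⟩
      · have := four_le_M s
        exact two_subset s (by omega) (by omega) (by norm_num)
      · intro r
        have hr : (r : ℕ) = 0 := by
          have := r.2
          have h1 : L 0 = 1 := rfl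
          omega
        unfold ext
        have h0 : ∀ s, 0 ≤ s → dig s (r : ℕ) ∈ ({0, 1} : Finset ℕ) := by
          intro s hs
          unfold dig
          rw [hr]
          simp
        rw [if_pos h0]
        exact congrArg w (Fin.ext hr.symm)
    rw [h]
    simp [dfree, L]
  | succ k ih =>
    calc 2 ^ dfree (k + 1) = (2 ^ dfree k) ^ (M k - 1) := by
          rw [dfree, ← pow_mul, mul_comm]
      _ ≤ (Nat.card (Wset k)) ^ (M k - 1) := Nat.pow_le_pow_left ih _
      _ ≤ _ := card_Wset_succ k

/-! ### Haar measure on the code group -/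

/-- normalised Haar measure on the code group -/
noncomputable def haarCode : Measure codeGroup :=
  Measure.addHaarMeasure (⊤ : TopologicalSpace.PositiveCompacts codeGroup)

instance : IsProbabilityMeasure haarCode := by
  constructor
  have := Measure.addHaarMeasure_self (K₀ := (⊤ : TopologicalSpace.PositiveCompacts codeGroup))
  simpa [haarCode] using this

instance : haarCode.IsAddLeftInvariant := by unfold haarCode; infer_instance

/-- the event that the `i`-th word is `w` -/
def wordEvent (k i : ℕ) (w : Fin (L k) → ZMod 2) : Set codeGroup := {c | wordAt k i c.1 = w}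

lemma measurableSet_wordEvent (k i : ℕ) (w : Fin (L k) → ZMod 2) :
    MeasurableSet (wordEvent k i w) := by
  have : wordEvent k i w = ⋂ r : Fin (L k), {c : codeGroup | c.1 (i * L k + r) = w r} := by
    ext c
    simp only [wordEvent, Set.mem_ofPred_eq, Set.mem_iInter, wordAt, funext_iff]
  rw [this]
  refine MeasurableSet.iInter (fun r => ?_)
  exact ((measurable_pi_apply _).comp measurable_subtype_coe) (measurableSet_singleton _)

lemma wordAt_add (k i : ℕ) (u v : ℕ → ZMod 2) :
    wordAt k i (u + v) = wordAt k i u + wordAt k i v := rfl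

lemma measure_wordEvent_eq (k i : ℕ) {w : Fin (L k) → ZMod 2} (hw : w ∈ Wset k) :
    haarCode (wordEvent k i w) = haarCode (wordEvent k i 0) := by
  obtain ⟨c, hc, hcw⟩ := exists_codeword_single k i hw
  have := measure_preimage_add haarCode (⟨c, hc⟩ : codeGroup) (wordEvent k i w)
  rw [← this]
  congr 1
  ext d
  simp only [Set.mem_preimage, wordEvent, Set.mem_ofPred_eq, AddSubgroup.coe_add, wordAt_add, hcw]
  constructor
  · intro h
    exact left_eq_add.1 h.symm
  · intro h
    rw [h, add_zero]

lemma measure_pair_eq {k i i' : ℕ} (hii : i ≠ i') {w w' : Fin (L k) → ZMod 2} (hw : w ∈ Wset k)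
    (hw' : w' ∈ Wset k) :
    haarCode (wordEvent k i w ∩ wordEvent k i' w')
      = haarCode (wordEvent k i 0 ∩ wordEvent k i' 0) := by
  obtain ⟨c, hc, hc1, hc2⟩ := exists_codeword_pair hii hw
  obtain ⟨c', hc', hc1', hc2'⟩ := exists_codeword_pair hii.symm hw'
  have := measure_preimage_add haarCode (⟨c + c', codeGroup.add_mem hc hc'⟩ : codeGroup)
    (wordEvent k i w ∩ wordEvent k i' w')
  rw [← this]
  congr 1
  ext d
  simp only [Set.mem_preimage, wordEvent, Set.mem_ofPred_eq, AddSubgroup.coe_add, wordAt_add, hc1,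
    hc2, hc1', hc2', Set.mem_inter_iff, zero_add, add_zero]
  constructor
  · rintro ⟨h1, h2⟩
    exact ⟨left_eq_add.1 h1.symm, left_eq_add.1 h2.symm⟩
  · rintro ⟨h1, h2⟩
    rw [h1, h2, add_zero, add_zero]
    exact ⟨rfl, rfl⟩

lemma sum_measure_wordEvent (k i : ℕ) (E : Set codeGroup) (hE : MeasurableSet E) :
    ∑ w ∈ (Wset_finite k).toFinset, haarCode (wordEvent k i w ∩ E) = haarCode E := by
  rw [← measure_biUnion_finset]
  · congr 1
    ext c
    simp only [Set.Finite.mem_toFinset, Set.mem_iUnion, Set.mem_inter_iff, exists_prop]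
    constructor
    · rintro ⟨w, _, _, h⟩
      exact h
    · intro h
      exact ⟨wordAt k i c.1, wordAt_mem c.2, rfl, h⟩
  · intro w _ w' _ hww
    refine Set.disjoint_left.2 ?_
    rintro c ⟨h1, _⟩ ⟨h2, _⟩
    exact hww (h1.symm.trans h2)
  · intro w _
    exact (measurableSet_wordEvent k i w).inter hE

lemma card_toFinset (k : ℕ) : (Wset_finite k).toFinset.card = Nat.card (Wset k) := by
  rw [Nat.card_coe_set_eq, Set.ncard_eq_toFinset_card _ (Wset_finite k)]

lemma card_Wset_pos (k : ℕ) : 0 < Nat.card (Wset k) :=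
  lt_of_lt_of_le (by positivity) (card_Wset k)

lemma card_mul_measure (k i : ℕ) :
    (Nat.card (Wset k) : ENNReal) * haarCode (wordEvent k i 0) = 1 := by
  have h := sum_measure_wordEvent k i Set.univ MeasurableSet.univ
  simp only [Set.inter_univ, measure_univ] at h
  rw [← h, sum_congr rfl (fun w hw => measure_wordEvent_eq k i ((Set.Finite.mem_toFinset _).1 hw)),
    sum_const, card_toFinset, nsmul_eq_mul]

lemma measure_wordEvent_zero (k i : ℕ) :
    haarCode (wordEvent k i 0) = (Nat.card (Wset k) : ENNReal)⁻¹ := by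
  have h := card_mul_measure k i
  exact ENNReal.eq_inv_of_mul_eq_one_left (by rw [mul_comm]; exact h)

lemma measure_pair_zero {k i i' : ℕ} (hii : i ≠ i') :
    haarCode (wordEvent k i 0 ∩ wordEvent k i' 0)
      = haarCode (wordEvent k i 0) * haarCode (wordEvent k i' 0) := by
  have h0 : (0 : Fin (L k) → ZMod 2) ∈ Wset k := ⟨0, codeGroup.zero_mem, fun _ => rfl⟩
  have h := sum_measure_wordEvent k i (wordEvent k i' 0) (measurableSet_wordEvent k i' 0)
  rw [sum_congr rfl (fun w hw => measure_pair_eq hii ((Set.Finite.mem_toFinset _).1 hw) h0),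
    sum_const, card_toFinset, nsmul_eq_mul] at h
  rw [← h, measure_wordEvent_zero k i, ← mul_assoc, ENNReal.inv_mul_cancel, one_mul]
  · exact_mod_cast (card_Wset_pos k).ne'
  · exact ENNReal.natCast_ne_top _

lemma measure_pair {k i i' : ℕ} (hii : i ≠ i') {w : Fin (L k) → ZMod 2} (hw : w ∈ Wset k) :
    haarCode (wordEvent k i w ∩ wordEvent k i' w)
      = haarCode (wordEvent k i w) * haarCode (wordEvent k i' w) := by
  rw [measure_pair_eq hii hw hw, measure_pair_zero hii, measure_wordEvent_eq k i hw,
    measure_wordEvent_eq k i' hw]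

lemma indepFun_of_sets {Ω : Type*} [MeasurableSpace Ω] {P : Measure Ω} [IsProbabilityMeasure P]
    {A B : Set Ω} (hA : MeasurableSet A) (hB : MeasurableSet B) (h : P (A ∩ B) = P A * P B) :
    IndepFun (A.indicator (fun _ => (1 : ℝ))) (B.indicator (fun _ => (1 : ℝ))) P := by
  have h1 : IndepSet A B P := (indepSet_iff_measure_inter_eq_mul hA hB P).2 h
  have hA' : MeasurableSet[MeasurableSpace.generateFrom {A}] A :=
    MeasurableSpace.measurableSet_generateFrom (Set.mem_singleton _)
  have hB' : MeasurableSet[MeasurableSpace.generateFrom {B}] B :=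
    MeasurableSpace.measurableSet_generateFrom (Set.mem_singleton _)
  have hY : Measurable[MeasurableSpace.generateFrom {B}] (B.indicator (fun _ => (1 : ℝ))) :=
    Measurable.indicator measurable_const hB'
  have h2 : Indep (MeasurableSpace.generateFrom {A})
      (MeasurableSpace.comap (B.indicator (fun _ => (1 : ℝ))) inferInstance) P :=
    indep_of_indep_of_le_right h1 hY.comap_le
  exact Indep.indicator_indepFun 1 hA' h2

lemma ae_word_freq (k : ℕ) {w : Fin (L k) → ZMod 2} (hw : w ∈ Wset k) :
    ∀ᵐ c ∂haarCode, Tendsto (fun N : ℕ =>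
      (((range N).filter fun i => wordAt k i c.1 = w).card : ℝ) / N) atTop
        (𝓝 ((Nat.card (Wset k) : ℝ)⁻¹)) := by
  classical
  let X : ℕ → codeGroup → ℝ := fun i => (wordEvent k i w).indicator (fun _ => (1 : ℝ))
  have hm : ∀ i, Measurable (X i) := fun i =>
    measurable_const.indicator (measurableSet_wordEvent k i w)
  have hind : Pairwise (fun i j => IndepFun (X i) (X j) haarCode) := fun i j hij =>
    indepFun_of_sets (measurableSet_wordEvent k i w) (measurableSet_wordEvent k j w)
      (measure_pair hij hw)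
  have hmeas : ∀ i, haarCode (wordEvent k i w) = (Nat.card (Wset k) : ENNReal)⁻¹ := fun i => by
    rw [measure_wordEvent_eq k i hw, measure_wordEvent_zero]
  have hid : ∀ i, IdentDistrib (X i) (X 0) haarCode haarCode := by
    intro i
    refine ⟨(hm i).aemeasurable, (hm 0).aemeasurable, ?_⟩
    ext s hs
    rw [Measure.map_apply (hm i) hs, Measure.map_apply (hm 0) hs]
    simp only [X, Set.indicator_const_preimage_eq_union]
    have hc : ∀ i, haarCode (wordEvent k i w)ᶜ = 1 - (Nat.card (Wset k) : ENNReal)⁻¹ := fun i => by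
      rw [prob_compl_eq_one_sub (measurableSet_wordEvent k i w), hmeas i]
    by_cases h1 : (1 : ℝ) ∈ s <;> by_cases h0 : (0 : ℝ) ∈ s <;> simp [h1, h0, hmeas, hc]
  have hlaw := strong_law_ae_real X ((integrable_const 1).indicator (measurableSet_wordEvent k 0 w))
    hind hid
  have hint : ∫ c, X 0 c ∂haarCode = (Nat.card (Wset k) : ℝ)⁻¹ := by
    simp only [X]
    rw [integral_indicator_const _ (measurableSet_wordEvent k 0 w)]
    simp [Measure.real, hmeas]
  rw [hint] at hlaw
  filter_upwards [hlaw] with c hc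
  refine hc.congr (fun N => ?_)
  congr 1
  simp only [X, Set.indicator_apply, wordEvent, Set.mem_ofPred_eq]
  rw [sum_ite]
  simp

/-- the frequency of the word `w` among the words of level `k` -/
noncomputable def rho (k : ℕ) (w : Fin (L k) → ZMod 2) : ℝ := by
  classical exact if w ∈ Wset k then (Nat.card (Wset k) : ℝ)⁻¹ else 0

lemma rho_le (k : ℕ) (w : Fin (L k) → ZMod 2) : rho k w ≤ (1 / 2 : ℝ) ^ (dfree k) := by
  unfold rho
  split_ifs
  · rw [one_div, inv_pow]
    apply inv_anti₀ (by positivity)
    exact_mod_cast card_Wset k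
  · positivity

lemma rho_nonneg (k : ℕ) (w : Fin (L k) → ZMod 2) : 0 ≤ rho k w := by
  unfold rho
  split_ifs <;> positivity

theorem exists_codeword : ∃ u : ℕ → ZMod 2, (∀ t, ParityAt t u) ∧
    (∀ k w, Tendsto (fun N : ℕ =>
      (((range N).filter fun i => wordAt k i u = w).card : ℝ) / N) atTop (𝓝 (rho k w))) ∧
    (∀ k i, 0 < rho k (wordAt k i u)) := by
  classical
  have h1 : ∀ᵐ c ∂haarCode, ∀ k, ∀ w : Fin (L k) → ZMod 2, w ∈ Wset k →
      Tendsto (fun N : ℕ =>
      (((range N).filter fun i => wordAt k i c.1 = w).card : ℝ) / N) atTop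
        (𝓝 ((Nat.card (Wset k) : ℝ)⁻¹)) := by
    rw [ae_all_iff]
    intro k
    rw [ae_all_iff]
    intro w
    by_cases hw : w ∈ Wset k
    · filter_upwards [ae_word_freq k hw] with c hc _
      exact hc
    · exact Filter.Eventually.of_forall (fun c h => absurd h hw)
  obtain ⟨c, hc⟩ := h1.exists
  refine ⟨c.1, c.2, ?_, ?_⟩
  · intro k w
    unfold rho
    split_ifs with hw
    · convert hc k w hw using 3
    · have : ∀ N : ℕ, (((range N).filter fun i => wordAt k i c.1 = w).card : ℝ) / N = 0 := by
        intro N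
        rw [filter_false_of_mem]
        · simp
        · intro i _ h
          exact hw (h ▸ wordAt_mem c.2)
      simp only [this]
      exact tendsto_const_nhds
  · intro k i
    unfold rho
    rw [if_pos (wordAt_mem c.2)]
    have := card_Wset_pos k
    positivity

end Pool.Agent.H.MP_2f0ae6_an
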