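import Pool.Agent.H.MP_2f0ae6_an.Interface
import Pool.Agent.H.MP_2f0ae6_an.Defs

set_option autoImplicit false

/-!
Rigidity: for a decodable basic sequence, normal numbers have the right joint frequencies.
-/

namespace Pool.Agent.H.MP_2f0ae6_an

open Finset Filter Topology MeasureTheory

/-- lower density at least `a` -/
def LowerDens (p : ℕ → Prop) (a : ℝ) : Prop :=
  ∀ ε > 0, ∀ᶠ N : ℕ in atTop, a - ε ≤ (cnt p N : ℝ) / N

lemma HasDens.lower {p : ℕ → Prop} {a : ℝ} (h : HasDens p a) : LowerDens p a := by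
  intro ε hε
  have := (tendsto_order.1 h).1 (a - ε) (by linarith)
  exact this.mono (fun N hN => hN.le)

lemma lowerDens_zero (p : ℕ → Prop) : LowerDens p 0 := by
  intro ε hε
  refine Eventually.of_forall (fun N => ?_)
  have : (0 : ℝ) ≤ (cnt p N : ℝ) / N := by positivity
  linarith

lemma LowerDens.mono_val {p : ℕ → Prop} {a b : ℝ} (h : LowerDens p a) (hab : b ≤ a) :
    LowerDens p b := fun ε hε => (h ε hε).mono (fun N hN => by linarith)

lemma LowerDens.of_forall {p : ℕ → Prop} {a : ℝ} (h : ∀ η > 0, LowerDens p (a - η)) :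
    LowerDens p a := by
  intro ε hε
  filter_upwards [h (ε / 2) (by positivity) (ε / 2) (by positivity)] with N hN
  linarith

lemma LowerDens.sum {ι : Type*} {S : Finset ι} {P : ι → ℕ → Prop} {p : ℕ → Prop} {a : ι → ℝ}
    (h : ∀ i ∈ S, LowerDens (P i) (a i)) (hp : ∀ i ∈ S, ∀ j, P i j → p j)
    (hdisj : ∀ i ∈ S, ∀ i' ∈ S, i ≠ i' → ∀ j, P i j → ¬ P i' j) :
    LowerDens p (∑ i ∈ S, a i) := by
  classical
  intro ε hε
  have h1 : ∀ᶠ N : ℕ in atTop, ∀ i ∈ S, a i - ε / (S.card + 1) ≤ (cnt (P i) N : ℝ) / N := by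
    rw [Filter.eventually_all_finset]
    intro i hi
    exact h i hi _ (by positivity)
  filter_upwards [h1] with N hN
  have h2 : ∑ i ∈ S, cnt (P i) N ≤ cnt p N := by
    unfold cnt
    rw [← card_biUnion]
    · apply card_le_card
      intro j hj
      simp only [mem_biUnion, mem_filter] at hj ⊢
      obtain ⟨i, hi, hj1, hj2⟩ := hj
      exact ⟨hj1, hp i hi j hj2⟩
    · intro i hi i' hi' hii
      rw [Function.onFun, Finset.disjoint_left]
      intro j hj hj'
      simp only [mem_filter] at hj hj'
      exact hdisj i hi i' hi' hii j hj.2 hj'.2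
  have h3 : ∑ i ∈ S, (a i - ε / (S.card + 1)) ≤ ∑ i ∈ S, (cnt (P i) N : ℝ) / N :=
    sum_le_sum hN
  rw [sum_sub_distrib, sum_const, nsmul_eq_mul, ← sum_div] at h3
  have h4 : (S.card : ℝ) * (ε / (S.card + 1)) ≤ ε := by
    rw [mul_div_assoc', div_le_iff₀ (by positivity)]
    nlinarith [Nat.cast_nonneg (α := ℝ) S.card]
  have h5 : (∑ i ∈ S, (cnt (P i) N : ℝ)) / N ≤ (cnt p N : ℝ) / N := by
    have : (∑ i ∈ S, (cnt (P i) N : ℝ)) ≤ cnt p N := by exact_mod_cast h2
    gcongr
  linarith

lemma LowerDens.translate {p p' : ℕ → Prop} {α : ℝ} (a : ℕ) (h : LowerDens p α)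
    (hp : ∀ j, p j → p' (j + a)) : LowerDens p' α := by
  classical
  intro ε hε
  have hlim : Tendsto (fun N : ℕ => (a : ℝ) / N) atTop (𝓝 0) :=
    tendsto_const_div_atTop_nhds_zero_nat _
  filter_upwards [h (ε / 2) (by positivity), (tendsto_order.1 hlim).2 (ε / 2) (by positivity)]
    with N h1 h2
  have h3 : cnt p N ≤ cnt p' N + a := by
    unfold cnt
    calc ((range N).filter p).card ≤
          (((range N).filter p').image (fun j => j - a) ∪ Finset.Ico (N - a) N).card := by
          apply card_le_card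
          intro j hj
          simp only [mem_filter, mem_range, mem_union, mem_image, mem_Ico] at hj ⊢
          by_cases hja : j + a < N
          · left
            exact ⟨j + a, ⟨hja, hp j hj.2⟩, by omega⟩
          · right
            omega
      _ ≤ _ := by
          refine (card_union_le _ _).trans ?_
          rw [Nat.card_Ico]
          have := card_image_le (s := (range N).filter p') (f := fun j => j - a)
          omega
  have h4 : (cnt p N : ℝ) / N ≤ (cnt p' N : ℝ) / N + a / N := by
    rw [← add_div]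
    have : (cnt p N : ℝ) ≤ cnt p' N + a := by exact_mod_cast h3
    gcongr
  linarith

/-- squeeze: a finite partition with lower densities summing to one -/
lemma hasDens_of_partition {ι : Type*} [Fintype ι] {P : ι → ℕ → Prop} {a : ι → ℝ}
    (h : ∀ i, LowerDens (P i) (a i)) (hdisj : ∀ i i', i ≠ i' → ∀ j, P i j → ¬ P i' j)
    (hsum : ∑ i, a i = 1) (i : ι) : HasDens (P i) (a i) := by
  classical
  unfold HasDens
  rw [tendsto_order]
  constructor
  · intro b hb
    filter_upwards [h i ((a i - b) / 2) (by linarith)] with N hN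
    linarith
  · intro b hb
    have h1 : LowerDens (fun j => ¬ P i j) (∑ i' ∈ univ.erase i, a i') := by
      apply LowerDens.sum (P := P)
      · intro i' _; exact h i'
      · intro i' hi' j hj hj'
        exact hdisj i' i (ne_of_mem_erase hi') j hj hj'
      · intro i1 _ i2 _ hne j; exact hdisj i1 i2 hne j
    have h2 : ∑ i' ∈ univ.erase i, a i' = 1 - a i := by
      rw [← hsum, ← add_sum_erase _ _ (mem_univ i)]; ring
    rw [h2] at h1
    filter_upwards [h1 ((b - a i) / 2) (by linarith), eventually_gt_atTop 0] with N hN hN0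
    have hN0' : (0 : ℝ) < N := by exact_mod_cast hN0
    have h3 : cnt (P i) N + cnt (fun j => ¬ P i j) N = N := by
      unfold cnt
      rw [card_filter_add_card_filter_not, card_range]
    have h4 : (cnt (P i) N : ℝ) / N + (cnt (fun j => ¬ P i j) N : ℝ) / N = 1 := by
      rw [← add_div, div_eq_one_iff_eq hN0'.ne']
      exact_mod_cast h3
    linarith

/-- averages of a function of a finite valued sequence -/
lemma tendsto_avg_of_finite {β : Type*} [Fintype β] {f : ℕ → β} {a : β → ℝ}
    (h : ∀ w, HasDens (fun i => f i = w) (a w)) (Φ : β → ℝ) :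
    Tendsto (fun N : ℕ => (∑ j ∈ range N, Φ (f j)) / N) atTop (𝓝 (∑ w, Φ w * a w)) := by
  classical
  have h1 : ∀ w ∈ (univ : Finset β), Tendsto (fun N : ℕ =>
      Φ w * ((cnt (fun i => f i = w) N : ℝ) / N)) atTop (𝓝 (Φ w * a w)) :=
    fun w _ => (h w).const_mul (Φ w)
  refine (tendsto_finsetSum univ h1).congr (fun N => ?_)
  have : ∑ j ∈ range N, Φ (f j) = ∑ w, Φ w * (cnt (fun i => f i = w) N : ℝ) := by
    rw [← sum_fiberwise (range N) f]
    refine sum_congr rfl (fun w _ => ?_)
    unfold cnt
    rw [sum_congr rfl (fun j hj => by rw [(mem_filter.1 hj).2] :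
      ∀ j ∈ (range N).filter (fun j => f j = w), Φ (f j) = Φ w), sum_const, nsmul_eq_mul, mul_comm]
  rw [this, sum_div]
  refine sum_congr rfl (fun w _ => ?_)
  ring

/-! ### The rigidity argument -/

section rigid

variable {q d : ℕ → ℕ} {A : ℕ} {fr : (l : ℕ) → (Fin l → ℕ) → ℝ}

/-- the `q`-block of length `l` at `j`, with values in `Fin A` -/
def blk (q : ℕ → ℕ) {A : ℕ} (hA : ∀ n, q n < A) (l j : ℕ) : Fin l → Fin A :=
  fun i => ⟨q (j + i), hA _⟩

lemma blk_eq_iff (hA : ∀ n, q n < A) {l j : ℕ} (w : Fin l → Fin A) :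
    blk q hA l j = w ↔ At q (fun i => (w i : ℕ)) j := by
  unfold blk At
  rw [funext_iff]
  refine forall_congr' (fun i => ?_)
  rw [Fin.ext_iff]

lemma hasDens_blk (hA : ∀ n, q n < A) (hfr : ∀ l B, HasDens (At q B) (fr l B)) {l : ℕ}
    (w : Fin l → Fin A) : HasDens (fun j => blk q hA l j = w) (fr l (fun i => (w i : ℕ))) :=
  (hfr l _).congr (fun _ => (blk_eq_iff hA w).symm)

/-- `tau` as a function of the block -/
noncomputable def tauB {W : ℕ} (D : Fin W → ℕ) (w : Fin W → ℕ) : ℝ :=
  if ∀ i : Fin W, D i < w i then (∏ i : Fin W, (w i : ℝ))⁻¹ else 0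

lemma tau_eq_tauB (hA : ∀ n, q n < A) {W : ℕ} (D : Fin W → ℕ) (j : ℕ) :
    tau q D j = tauB D (fun i => (blk q hA W j i : ℕ)) := rfl

lemma tau_nonneg (q : ℕ → ℕ) {W : ℕ} (D : Fin W → ℕ) (j : ℕ) : 0 ≤ tau q D j := by
  unfold tau
  split_ifs
  · positivity
  · exact le_rfl

/-- limit of averages of `tau` -/
lemma tendsto_avg_tau (hA : ∀ n, q n < A) (hfr : ∀ l B, HasDens (At q B) (fr l B)) {W : ℕ}
    (D : Fin W → ℕ) : ∃ ν : ℝ, 0 ≤ ν ∧
      Tendsto (fun N : ℕ => (∑ j ∈ range N, tau q D (j + 1)) / N) atTop (𝓝 ν) := by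
  have h := tendsto_avg_of_finite (f := fun j => blk q hA W (j + 1))
    (fun w => (hasDens_blk hA hfr w).shift 1) (fun w => tauB D (fun i => (w i : ℕ)))
  refine ⟨_, ?_, h⟩
  apply sum_nonneg
  intro w _
  apply mul_nonneg
  · unfold tauB
    split_ifs
    · positivity
    · exact le_rfl
  · exact (hfr _ _).nonneg

/-- normality of a digit sequence, as in the definition of `normalSet` -/
def NormalDigits (q d : ℕ → ℕ) : Prop := ∀ (l : ℕ) (D : Fin l → ℕ),
    Tendsto (fun n => expected q D n) atTop atTop →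
      Tendsto (fun n => (occ d D n : ℝ) / expected q D n) atTop (𝓝 1)

lemma sum_Icc_eq_sum_range (f : ℕ → ℝ) (n : ℕ) :
    ∑ j ∈ Finset.Icc 1 n, f j = ∑ j ∈ range n, f (j + 1) := by
  rw [← Finset.sum_image (s := range n) (g := fun j => j + 1) (f := f)
    (by intro a _ b _ h; simpa using h)]
  congr 1
  ext j
  simp only [mem_Icc, mem_image, mem_range]
  constructor
  · rintro ⟨h1, h2⟩; exact ⟨j - 1, by omega, by omega⟩
  · rintro ⟨i, h1, rfl⟩; omega

lemma card_Icc_filter (p : ℕ → Prop) [DecidablePred p] (n : ℕ) :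
    ((Finset.Icc 1 n).filter p).card = cnt (fun j => p (j + 1)) n := by
  classical
  unfold cnt
  symm
  apply card_bij (fun j _ => j + 1)
  · intro j hj
    simp only [mem_filter, mem_range, mem_Icc] at hj ⊢
    exact ⟨by omega, hj.2⟩
  · intro i _ i' _ h
    omega
  · intro j hj
    simp only [mem_filter, mem_Icc] at hj
    refine ⟨j - 1, ?_, by omega⟩
    simp only [mem_filter, mem_range]
    refine ⟨by omega, ?_⟩
    rw [Nat.sub_add_cancel hj.1.1]
    exact hj.2

lemma expected_eq (q : ℕ → ℕ) {l : ℕ} (D : Fin l → ℕ) (n : ℕ) :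
    expected q D n = ∑ j ∈ range n, tau q D (j + 1) := by
  unfold expected
  rw [sum_Icc_eq_sum_range (fun j => if ∀ i : Fin l, D i < q (j + i) then
    (∏ i : Fin l, (q (j + i) : ℝ))⁻¹ else 0)]
  rfl

lemma occ_eq (d : ℕ → ℕ) {l : ℕ} (D : Fin l → ℕ) (n : ℕ) :
    occ d D n = cnt (fun j => At d D (j + 1)) n := by
  unfold occ
  rw [card_Icc_filter]
  rfl

/-- normality gives lower densities of digit blocks -/
lemma lowerDens_of_normal
    (hN : NormalDigits q d) {W : ℕ} (D : Fin W → ℕ) {ν : ℝ} (hν : 0 ≤ ν)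
    (h : Tendsto (fun N : ℕ => (∑ j ∈ range N, tau q D (j + 1)) / N) atTop (𝓝 ν)) :
    LowerDens (fun j => At d D (j + 1)) ν := by
  rcases hν.eq_or_lt with h0 | hpos
  · rw [← h0]; exact lowerDens_zero _
  · apply HasDens.lower
    have h1 : Tendsto (fun N : ℕ => expected q D N) atTop atTop := by
      have h2 : Tendsto (fun N : ℕ => (∑ j ∈ range N, tau q D (j + 1)) / N * N) atTop atTop :=
        h.pos_mul_atTop hpos tendsto_natCast_atTop_atTop
      refine h2.congr' ?_
      filter_upwards [eventually_gt_atTop 0] with N hN0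
      have : (N : ℝ) ≠ 0 := by exact_mod_cast hN0.ne'
      rw [expected_eq, div_mul_cancel₀ _ this]
    have h2 := (hN W D h1).mul h
    rw [one_mul] at h2
    refine h2.congr' ?_
    filter_upwards [h1.eventually_gt_atTop 0] with N hN0
    rw [← expected_eq, occ_eq]
    field_simp

/-- lower density of joint blocks -/
lemma lowerDens_joint (hA : ∀ n, q n < A) (h2 : ∀ n, 2 ≤ q n)
    (hfr : ∀ l B, HasDens (At q B) (fr l B))
    (hdec : Decodable q A) (hd : ∀ n, 1 ≤ n → d n < q n) (hN : NormalDigits q d)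
    {l : ℕ} (D B : Fin l → ℕ) (hDB : ∀ i, D i < B i) :
    LowerDens (fun j => At d D (j + 1) ∧ At q B (j + 1)) (fr l B * (∏ i, (B i : ℝ))⁻¹) := by
  classical
  apply LowerDens.of_forall
  intro η' hη'
  obtain ⟨W, a, bad, β, haW, hbad, hβ, hW⟩ := hdec l (η' / 2) (by positivity)
  choose ν hν0 hν using fun D' : Fin W → ℕ => tendsto_avg_tau hA hfr D'
  have hlow : LowerDens (fun j => At d D (j + 1) ∧ At q B (j + 1))
      (∑ D' ∈ goodWin q A W a D B, ν D') := by
    have h3 : LowerDens (fun j => ∃ D' ∈ goodWin q A W a D B, At d D' (j + 1))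
        (∑ D' ∈ goodWin q A W a D B, ν D') := by
      apply LowerDens.sum (P := fun D' j => At d D' (j + 1))
      · intro D' _
        exact lowerDens_of_normal hN D' (hν0 D') (hν D')
      · intro D' hD' j hj
        exact ⟨D', hD', hj⟩
      · intro D1 _ D2 _ hne j hj1 hj2
        apply hne
        funext i
        rw [← hj1 i, ← hj2 i]
    apply h3.translate a
    rintro j ⟨D', hD', hj⟩
    unfold goodWin at hD'
    rw [mem_filter] at hD'
    obtain ⟨-, h4, h5⟩ := hD'
    constructor
    · intro i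
      have hi : a + (i : ℕ) < W := by have := i.2; omega
      have := hj ⟨a + i, hi⟩
      rw [h4 i hi] at this
      rw [← this]
      congr 1
      simp only
      omega
    · intro i
      have := h5 (j + 1) (by omega) (fun i' => by
        rw [← hj i']
        exact hd _ (by omega)) i
      rw [← this]
      congr 1
      omega
  refine hlow.mono_val ?_
  -- comparison of limits
  have hsum : Tendsto (fun N : ℕ => (∑ j ∈ range N, ∑ D' ∈ goodWin q A W a D B,
      tau q D' (j + 1)) / N) atTop (𝓝 (∑ D' ∈ goodWin q A W a D B, ν D')) := by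
    refine (tendsto_finsetSum (goodWin q A W a D B) (fun D' _ => hν D')).congr (fun N => ?_)
    rw [sum_comm, sum_div]
  have hc := ((hfr l B).shift (1 + a)).mul_const ((∏ i, (B i : ℝ))⁻¹)
  have hb := hbad.shift 1
  have hlim : Tendsto (fun N : ℕ => (cnt (fun j => At q B (j + (1 + a))) N : ℝ) / N *
      (∏ i, (B i : ℝ))⁻¹ - (cnt (fun j => bad (j + 1)) N : ℝ) / N - η' / 2) atTop
      (𝓝 (fr l B * (∏ i, (B i : ℝ))⁻¹ - β - η' / 2)) :=
    (hc.sub hb).sub tendsto_const_nhds
  have hfinal : fr l B * (∏ i, (B i : ℝ))⁻¹ - β - η' / 2 ≤ ∑ D' ∈ goodWin q A W a D B, ν D' := by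
    refine le_of_tendsto_of_tendsto hlim hsum ?_
    filter_upwards [eventually_gt_atTop 0] with N hN0
    have hN0' : (0 : ℝ) < N := by exact_mod_cast hN0
    have hpt : ∀ j ∈ range N, (if At q B (j + (1 + a)) then (∏ i, (B i : ℝ))⁻¹ else 0) -
        (if bad (j + 1) then 1 else 0) - η' / 2 ≤
        ∑ D' ∈ goodWin q A W a D B, tau q D' (j + 1) := by
      intro j _
      have hnn : 0 ≤ ∑ D' ∈ goodWin q A W a D B, tau q D' (j + 1) :=
        sum_nonneg (fun D' _ => tau_nonneg q D' _)
      have hle1 : (∏ i, (B i : ℝ))⁻¹ ≤ 1 := by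
        apply inv_le_one_of_one_le₀
        have : 1 ≤ ∏ i, B i := Finset.one_le_prod' (fun i _ => by have := hDB i; omega)
        exact_mod_cast this
      have hB0 : 0 ≤ (∏ i, (B i : ℝ))⁻¹ := by positivity
      by_cases hAt : At q B (j + (1 + a))
      · by_cases hbd : bad (j + 1)
        · rw [if_pos hAt, if_pos hbd]
          linarith
        · rw [if_pos hAt, if_neg hbd]
          have hBeq : (fun i : Fin l => q (j + 1 + a + i)) = B := by
            funext i
            have := hAt i
            rw [← this]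
            congr 1
            omega
          have h6 := hW (j + 1) (by omega) hbd D (fun i => by
            have := congrFun hBeq i
            rw [this]
            exact hDB i)
          rw [hBeq] at h6
          have h7 : (∏ i : Fin l, (q (j + 1 + a + i) : ℝ)) = ∏ i, (B i : ℝ) := by
            refine prod_congr rfl (fun i _ => ?_)
            have := congrFun hBeq i
            rw [this]
          rw [h7] at h6
          linarith
      · rw [if_neg hAt]
        split_ifs <;> linarith
    have hsumle := sum_le_sum hpt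
    rw [sum_sub_distrib, sum_sub_distrib, ← sum_filter, ← sum_filter, sum_const, sum_const,
      sum_const, card_range, nsmul_eq_mul, nsmul_eq_mul, nsmul_eq_mul] at hsumle
    have e1 : (((range N).filter (fun j => At q B (j + (1 + a)))).card : ℝ) =
        cnt (fun j => At q B (j + (1 + a))) N := by
      unfold cnt; congr
    have e2 : (((range N).filter (fun j => bad (j + 1))).card : ℝ) =
        cnt (fun j => bad (j + 1)) N := by
      unfold cnt; congr
    rw [e1, e2] at hsumle
    rw [le_div_iff₀ hN0']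
    have e3 : ((cnt (fun j => At q B (j + (1 + a))) N : ℝ) / N *
      (∏ i, (B i : ℝ))⁻¹ - (cnt (fun j => bad (j + 1)) N : ℝ) / N - η' / 2) * N =
      (cnt (fun j => At q B (j + (1 + a))) N : ℝ) * (∏ i, (B i : ℝ))⁻¹ -
      (cnt (fun j => bad (j + 1)) N : ℝ) * 1 - N * (η' / 2) := by
      field_simp
    rw [e3]
    exact hsumle
  linarith

lemma sum_fr (hA : ∀ n, q n < A) (hfr : ∀ l B, HasDens (At q B) (fr l B)) (l : ℕ) :
    ∑ w : Fin l → Fin A, fr l (fun i => (w i : ℕ)) = 1 := by
  have h := HasDens.of_finite (f := fun j => blk q hA l j) (fun w => hasDens_blk hA hfr w)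
    (fun _ => True)
  simp only [if_true] at h
  exact h.unique HasDens.const_true

/-- joint frequencies of digit blocks and base blocks -/
theorem joint_dens (hA : ∀ n, q n < A) (h2 : ∀ n, 2 ≤ q n)
    (hfr : ∀ l B, HasDens (At q B) (fr l B))
    (hdec : Decodable q A) (hd : ∀ n, 1 ≤ n → d n < q n) (hN : NormalDigits q d)
    {l : ℕ} (w : (Fin l → Fin A) × (Fin l → Fin A)) :
    HasDens (fun j => At d (fun i => (w.1 i : ℕ)) (j + 1) ∧ At q (fun i => (w.2 i : ℕ)) (j + 1))
      (if ∀ i, w.1 i < w.2 i then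
        fr l (fun i => (w.2 i : ℕ)) * (∏ i, (((w.2 i : ℕ)) : ℝ))⁻¹ else 0) := by
  classical
  apply hasDens_of_partition
    (P := fun (w : (Fin l → Fin A) × (Fin l → Fin A)) j =>
      At d (fun i => (w.1 i : ℕ)) (j + 1) ∧ At q (fun i => (w.2 i : ℕ)) (j + 1))
    (a := fun w => if ∀ i, w.1 i < w.2 i then
        fr l (fun i => (w.2 i : ℕ)) * (∏ i, (((w.2 i : ℕ)) : ℝ))⁻¹ else 0)
  · intro w
    split_ifs with hw
    · exact lowerDens_joint hA h2 hfr hdec hd hN _ _ (fun i => hw i)
    · exact lowerDens_zero _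
  · intro w w' hne j h1 h3
    apply hne
    refine Prod.ext ?_ ?_
    · funext i
      exact Fin.ext ((h1.1 i).symm.trans (h3.1 i))
    · funext i
      exact Fin.ext ((h1.2 i).symm.trans (h3.2 i))
  · rw [← sum_fr hA hfr l, Fintype.sum_prod_type_right]
    refine sum_congr rfl (fun V _ => ?_)
    simp only
    rw [← sum_filter, sum_const, nsmul_eq_mul]
    by_cases hV : fr l (fun i => (V i : ℕ)) = 0
    · rw [hV]; ring
    · -- the block occurs, so its entries are positive
      have hcard : ((univ : Finset (Fin l → Fin A)).filter (fun D => ∀ i, D i < V i)).card =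
          ∏ i, (V i : ℕ) := by
        have : (univ : Finset (Fin l → Fin A)).filter (fun D => ∀ i, D i < V i) =
            Fintype.piFinset (fun i => Finset.Iio (V i)) := by
          ext D
          simp [Fintype.mem_piFinset]
        rw [this, Fintype.card_piFinset]
        refine prod_congr rfl (fun i _ => ?_)
        simp
      have hVpos : ∀ i, 0 < (V i : ℕ) := by
        by_contra hc
        push Not at hc
        obtain ⟨i, hi⟩ := hc
        apply hV
        have : HasDens (At q (fun i => (V i : ℕ))) 0 := by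
          refine HasDens.const_false.congr (fun j => ?_)
          simp only [false_iff]
          intro hj
          have h3 : q (j + i) = (V i : ℕ) := hj i
          have h4 := h2 (j + i)
          omega
        exact (hfr l _).unique this
      rw [hcard]
      have hne : (∏ i, ((V i : ℕ) : ℝ)) ≠ 0 := by
        rw [prod_ne_zero_iff]
        intro i _
        exact_mod_cast (hVpos i).ne'
      push_cast
      field_simp

end rigid

end Pool.Agent.H.MP_2f0ae6_an
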