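import Pool.Agent.H.MP_2f0ae6_an.Random
import Pool.Agent.H.MP_2f0ae6_an.Density

set_option autoImplicit false

/-!
The basic sequence and its block frequencies.
-/

namespace Pool.Agent.H.MP_2f0ae6_an

open Finset Filter Topology

/-- the level of `m ≠ 0`: the number of vanishing lowest digits -/
noncomputable def lev (m : ℕ) : ℕ := sInf {k | ¬ L (k + 1) ∣ m}

lemma lev_set_nonempty {m : ℕ} (hm : m ≠ 0) : {k | ¬ L (k + 1) ∣ m}.Nonempty := by
  refine ⟨m, fun h => ?_⟩
  have h1 := Nat.le_of_dvd (Nat.pos_of_ne_zero hm) h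
  have h2 := lt_L (m + 1)
  omega

lemma le_lev_iff {m k : ℕ} (hm : m ≠ 0) : k ≤ lev m ↔ L k ∣ m := by
  constructor
  · intro h
    cases k with
    | zero => simp [L]
    | succ k =>
      by_contra hc
      have : lev m ≤ k := Nat.sInf_le hc
      omega
  · intro h
    by_contra hc
    have h1 : ¬ L (lev m + 1) ∣ m := Nat.sInf_mem (lev_set_nonempty hm)
    exact h1 (dvd_trans (L_dvd (by omega)) h)

lemma lev_lt {k r : ℕ} (hr : 0 < r) (hrk : r < L k) : lev r < k := by
  by_contra hc
  rw [not_lt, le_lev_iff hr.ne'] at hc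
  exact absurd (Nat.le_of_dvd hr hc) (by omega)

lemma lev_add {k r i : ℕ} (hr : 0 < r) (hrk : r < L k) : lev (i * L k + r) = lev r := by
  have h0 : i * L k + r ≠ 0 := by omega
  have hlt := lev_lt hr hrk
  apply le_antisymm
  · by_contra hc
    rw [not_le, ← Nat.succ_le_iff, le_lev_iff h0] at hc
    have h1 : L (lev r).succ ∣ i * L k := Dvd.dvd.mul_left (L_dvd hlt) i
    have h2 : L (lev r).succ ∣ r := (Nat.dvd_add_right h1).1 hc
    rw [← le_lev_iff hr.ne'] at h2
    omega
  · rw [le_lev_iff h0]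
    exact dvd_add (Dvd.dvd.mul_left (L_dvd hlt.le) i) ((le_lev_iff hr.ne').1 le_rfl)

/-- the symbol at label `m`, in `{0,1,2,3}`: code bit and parity of the level -/
noncomputable def sy (u : ℕ → ZMod 2) (m : ℕ) : ℕ := 2 * (u m).val + lev m % 2

lemma sy_lt (u : ℕ → ZMod 2) (m : ℕ) : sy u m < 4 := by
  unfold sy
  have h1 : (u m).val < 2 := ZMod.val_lt _
  have h2 : lev m % 2 < 2 := Nat.mod_lt _ (by norm_num)
  omega

/-- the two-sided symbolic sequence: groups of five entries -/
noncomputable def gseq (u : ℕ → ZMod 2) (n : ℕ) : ℕ :=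
  if n % 5 = 0 then 65536 else if n % 5 = 1 + sy u (n / 5) then 256 else 2

lemma gseq_ge (u : ℕ → ZMod 2) (n : ℕ) : 2 ≤ gseq u n := by
  unfold gseq; split_ifs <;> norm_num

lemma gseq_le (u : ℕ → ZMod 2) (n : ℕ) : gseq u n ≤ 65536 := by
  unfold gseq; split_ifs <;> norm_num

lemma gseq_header (u : ℕ → ZMod 2) (m : ℕ) : gseq u (5 * m) = 65536 := by
  unfold gseq; simp

lemma gseq_one_hot (u : ℕ → ZMod 2) (m : ℕ) : gseq u (5 * m + (1 + sy u m)) = 256 := by
  have h := sy_lt u m
  have h1 : (5 * m + (1 + sy u m)) % 5 = 1 + sy u m := by omega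
  have h2 : (5 * m + (1 + sy u m)) / 5 = m := by omega
  unfold gseq
  rw [h1, h2, if_neg (by omega), if_pos rfl]

lemma header_of_gt {u : ℕ → ZMod 2} {n : ℕ} (h : 256 < gseq u n) : n % 5 = 0 := by
  unfold gseq at h
  split_ifs at h with h1 h2
  · exact h1
  · omega
  · omega

lemma one_hot_of_gt {u : ℕ → ZMod 2} {n : ℕ} (h : 2 < gseq u n) (h5 : n % 5 ≠ 0) :
    n % 5 = 1 + sy u (n / 5) := by
  unfold gseq at h
  split_ifs at h with h1 h2
  · exact absurd h1 h5
  · exact h2
  · omega

/-- the group determines the symbol -/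
lemma sy_eq_of_group {u u' : ℕ → ZMod 2} {m m' : ℕ}
    (h : ∀ e, 1 ≤ e → e ≤ 4 → gseq u (5 * m + e) = gseq u' (5 * m' + e)) : sy u m = sy u' m' := by
  have h1 := sy_lt u m
  have h2 := h (1 + sy u m) (by omega) (by omega)
  rw [gseq_one_hot] at h2
  have h3 := one_hot_of_gt (u := u') (n := 5 * m' + (1 + sy u m)) (by omega) (by omega)
  have h4 : (5 * m' + (1 + sy u m)) / 5 = m' := by omega
  rw [h4] at h3
  omega

lemma bit_eq_of_sy {u u' : ℕ → ZMod 2} {m m' : ℕ} (h : sy u m = sy u' m') : u m = u' m' := by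
  unfold sy at h
  have : (u m).val = (u' m').val := by omega
  exact ZMod.val_injective 2 this

lemma parity_eq_of_sy {u u' : ℕ → ZMod 2} {m m' : ℕ} (h : sy u m = sy u' m') :
    lev m % 2 = lev m' % 2 := by
  unfold sy at h
  omega

lemma sy_congr {u u' : ℕ → ZMod 2} {m m' : ℕ} (h : u m = u' m') (h' : lev m = lev m') :
    sy u m = sy u' m' := by
  unfold sy; rw [h, h']

lemma gseq_congr {u u' : ℕ → ZMod 2} {m m' e : ℕ} (he : e < 5) (h : sy u m = sy u' m') :
    gseq u (5 * m + e) = gseq u' (5 * m' + e) := by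
  unfold gseq
  have h1 : (5 * m + e) % 5 = e := by omega
  have h2 : (5 * m' + e) % 5 = e := by omega
  have h3 : (5 * m + e) / 5 = m := by omega
  have h4 : (5 * m' + e) / 5 = m' := by omega
  rw [h1, h2, h3, h4, h]

/-- extension of a word by zero -/
def wExt {k : ℕ} (w : Fin (L k) → ZMod 2) (n : ℕ) : ZMod 2 := if h : n < L k then w ⟨n, h⟩ else 0

lemma gseq_block (u : ℕ → ZMod 2) (k i x : ℕ) (hx : 5 ≤ x) (hx' : x < 5 * L k) :
    gseq u (5 * L k * i + x) = gseq (wExt (wordAt k i u)) x := by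
  obtain ⟨m, e, he, rfl⟩ : ∃ m e, e < 5 ∧ x = 5 * m + e :=
    ⟨x / 5, x % 5, Nat.mod_lt _ (by norm_num), (Nat.div_add_mod x 5).symm⟩
  have e1 : 5 * L k * i + (5 * m + e) = 5 * (i * L k + m) + e := by ring
  rw [e1]
  apply gseq_congr he
  have hm : 0 < m := by omega
  have hmL : m < L k := by omega
  apply sy_congr
  · unfold wExt wordAt
    rw [dif_pos hmL]
  · exact lev_add hm hmL

/-- occurrence of the block `B` at position `j` of `s` -/
def At (s : ℕ → ℕ) {l : ℕ} (B : Fin l → ℕ) (j : ℕ) : Prop := ∀ i : Fin l, s (j + i) = B i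

section freq

variable {u : ℕ → ZMod 2}

/-- good residues -/
def GoodRes (k l r : ℕ) : Prop := 5 ≤ r ∧ r + l ≤ 5 * L k

lemma at_iff {k l : ℕ} (B : Fin l → ℕ) {r : ℕ} (hr : GoodRes k l r) (i : ℕ) :
    At (gseq u) B (5 * L k * i + r) ↔ At (gseq (wExt (wordAt k i u))) B r := by
  unfold At
  refine forall_congr' (fun x => ?_)
  have h1 := hr.1
  have h2 := hr.2
  have h3 := x.2
  rw [add_assoc, gseq_block u k i (r + x) (by omega) (by omega)]

open Classical in
lemma card_bad (k l : ℕ) :
    (((range (5 * L k)).filter fun r => ¬ GoodRes k l r).card : ℝ) ≤ 5 + l := by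
  have : ((range (5 * L k)).filter fun r => ¬ GoodRes k l r) ⊆
      range 5 ∪ (Finset.Ico (5 * L k - l) (5 * L k)) := by
    intro r hr
    simp only [mem_filter, mem_range, GoodRes, not_and_or, not_le, mem_union, mem_Ico] at hr ⊢
    omega
  have h2 := card_le_card this
  have h3 := card_union_le (range 5) (Finset.Ico (5 * L k - l) (5 * L k))
  rw [card_range, Nat.card_Ico] at h3
  have h4 : ((range (5 * L k)).filter fun r => ¬ GoodRes k l r).card ≤ 5 + l := by omega
  exact_mod_cast h4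

open Classical in
lemma approx_dens
    (hfreq : ∀ k w, HasDens (fun i => wordAt k i u = w) (rho k w))
    {l : ℕ} (B : Fin l → ℕ) (k : ℕ) :
    ∃ a : ℕ → ℝ, (∀ r, a r = ∑ w, if At (gseq (wExt w)) B r then rho k w else 0) ∧
    HasDens (fun j => At (gseq u) B j ∧ GoodRes k l (j % (5 * L k)))
      ((∑ r ∈ range (5 * L k), if GoodRes k l r then a r else 0) / (5 * L k : ℕ)) ∧
    HasDens (fun j => At (gseq u) B j ∨ ¬ GoodRes k l (j % (5 * L k)))
      ((∑ r ∈ range (5 * L k), if GoodRes k l r then a r else 1) / (5 * L k : ℕ)) := by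
  have hm : 0 < 5 * L k := by have := L_pos k; omega
  refine ⟨fun r => ∑ w, if At (gseq (wExt w)) B r then rho k w else 0, fun r => rfl, ?_, ?_⟩
  · apply HasDens.of_mod hm
    intro r hr
    have e : ∀ i, (5 * L k * i + r) % (5 * L k) = r := fun i => by
      rw [Nat.mul_add_mod, Nat.mod_eq_of_lt hr]
    by_cases hg : GoodRes k l r
    · simp only [e, hg, and_true, if_true]
      exact (HasDens.of_finite (hfreq k) (fun w => At (gseq (wExt w)) B r)).congr
        (fun i => (at_iff B hg i).symm)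
    · simp only [e, hg, and_false, if_false]
      exact HasDens.const_false
  · apply HasDens.of_mod hm
    intro r hr
    have e : ∀ i, (5 * L k * i + r) % (5 * L k) = r := fun i => by
      rw [Nat.mul_add_mod, Nat.mod_eq_of_lt hr]
    by_cases hg : GoodRes k l r
    · simp only [e, hg, not_true, or_false, if_true]
      exact (HasDens.of_finite (hfreq k) (fun w => At (gseq (wExt w)) B r)).congr
        (fun i => (at_iff B hg i).symm)
    · simp only [e, hg, not_false_iff, or_true, if_false]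
      exact HasDens.const_true

lemma exists_dens
    (hfreq : ∀ k w, HasDens (fun i => wordAt k i u = w) (rho k w))
    {l : ℕ} (B : Fin l → ℕ) : ∃ a, HasDens (At (gseq u) B) a := by
  classical
  apply exists_hasDens_of_approx
  intro ε hε
  obtain ⟨k, hk⟩ := exists_nat_gt ((5 + l : ℝ) / ε)
  obtain ⟨a, -, h1, h2⟩ := approx_dens hfreq B k
  refine ⟨_, _, _, _, h1, h2, fun j h => h.1, fun j h => Or.inl h, ?_⟩
  rw [← sub_div, ← sum_sub_distrib]
  have e : ∀ r ∈ range (5 * L k), ((if GoodRes k l r then a r else 1) -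
      (if GoodRes k l r then a r else 0)) = if ¬ GoodRes k l r then (1 : ℝ) else 0 := by
    intro r _
    by_cases hg : GoodRes k l r <;> simp [hg]
  rw [sum_congr rfl e, ← sum_filter, sum_const, nsmul_eq_mul, mul_one]
  have hL : (k : ℝ) ≤ ((5 * L k : ℕ) : ℝ) := by
    have := lt_L k
    exact_mod_cast (by omega : k ≤ 5 * L k)
  have hLpos : (0 : ℝ) < ((5 * L k : ℕ) : ℝ) := by
    have := L_pos k
    exact_mod_cast (by omega : 0 < 5 * L k)
  rw [div_le_iff₀ hLpos]
  rw [div_lt_iff₀ hε] at hk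
  calc _ ≤ (5 + l : ℝ) := card_bad k l
    _ ≤ k * ε := hk.le
    _ ≤ _ := by rw [mul_comm]; exact mul_le_mul_of_nonneg_left hL hε.le

lemma dens_pos
    (hfreq : ∀ k w, HasDens (fun i => wordAt k i u = w) (rho k w))
    (hpos : ∀ k i, 0 < rho k (wordAt k i u))
    {l j : ℕ} (hj : 5 ≤ j) {a : ℝ} (ha : HasDens (At (gseq u) (fun i : Fin l => gseq u (j + i))) a) :
    0 < a := by
  classical
  set B : Fin l → ℕ := fun i : Fin l => gseq u (j + i) with hB
  set k := j + l with hk
  have hkL := lt_L k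
  obtain ⟨b, hb, h1, -⟩ := approx_dens hfreq B k
  have hle : _ ≤ a := HasDens.mono h1 ha (fun j h => h.1)
  refine lt_of_lt_of_le ?_ hle
  have hg : GoodRes k l j := ⟨hj, by omega⟩
  have hmpos : (0 : ℝ) < ((5 * L k : ℕ) : ℝ) := by
    exact_mod_cast (by omega : 0 < 5 * L k)
  apply div_pos _ hmpos
  have hb0 : ∀ r, 0 ≤ b r := by
    intro r
    rw [hb]
    apply sum_nonneg
    intro w _
    split_ifs
    · exact rho_nonneg _ _
    · exact le_rfl
  have hbj : 0 < b j := by
    rw [hb]
    refine sum_pos' ?_ ⟨wordAt k 0 u, mem_univ _, ?_⟩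
    · intro w _
      split_ifs
      · exact rho_nonneg _ _
      · exact le_rfl
    · have : At (gseq (wExt (wordAt k 0 u))) B j := by
        rw [← at_iff B hg 0]
        intro i
        simp [hB]
      rw [if_pos this]
      exact hpos k 0
  refine sum_pos' ?_ ⟨j, ?_, ?_⟩
  · intro r _
    split_ifs
    · exact hb0 r
    · exact le_rfl
  · rw [mem_range]; omega
  · rw [if_pos hg]; exact hbj

lemma dens_le
    (hfreq : ∀ k w, HasDens (fun i => wordAt k i u = w) (rho k w))
    (k : ℕ) (B : Fin (10 * L k) → ℕ) {a : ℝ} (ha : HasDens (At (gseq u) B) a) :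
    a ≤ (1 / 2 : ℝ) ^ (dfree k) := by
  classical
  have hLk := L_pos k
  set m := 5 * L k with hm
  have hmpos : 0 < m := by omega
  -- the word determined by `B` and the residue
  have hw : ∀ r, ∃ w : Fin (L k) → ZMod 2, r < m → ∀ i, At (gseq u) B (m * i + r) →
      wordAt k (i + 1) u = w := by
    intro r
    by_cases hex : ∃ i0, At (gseq u) B (m * i0 + r)
    · obtain ⟨i0, hi0⟩ := hex
      refine ⟨wordAt k (i0 + 1) u, fun hr i hi => ?_⟩
      funext x
      have hx := x.2
      unfold wordAt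
      apply bit_eq_of_sy
      apply sy_eq_of_group
      intro e he1 he2
      have hidx : m - r + 5 * x + e < 10 * L k := by omega
      have h1 := hi ⟨m - r + 5 * x + e, hidx⟩
      have h2 := hi0 ⟨m - r + 5 * x + e, hidx⟩
      simp only at h1 h2
      have e1 : m * i + r + (m - r + 5 * x + e) = 5 * ((i + 1) * L k + x) + e := by
        have : m * i + r + (m - r + 5 * x + e) = m * i + m + 5 * x + e := by omega
        rw [this, hm]; ring
      have e2 : m * i0 + r + (m - r + 5 * x + e) = 5 * ((i0 + 1) * L k + x) + e := by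
        have : m * i0 + r + (m - r + 5 * x + e) = m * i0 + m + 5 * x + e := by omega
        rw [this, hm]; ring
      rw [e1] at h1
      rw [e2] at h2
      rw [h1, h2]
    · exact ⟨0, fun _ i hi => absurd ⟨i, hi⟩ hex⟩
  choose w hw using hw
  have h2 : HasDens (fun j => wordAt k (j / m + 1) u = w (j % m))
      ((∑ r ∈ range m, rho k (w r)) / m) := by
    apply HasDens.of_mod hmpos
    intro r hr
    have e1 : ∀ i, (m * i + r) / m = i := fun i => by
      rw [Nat.mul_add_div hmpos, Nat.div_eq_of_lt hr, add_zero]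
    have e2 : ∀ i, (m * i + r) % m = r := fun i => by
      rw [Nat.mul_add_mod, Nat.mod_eq_of_lt hr]
    simp only [e1, e2]
    exact (hfreq k (w r)).shift 1
  have h3 : a ≤ _ := HasDens.mono ha h2 (fun j hj => by
    have e : m * (j / m) + j % m = j := Nat.div_add_mod j m
    apply hw (j % m) (Nat.mod_lt _ hmpos) (j / m)
    rw [e]; exact hj)
  refine h3.trans ?_
  have hmpos' : (0 : ℝ) < m := by exact_mod_cast hmpos
  rw [div_le_iff₀ hmpos']
  calc ∑ r ∈ range m, rho k (w r) ≤ ∑ r ∈ range m, (1 / 2 : ℝ) ^ (dfree k) :=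
        sum_le_sum (fun r _ => rho_le k (w r))
    _ = (1 / 2 : ℝ) ^ (dfree k) * m := by rw [sum_const, card_range, nsmul_eq_mul, mul_comm]

end freq

end Pool.Agent.H.MP_2f0ae6_an
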